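import Mathlib

/-!
# Montel's theorem along an ultrafilter

Copied from `Pool/Agent/Work/MP_a2a261_an/RMT.lean` (written by another member of the team).
-/

open Filter Metric Set Topology

namespace Pool.Agent.Work.MP_f82ddf_nt

/-- Holomorphic maps into the unit disc are equicontinuous. -/
theorem equicontinuousAt_of_mapsTo {ι : Type*} {U : Set ℂ} (hU : IsOpen U) {F : ι → ℂ → ℂ}
    (hd : ∀ n, DifferentiableOn ℂ (F n) U) (hb : ∀ n, MapsTo (F n) U (ball 0 1)) {z : ℂ}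
    (hz : z ∈ U) : EquicontinuousAt F z := by
  rw [Metric.equicontinuousAt_iff]
  intro ε hε
  obtain ⟨r, hr, hrU⟩ := Metric.isOpen_iff.1 hU z hz
  refine ⟨min r (ε * r / 2), lt_min hr (by positivity), fun x hx n => ?_⟩
  have hxr : x ∈ ball z r := mem_ball.2 (lt_of_lt_of_le hx (min_le_left _ _))
  have hmaps : MapsTo (F n) (ball z r) (closedBall (F n z) 2) := by
    intro y hy
    have h1 := hb n (hrU hy)
    have h2 := hb n hz
    rw [mem_ball_zero_iff] at h1 h2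
    rw [mem_closedBall, dist_eq_norm]
    exact (norm_sub_le _ _).trans (by linarith)
  have h := Complex.dist_le_div_mul_dist_of_mapsTo_ball ((hd n).mono hrU) hmaps hxr
  rw [dist_comm]
  refine lt_of_le_of_lt h ?_
  have hx2 : dist x z < ε * r / 2 := lt_of_lt_of_le hx (min_le_right _ _)
  calc 2 / r * dist x z < 2 / r * (ε * r / 2) := by gcongr
    _ = ε := by field_simp

/-- **Montel's theorem** along an ultrafilter. -/
theorem montel {ι : Type*} {U : Set ℂ} (hU : IsOpen U) {F : ι → ℂ → ℂ}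
    (hd : ∀ n, DifferentiableOn ℂ (F n) U) (hb : ∀ n, MapsTo (F n) U (ball 0 1))
    (𝒰 : Ultrafilter ι) : ∃ f : ℂ → ℂ, TendstoLocallyUniformlyOn F f 𝒰 U := by
  have h1 : ∀ z, ∃ w : ℂ, z ∈ U → Tendsto (fun n => F n z) 𝒰 (𝓝 w) := by
    intro z
    by_cases hz : z ∈ U
    · have hc : IsCompact (closedBall (0 : ℂ) 1) := isCompact_closedBall _ _
      have h2 : (𝒰.map fun n => F n z : Filter ℂ) ≤ 𝓟 (closedBall (0 : ℂ) 1) := by
        rw [le_principal_iff]
        exact Filter.mem_map.2 (Filter.univ_mem' fun n => ball_subset_closedBall (hb n hz))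
      obtain ⟨w, -, hw⟩ := isCompact_iff_ultrafilter_le_nhds.1 hc _ h2
      exact ⟨w, fun _ => hw⟩
    · exact ⟨0, fun h => absurd h hz⟩
  choose f hf using h1
  refine ⟨f, ?_⟩
  rw [tendstoLocallyUniformlyOn_iff_forall_isCompact hU]
  set 𝔖 : Set (Set ℂ) := {K | K ⊆ U ∧ IsCompact K} with h𝔖
  have hsU : ⋃₀ 𝔖 = U := by
    apply subset_antisymm
    · exact sUnion_subset fun K hK => hK.1
    · intro z hz
      exact ⟨{z}, ⟨singleton_subset_iff.2 hz, isCompact_singleton⟩, mem_singleton _⟩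
  have key := (EquicontinuousOn.tendsto_uniformOnFun_iff_pi' (𝔖 := 𝔖) (F := F)
    (fun K hK => hK.2) (fun K hK z hz =>
      (equicontinuousAt_of_mapsTo hU hd hb (hK.1 hz)).equicontinuousWithinAt K)
    (𝒰 : Filter ι) f).2 (by
      rw [tendsto_pi_nhds]
      rintro ⟨z, hz⟩
      rw [hsU] at hz
      exact hf z hz)
  rw [UniformOnFun.tendsto_iff_tendstoUniformlyOn] at key
  intro K hKU hK
  exact key K ⟨hKU, hK⟩

/-- Montel's theorem for functions bounded by a constant. -/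
theorem montel_bdd {ι : Type*} {U : Set ℂ} (hU : IsOpen U) {F : ι → ℂ → ℂ} {C : ℝ}
    (hd : ∀ n, DifferentiableOn ℂ (F n) U) (hb : ∀ n, ∀ z ∈ U, ‖F n z‖ ≤ C)
    (𝒰 : Ultrafilter ι) : ∃ f : ℂ → ℂ, TendstoLocallyUniformlyOn F f 𝒰 U := by
  have hC : 0 < max C 0 + 1 := by positivity
  have hC' : ((max C 0 + 1 : ℝ) : ℂ) ≠ 0 := by exact_mod_cast hC.ne'
  obtain ⟨f, hf⟩ := montel hU (F := fun n z => ((max C 0 + 1 : ℝ) : ℂ)⁻¹ * F n z)
    (fun n => (hd n).const_mul _) (fun n z hz => by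
      rw [mem_ball_zero_iff, norm_mul, norm_inv, Complex.norm_real, Real.norm_eq_abs,
        abs_of_pos hC, inv_mul_lt_iff₀ hC, mul_one]
      have := hb n z hz
      linarith [le_max_left C 0]) 𝒰
  refine ⟨fun z => ((max C 0 + 1 : ℝ) : ℂ) * f z, ?_⟩
  rw [Metric.tendstoLocallyUniformlyOn_iff] at hf ⊢
  intro ε hε x hx
  obtain ⟨t, ht, h⟩ := hf (ε / (max C 0 + 1)) (by positivity) x hx
  refine ⟨t, ht, ?_⟩
  filter_upwards [h] with n hn y hy
  have h1 := hn y hy
  rw [dist_eq_norm] at h1 ⊢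
  have h2 : ((max C 0 + 1 : ℝ) : ℂ) * f y - F n y =
      ((max C 0 + 1 : ℝ) : ℂ) * (f y - ((max C 0 + 1 : ℝ) : ℂ)⁻¹ * F n y) := by
    rw [mul_sub, mul_inv_cancel_left₀ hC']
  rw [h2, norm_mul, Complex.norm_real, Real.norm_eq_abs, abs_of_pos hC]
  rwa [lt_div_iff₀' hC] at h1

end Pool.Agent.Work.MP_f82ddf_nt
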