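import Pool.Agent.Work.MP_f82ddf_nt.Brody.Local
import Pool.Agent.Work.MP_f82ddf_nt.Brody.Montel

/-!
# Cartan's theorem for sums of powers, by rescaling
-/

open Topology Filter Metric Set

namespace Pool.Agent.Work.MP_f82ddf_nt

theorem det_single_last {r : ℕ} (v : Fin (r + 2) → ℂ → ℂ) (z : ℂ) :
    (Matrix.updateRow (wrow v z) (Fin.last (r + 1)) (Pi.single (Fin.last (r + 1)) 1)).det =
      wron (fun i : Fin (r + 1) => v i.castSucc) z := by
  classical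
  rw [Matrix.det_succ_row _ (Fin.last (r + 1)), Finset.sum_eq_single (Fin.last (r + 1))]
  · rw [Matrix.updateRow_self]
    simp only [Pi.single_eq_same, mul_one]
    rw [← two_mul, pow_mul]
    simp only [even_two, Even.neg_pow, one_pow, one_mul]
    unfold wron
    congr 1
    ext s i
    simp only [Matrix.submatrix_apply, Fin.succAbove_last]
    rw [Matrix.updateRow_ne (Fin.castSucc_ne_last s)]
    rfl
  · intro b _ hb
    rw [Matrix.updateRow_self]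
    simp [hb]
  · intro h
    exact absurd (Finset.mem_univ _) h

/-- The functions `E_j` extend to entire functions. -/
theorem exists_entire {r k m : ℕ} (hm : 1 ≤ m) (hkm : k * (r + 1) + m = (k - r) * (r + 2))
    (hrk : r ≤ k) (w : Fin (r + 2) → ℂ → ℂ)
    (hw : ∀ i z, MeromorphicAt (w i) z) (hne : ∀ i z₀, ∀ᶠ z in 𝓝[≠] z₀, w i z ≠ 0)
    (hsum : ∀ z₀, ∀ᶠ z in 𝓝[≠] z₀, ∑ i, w i z ^ k = 0) :
    ∃ G : Fin (r + 2) → ℂ → ℂ, (∀ j z, AnalyticAt ℂ (G j) z) ∧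
      (∀ j z₀, ∀ᶠ z in 𝓝[≠] z₀, ee r k m w j z = G j z) ∧
      ∀ J z₀, G J z₀ ≠ 0 → ∃ H : Fin (r + 2) → ℂ → ℂ, (∀ i, AnalyticAt ℂ (H i) z₀) ∧
        (∀ᶠ z in 𝓝[≠] z₀, ∀ i, w i z / w J z = H i z) := by
  classical
  have key : ∀ z₀, ∃ J, ∃ h : Fin (r + 2) → ℂ → ℂ, (∀ i, AnalyticAt ℂ (h i) z₀) ∧
      (∀ᶠ z in 𝓝[≠] z₀, ∀ i, w i z = w J z * h i z) ∧
      ∀ j, ∀ᶠ z in 𝓝[≠] z₀, ee r k m w j z = dd r k J h z * h j z ^ m := by
    intro z₀
    obtain ⟨J, h, hh, hJ, hwh⟩ := local_rep w z₀ (fun i => hw i z₀) (fun i => hne i z₀)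
    refine ⟨J, h, hh, hwh, fun j => ?_⟩
    have h1 : ∀ᶠ z in 𝓝[≠] z₀, ∀ i, w i z ≠ 0 := eventually_all.2 fun i => hne i z₀
    have h2 : ∀ᶠ z in 𝓝[≠] z₀, ∀ i, AnalyticAt ℂ (h i) z :=
      eventually_all.2 fun i => nhdsWithin_le_nhds (hh i).eventually_analyticAt
    filter_upwards [ev_ev hwh, h1, (hw J z₀).eventually_analyticAt, h2, ev_ev (hsum z₀)]
      with z a b c d e
    refine ee_eq hkm hrk c (b J) d a (by rw [hJ]) (fun i => ?_) e j
    have := a.self_of_nhds i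
    intro h0
    rw [h0, mul_zero] at this
    exact b i this
  have hglue : ∀ j, ∃ G : ℂ → ℂ, AnalyticOnNhd ℂ G univ ∧ ∀ z₀ ∈ univ,
      ∀ᶠ z in 𝓝[≠] z₀, ee r k m w j z = G z := by
    intro j
    apply exists_glue _ isOpen_univ
    intro z₀ _
    obtain ⟨J, h, hh, -, hE⟩ := key z₀
    exact ⟨_, (dd_analytic hh).mul ((hh j).pow m), hE j⟩
  choose G hG hGE using hglue
  refine ⟨G, fun j z => hG j z (mem_univ z), fun j z₀ => hGE j z₀ (mem_univ z₀), ?_⟩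
  intro J z₀ hJ0
  obtain ⟨J', h, hh, hwh, hE⟩ := key z₀
  have h1 : ∀ᶠ z in 𝓝[≠] z₀, G J z = dd r k J' h z * h J z ^ m := by
    filter_upwards [hGE J z₀ (mem_univ _), hE J] with z a b
    rw [← a, b]
  have h2 := ((hG J z₀ (mem_univ _)).frequently_eq_iff_eventually_eq
    ((dd_analytic hh).mul ((hh J).pow m))).1 h1.frequently
  have h3 := h2.self_of_nhds
  have h4 : h J z₀ ≠ 0 := by
    intro h0
    apply hJ0
    rw [h3]
    simp only [Pi.mul_apply, Pi.pow_apply]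
    rw [h0, zero_pow (by omega), mul_zero]
  refine ⟨fun i z => h i z / h J z, fun i => (hh i).div (hh J) h4, ?_⟩
  filter_upwards [hwh, hne J' z₀] with z a b i
  rw [a i, a J, mul_div_mul_left _ _ b]

end Pool.Agent.Work.MP_f82ddf_nt
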