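import Pool.Agent.Work.MP_f82ddf_nt.Brody.Cartan

/-!
# Cartan's theorem for sums of powers, by rescaling: the main argument
-/

open Topology Filter Metric Set

namespace Pool.Agent.Work.MP_f82ddf_nt

theorem exists_quotients {r k m : ℕ} (hkm : k * (r + 1) + m = (k - r) * (r + 2))
    (hrk : r ≤ k) (w : Fin (r + 2) → ℂ → ℂ)
    (hw : ∀ i z, MeromorphicAt (w i) z) (hne : ∀ i z₀, ∀ᶠ z in 𝓝[≠] z₀, w i z ≠ 0)
    (hsum : ∀ z₀, ∀ᶠ z in 𝓝[≠] z₀, ∑ i, w i z ^ k = 0)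
    (G : Fin (r + 2) → ℂ → ℂ) (hG : ∀ j z, AnalyticAt ℂ (G j) z)
    (hGE : ∀ j z₀, ∀ᶠ z in 𝓝[≠] z₀, ee r k m w j z = G j z)
    (hloc : ∀ J z₀, G J z₀ ≠ 0 → ∃ H : Fin (r + 2) → ℂ → ℂ, (∀ i, AnalyticAt ℂ (H i) z₀) ∧
        (∀ᶠ z in 𝓝[≠] z₀, ∀ i, w i z / w J z = H i z)) (J : Fin (r + 2)) :
    ∃ H : Fin (r + 2) → ℂ → ℂ, ∀ z₀, G J z₀ ≠ 0 → (∀ i, AnalyticAt ℂ (H i) z₀) ∧
      G J z₀ = dd r k J H z₀ ∧ ∀ i, G i z₀ = H i z₀ ^ m * G J z₀ := by
  classical
  have hΩ : IsOpen {z | G J z ≠ 0} := by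
    have hc : Continuous (G J) := continuous_iff_continuousAt.2 fun z => (hG J z).continuousAt
    exact isOpen_ne_fun hc continuous_const
  have hglue : ∀ i, ∃ H : ℂ → ℂ, AnalyticOnNhd ℂ H {z | G J z ≠ 0} ∧
      ∀ z₀ ∈ {z | G J z ≠ 0}, ∀ᶠ z in 𝓝[≠] z₀, w i z / w J z = H z := by
    intro i
    apply exists_glue _ hΩ
    intro z₀ hz₀
    obtain ⟨H, hH, hwH⟩ := hloc J z₀ hz₀
    exact ⟨H i, hH i, hwH.mono fun z hz => hz i⟩
  choose H hH hwH using hglue
  refine ⟨H, fun z₀ hz₀ => ?_⟩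
  have han : ∀ i, AnalyticAt ℂ (H i) z₀ := fun i => hH i z₀ hz₀
  have h1 : ∀ᶠ z in 𝓝[≠] z₀, ∀ i, w i z / w J z = H i z := eventually_all.2 fun i => hwH i z₀ hz₀
  have h2 : ∀ᶠ z in 𝓝[≠] z₀, (∀ j, G j z = dd r k J H z * H j z ^ m) ∧ H J z = 1 := by
    have a1 : ∀ᶠ z in 𝓝[≠] z₀, ∀ i, w i z ≠ 0 := eventually_all.2 fun i => hne i z₀
    have a2 : ∀ᶠ z in 𝓝[≠] z₀, ∀ i, AnalyticAt ℂ (H i) z :=
      eventually_all.2 fun i => nhdsWithin_le_nhds (han i).eventually_analyticAt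
    have a3 : ∀ᶠ z in 𝓝[≠] z₀, ∀ j, ee r k m w j z = G j z := eventually_all.2 fun j => hGE j z₀
    filter_upwards [ev_ev (h1.and a1), a2, (hw J z₀).eventually_analyticAt, ev_ev (hsum z₀), a3]
      with z b1 b2 b3 b4 b5
    obtain ⟨c1, c2⟩ := b1.self_of_nhds
    have hJ1 : H J z = 1 := by
      rw [← c1 J, div_self (c2 J)]
    refine ⟨fun j => ?_, hJ1⟩
    rw [← b5 j]
    refine ee_eq hkm hrk b3 (c2 J) b2 ?_ hJ1 (fun i => ?_) b4 j
    · filter_upwards [b1] with y hy i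
      rw [← hy.1 i]
      field_simp [hy.2 J]
    · rw [← c1 i]
      exact div_ne_zero (c2 i) (c2 J)
  have h3 : ∀ j, G j z₀ = dd r k J H z₀ * H j z₀ ^ m := by
    intro j
    have h4 : ∀ᶠ z in 𝓝[≠] z₀, G j z = dd r k J H z * H j z ^ m := h2.mono fun z hz => hz.1 j
    exact (((hG j z₀).frequently_eq_iff_eventually_eq
      ((dd_analytic han).mul ((han j).pow m))).1 h4.frequently).self_of_nhds
  have h5 : H J z₀ = 1 := by
    have h4 : ∀ᶠ z in 𝓝[≠] z₀, H J z = 1 := h2.mono fun z hz => hz.2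
    exact (((han J).frequently_eq_iff_eventually_eq analyticAt_const).1 h4.frequently).self_of_nhds
  have h6 : G J z₀ = dd r k J H z₀ := by rw [h3 J, h5, one_pow, mul_one]
  refine ⟨han, h6, fun i => ?_⟩
  rw [h6, h3 i, mul_comm]

theorem exists_tendsto_of_bdd {ι : Type*} (𝒰 : Ultrafilter ι) {u : ι → ℂ} {C : ℝ}
    (h : ∀ n, ‖u n‖ ≤ C) : ∃ e, Tendsto u 𝒰 (𝓝 e) := by
  have hc : IsCompact (closedBall (0 : ℂ) C) := isCompact_closedBall _ _
  have h2 : (𝒰.map u : Filter ℂ) ≤ 𝓟 (closedBall (0 : ℂ) C) := by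
    rw [le_principal_iff]
    exact Filter.mem_map.2 (Filter.univ_mem' fun n => mem_closedBall_zero_iff.2 (h n))
  obtain ⟨w, -, hw⟩ := isCompact_iff_ultrafilter_le_nhds.1 hc _ h2
  exact ⟨w, hw⟩

theorem no_curve {r k : ℕ} (hr : 1 ≤ r) (hk : r * (r + 2) < k) (w : Fin (r + 2) → ℂ → ℂ)
    (hw : ∀ i z, MeromorphicAt (w i) z) (hne : ∀ i z₀, ∀ᶠ z in 𝓝[≠] z₀, w i z ≠ 0)
    (hsum : ∀ z₀, ∀ᶠ z in 𝓝[≠] z₀, ∑ i, w i z ^ k = 0)
    (hind : ∀ c : Fin (r + 1) → ℂ,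
      (∀ z₀, ∀ᶠ z in 𝓝[≠] z₀, ∑ i, c i * w i.castSucc z ^ k = 0) → c = 0) : False := by
  classical
  obtain ⟨m, hkm'⟩ : ∃ m, k = r * (r + 2) + m := ⟨k - r * (r + 2), by omega⟩
  have hm : 1 ≤ m := by omega
  have hrk : r ≤ k := by nlinarith
  have hkm : k * (r + 1) + m = (k - r) * (r + 2) := by
    have h1 : k - r = r * (r + 1) + m := by
      have : r * (r + 2) = r * (r + 1) + r := by ring
      omega
    rw [h1, hkm']
    ring
  obtain ⟨G, hG, hGE, hloc⟩ := exists_entire hm hkm hrk w hw hne hsum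
  -- some `G j` does not vanish identically
  obtain ⟨c, j₀, hc⟩ : ∃ c j, G j c ≠ 0 := by
    by_contra hcon
    push Not at hcon
    have h1 : ∀ᶠ z in 𝓝[≠] (0 : ℂ), dt (fun i y => w i y ^ k) z = 0 := by
      have h0 : ∀ᶠ z in 𝓝[≠] (0 : ℂ), ∀ i, w i z ≠ 0 := eventually_all.2 fun i => hne i 0
      filter_upwards [hGE 0 0, h0] with z a b
      rw [hcon] at a
      unfold ee at a
      have h2 : ∏ i, w i z ^ (k - r) ≠ 0 :=
        Finset.prod_ne_zero_iff.2 fun i _ => pow_ne_zero _ (b i)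
      rcases div_eq_zero_iff.1 a with h | h
      · exact (mul_eq_zero.1 h).resolve_right (pow_ne_zero _ (b 0))
      · exact absurd h h2
    have h2 : ∀ᶠ z in 𝓝[≠] (0 : ℂ), ∀ i, AnalyticAt ℂ (w i) z :=
      eventually_all.2 fun i => (hw i 0).eventually_analyticAt
    obtain ⟨z₁, a⟩ := ((ev_ev h1).and ((ev_ev h2).and (ev_ev (ev_ev (hsum 0))))).exists
    have h3 := a.1.and (a.2.1.and a.2.2)
    obtain ⟨ε, hε, hball⟩ := Metric.eventually_nhds_iff_ball.1 h3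
    obtain ⟨c, hc0, hrel⟩ := exists_relation_of_wron (r + 1) (U := ball z₁ ε) isOpen_ball
      ⟨⟨z₁, mem_ball_self hε⟩, (convex_ball z₁ ε).isPreconnected⟩
      (fun i y => w i.castSucc y ^ k) (fun i z hz => ((hball z hz).2.1 _).fun_pow k) (by
        intro z hz
        obtain ⟨a, b, d⟩ := hball z hz
        rw [dt_eq (fun i => (b i).fun_pow k) d (Fin.last _), det_single_last] at a
        refine (mul_eq_zero.1 a).resolve_left ?_
        norm_cast)
    apply hc0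
    apply hind
    intro z₀
    refine mero_zero (g := fun z => ∑ i, c i * w i.castSucc z ^ k) (fun z => ?_) (z₁ := z₁) ?_ z₀
    · apply MeromorphicAt.fun_sum
      intro i _
      exact (MeromorphicAt.const (c i) z).mul ((hw _ z).pow k)
    · apply nhdsWithin_le_nhds
      filter_upwards [isOpen_ball.mem_nhds (mem_ball_self hε)] with z hz
      exact hrel z hz
  -- the density
  set p : ℕ := ∑ s : Fin (r + 1), (s : ℕ) with hp
  have hp1 : 1 ≤ p := by
    have : ((⟨1, by omega⟩ : Fin (r + 1)) : ℕ) ≤ p :=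
      Finset.single_le_sum (f := fun s : Fin (r + 1) => (s : ℕ)) (fun _ _ => Nat.zero_le _)
        (Finset.mem_univ _)
    exact this
  have hp0 : p ≠ 0 := by omega
  set ρ : ℂ → ℝ := fun z => ‖fun j => G j z‖ ^ ((p : ℝ)⁻¹) with hρ
  have hGc : ∀ j, Continuous (G j) := fun j =>
    continuous_iff_continuousAt.2 fun z => (hG j z).continuousAt
  have hρc : Continuous ρ := by
    apply Continuous.rpow_const
    · exact (continuous_pi hGc).norm
    · intro _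
      right
      positivity
  have hρnn : ∀ z, 0 ≤ ρ z := fun z => Real.rpow_nonneg (norm_nonneg _) _
  have hρp : ∀ z, ρ z ^ p = ‖fun j => G j z‖ := fun z =>
    Real.rpow_inv_natCast_pow (norm_nonneg _) hp0
  have hρc0 : 0 < ρ c := by
    apply Real.rpow_pos_of_pos
    rw [norm_pos_iff]
    intro h0
    exact hc (congrFun h0 j₀)
  have hGρ : ∀ j z, ‖G j z‖ ≤ ρ z ^ p := by
    intro j z
    rw [hρp]
    exact norm_le_pi_norm (fun j => G j z) j
  choose z hz hρz hρle hzb using fun n : ℕ =>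
    exists_rescale (ρ := ρ) (c := c) (r := (n : ℝ) + 1) (by positivity) hρc.continuousOn
      (fun z _ => hρnn z) hρc0
  set l : ℕ → ℂ := fun n => (((ρ (z n))⁻¹ : ℝ) : ℂ) with hl
  have hlnorm : ∀ n, ‖l n‖ = (ρ (z n))⁻¹ := by
    intro n
    rw [hl]
    simp only [Complex.norm_real, Real.norm_eq_abs, abs_inv, abs_of_pos (hρz n)]
  have hl0 : ∀ n, l n ≠ 0 := by
    intro n
    rw [← norm_pos_iff, hlnorm]
    exact inv_pos.2 (hρz n)
  set g : ℕ → Fin (r + 2) → ℂ → ℂ := fun n j ζ => l n ^ p * G j (z n + l n * ζ) with hg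
  have hgb : ∀ (n : ℕ) ζ, ‖ζ‖ ≤ ((n : ℝ) + 1) * ρ c / 2 → ∀ j, ‖g n j ζ‖ ≤ 2 ^ p := by
    intro n ζ hζ j
    have h1 : dist (z n + l n * ζ) (z n) ≤ ((n : ℝ) + 1) * ρ c / (2 * ρ (z n)) := by
      rw [dist_eq_norm, add_sub_cancel_left, norm_mul, hlnorm, inv_mul_le_iff₀ (hρz n)]
      refine hζ.trans (le_of_eq ?_)
      have := (hρz n).ne'
      field_simp
    have h2 := (hzb n _ h1).2
    calc ‖g n j ζ‖ = (ρ (z n))⁻¹ ^ p * ‖G j (z n + l n * ζ)‖ := by
          rw [hg]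
          simp only [norm_mul, norm_pow, hlnorm]
      _ ≤ (ρ (z n))⁻¹ ^ p * (2 * ρ (z n)) ^ p := by
          apply mul_le_mul_of_nonneg_left _ (by have := (hρz n).le; positivity)
          exact (hGρ j _).trans (pow_le_pow_left₀ (hρnn _) h2 p)
      _ = 2 ^ p := by
          rw [← mul_pow]
          congr 1
          have := (hρz n).ne'
          field_simp
  have hg1 : ∀ n, ∃ J, ‖g n J 0‖ = 1 := by
    intro n
    obtain ⟨J, hJ⟩ := Finite.exists_max (fun j => ‖G j (z n)‖)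
    refine ⟨J, ?_⟩
    have h1 : ‖G J (z n)‖ = ρ (z n) ^ p := by
      apply le_antisymm (hGρ J _)
      rw [hρp, pi_norm_le_iff_of_nonneg (norm_nonneg _)]
      exact hJ
    rw [hg]
    simp only [mul_zero, add_zero, norm_mul, norm_pow, hlnorm, h1]
    rw [← mul_pow, inv_mul_cancel₀ (hρz n).ne', one_pow]
  set 𝒰 : Ultrafilter ℕ := hyperfilter ℕ with h𝒰
  have h𝒰top : (𝒰 : Filter ℕ) ≤ atTop := by
    rw [← Nat.cofinite_eq_atTop]
    exact hyperfilter_le_cofinite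
  obtain ⟨J, hJ⟩ : ∃ J, ∀ᶠ n in (𝒰 : Filter ℕ), ‖g n J 0‖ = 1 := by
    rw [← Ultrafilter.eventually_exists_iff]
    exact Eventually.of_forall hg1
  -- the entire functions are almost constant on the unit disc
  have hgd : ∀ n j, Differentiable ℂ (g n j) := by
    intro n j ζ
    have h1 : DifferentiableAt ℂ (fun ζ : ℂ => z n + l n * ζ) ζ := by fun_prop
    exact (((hG j (z n + l n * ζ)).differentiableAt).comp ζ h1).const_mul _
  have hR : Tendsto (fun n : ℕ => ((n : ℝ) + 1) * ρ c / 2) atTop atTop := by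
    apply Tendsto.atTop_div_const (by norm_num)
    apply Tendsto.atTop_mul_const hρc0
    exact tendsto_atTop_add_const_right _ _ tendsto_natCast_atTop_atTop
  have hschwarz : ∀ n : ℕ, 1 < ((n : ℝ) + 1) * ρ c / 2 → ∀ j, ∀ ζ ∈ ball (0 : ℂ) 1,
      ‖g n j ζ - g n j 0‖ ≤ 2 * 2 ^ p / (((n : ℝ) + 1) * ρ c / 2) := by
    intro n hn j ζ hζ
    set R := ((n : ℝ) + 1) * ρ c / 2 with hRdef
    have hmaps : MapsTo (g n j) (ball 0 R) (closedBall (g n j 0) (2 * 2 ^ p)) := by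
      intro y hy
      rw [mem_closedBall, dist_eq_norm]
      have h1 := hgb n y (mem_ball_zero_iff.1 hy).le j
      have h2 := hgb n 0 (by rw [norm_zero]; linarith) j
      exact (norm_sub_le _ _).trans (by linarith)
    have hζ1 : ‖ζ‖ < 1 := mem_ball_zero_iff.1 hζ
    have h3 := Complex.dist_le_div_mul_dist_of_mapsTo_ball (hgd n j).differentiableOn hmaps
      (mem_ball_zero_iff.2 (hζ1.trans hn))
    rw [dist_eq_norm, dist_zero_right] at h3
    refine h3.trans ?_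
    have h4 : 0 ≤ 2 * 2 ^ p / R := by
      have : (0 : ℝ) < R := by linarith
      positivity
    calc 2 * 2 ^ p / R * ‖ζ‖ ≤ 2 * 2 ^ p / R * 1 := mul_le_mul_of_nonneg_left hζ1.le h4
      _ = 2 * 2 ^ p / R := mul_one _
  have hsmall : Tendsto (fun n : ℕ => 2 * 2 ^ p / (((n : ℝ) + 1) * ρ c / 2)) atTop (𝓝 0) :=
    Tendsto.div_atTop tendsto_const_nhds hR
  have hgood : ∀ᶠ n in (𝒰 : Filter ℕ), ‖g n J 0‖ = 1 ∧ 1 < ((n : ℝ) + 1) * ρ c / 2 ∧
      2 * 2 ^ p / (((n : ℝ) + 1) * ρ c / 2) < 1 / 2 := by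
    have h1 : ∀ᶠ n : ℕ in atTop, 1 < ((n : ℝ) + 1) * ρ c / 2 := by
      exact hR.eventually_gt_atTop 1
    have h2 : ∀ᶠ n : ℕ in atTop, 2 * 2 ^ p / (((n : ℝ) + 1) * ρ c / 2) < 1 / 2 :=
      hsmall.eventually_lt_const (by norm_num)
    exact hJ.and ((h1.filter_mono h𝒰top).and (h2.filter_mono h𝒰top))
  obtain ⟨H, hH⟩ := exists_quotients hkm hrk w hw hne hsum G hG hGE hloc J
  set good : ℕ → Prop := fun n => ‖g n J 0‖ = 1 ∧ 1 < ((n : ℝ) + 1) * ρ c / 2 ∧
      2 * 2 ^ p / (((n : ℝ) + 1) * ρ c / 2) < 1 / 2 with hgooddef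
  have hgJ : ∀ n, good n → ∀ ζ ∈ ball (0 : ℂ) 1, 1 / 2 ≤ ‖g n J ζ‖ := by
    intro n hn ζ hζ
    have h1 := (hschwarz n hn.2.1 J ζ hζ).trans hn.2.2.le
    have h2 : ‖g n J 0‖ ≤ ‖g n J ζ‖ + ‖g n J ζ - g n J 0‖ := by
      have := norm_sub_le (g n J ζ) (g n J ζ - g n J 0)
      simpa using this
    rw [hn.1] at h2
    linarith
  have hGJ : ∀ n, good n → ∀ ζ ∈ ball (0 : ℂ) 1, G J (z n + l n * ζ) ≠ 0 := by
    intro n hn ζ hζ h0
    have h1 := hgJ n hn ζ hζ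
    have h2 : g n J ζ = 0 := by
      rw [hg]
      simp only [h0, mul_zero]
    rw [h2, norm_zero] at h1
    norm_num at h1
  set F : ℕ → Fin (r + 2) → ℂ → ℂ := fun n i ζ => if good n then H i (z n + l n * ζ) else 0
    with hF
  have hFgood : ∀ n, good n → F n = fun i ζ => H i (z n + l n * ζ) := by
    intro n hn
    funext i ζ
    simp only [hF, if_pos hn]
  have hFbad : ∀ n, ¬ good n → F n = fun _ _ => 0 := by
    intro n hn
    funext i ζ
    simp only [hF, if_neg hn]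
  have hFd : ∀ n i, DifferentiableOn ℂ (F n i) (ball 0 1) := by
    intro n i
    by_cases hn : good n
    · rw [hFgood n hn]
      intro ζ hζ
      have h1 : DifferentiableAt ℂ (fun ζ : ℂ => z n + l n * ζ) ζ := by fun_prop
      exact ((((hH _ (hGJ n hn ζ hζ)).1 i).differentiableAt).comp ζ h1).differentiableWithinAt
    · rw [hFbad n hn]
      exact differentiableOn_const _
  have hFpow : ∀ n, good n → ∀ i, ∀ ζ ∈ ball (0 : ℂ) 1, F n i ζ ^ m * g n J ζ = g n i ζ := by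
    intro n hn i ζ hζ
    rw [hFgood n hn, hg]
    simp only
    rw [(hH _ (hGJ n hn ζ hζ)).2.2 i]
    ring
  have hFb : ∀ n i, ∀ ζ ∈ ball (0 : ℂ) 1, ‖F n i ζ‖ ≤ 2 ^ p * 2 := by
    intro n i ζ hζ
    have h2p : (1 : ℝ) ≤ 2 ^ p := one_le_pow₀ (by norm_num)
    by_cases hn : good n
    · by_cases h1 : ‖F n i ζ‖ ≤ 1
      · linarith
      · push Not at h1
        have h2 : ‖F n i ζ‖ ≤ ‖F n i ζ‖ ^ m := le_self_pow₀ h1.le (by omega)
        have h3 := congrArg norm (hFpow n hn i ζ hζ)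
        rw [norm_mul, norm_pow] at h3
        have h4 : ‖g n i ζ‖ ≤ 2 ^ p := hgb n ζ (by
          have := mem_ball_zero_iff.1 hζ
          linarith [hn.2.1]) i
        have h5 := hgJ n hn ζ hζ
        have h6 : ‖F n i ζ‖ ^ m * (1 / 2) ≤ 2 ^ p := by
          calc ‖F n i ζ‖ ^ m * (1 / 2) ≤ ‖F n i ζ‖ ^ m * ‖g n J ζ‖ :=
                mul_le_mul_of_nonneg_left h5 (by positivity)
            _ ≤ 2 ^ p := by rw [h3]; exact h4
        linarith
    · rw [hFbad n hn]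
      simp only [norm_zero]
      positivity
  have hlim : ∀ i, ∃ f : ℂ → ℂ, TendstoLocallyUniformlyOn (fun n => F n i) f 𝒰 (ball 0 1) :=
    fun i => montel_bdd isOpen_ball (fun n => hFd n i) (fun n ζ hζ => hFb n i ζ hζ) 𝒰
  choose f hf using hlim
  have he : ∀ j, ∃ e, Tendsto (fun n => g n j 0) 𝒰 (𝓝 e) := fun j =>
    exists_tendsto_of_bdd 𝒰 (C := 2 ^ p) fun n => hgb n 0 (by
      rw [norm_zero]
      positivity) j
  choose e he using he
  have heJ : ‖e J‖ = 1 := by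
    have h1 := (he J).norm
    have h2 : Tendsto (fun n => ‖g n J 0‖) 𝒰 (𝓝 1) :=
      tendsto_const_nhds.congr' (by
        filter_upwards [hJ] with n hn
        exact hn.symm)
    exact tendsto_nhds_unique h1 h2
  have heJ0 : e J ≠ 0 := by
    rw [← norm_pos_iff, heJ]
    exact one_pos
  have hgζ : ∀ j, ∀ ζ ∈ ball (0 : ℂ) 1, Tendsto (fun n => g n j ζ) 𝒰 (𝓝 (e j)) := by
    intro j ζ hζ
    have h1 : Tendsto (fun n => g n j ζ - g n j 0) 𝒰 (𝓝 0) := by
      apply squeeze_zero_norm' _ (hsmall.mono_left h𝒰top)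
      filter_upwards [hgood] with n hn
      exact hschwarz n hn.2.1 j ζ hζ
    have h2 := h1.add (he j)
    simpa using h2
  have hfpow : ∀ i, ∀ ζ ∈ ball (0 : ℂ) 1, f i ζ ^ m = e i / e J := by
    intro i ζ hζ
    have h1 : Tendsto (fun n => F n i ζ ^ m * g n J ζ) 𝒰 (𝓝 (f i ζ ^ m * e J)) :=
      (((hf i).tendsto_at hζ).pow m).mul (hgζ J ζ hζ)
    have h2 : Tendsto (fun n => F n i ζ ^ m * g n J ζ) 𝒰 (𝓝 (e i)) := by
      refine (hgζ i ζ hζ).congr' ?_
      filter_upwards [hgood] with n hn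
      exact (hFpow n hn i ζ hζ).symm
    rw [eq_div_iff heJ0]
    exact tendsto_nhds_unique h1 h2
  have hfd : ∀ i, DifferentiableOn ℂ (f i) (ball 0 1) := fun i =>
    (hf i).differentiableOn (Eventually.of_forall fun n => hFd n i) isOpen_ball
  have h0mem : (0 : ℂ) ∈ ball (0 : ℂ) 1 := mem_ball_self one_pos
  have hderiv : ∀ i, deriv (f i) 0 = 0 := by
    intro i
    have hnhds : ball (0 : ℂ) 1 ∈ 𝓝 (0 : ℂ) := isOpen_ball.mem_nhds h0mem
    by_cases h0 : f i 0 = 0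
    · have h1 : f i =ᶠ[𝓝 0] fun _ => 0 := by
        filter_upwards [hnhds] with ζ hζ
        have h2 := hfpow i ζ hζ
        rw [← hfpow i 0 h0mem, h0, zero_pow (by omega)] at h2
        exact pow_eq_zero_iff (by omega) |>.1 h2
      rw [h1.deriv_eq, deriv_const]
    · have h1 : HasDerivAt (f i) (deriv (f i) 0) 0 :=
        ((hfd i).differentiableAt hnhds).hasDerivAt
      have h2 := h1.fun_pow m
      have h3 : (fun ζ => f i ζ ^ m) =ᶠ[𝓝 0] fun _ => e i / e J := by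
        filter_upwards [hnhds] with ζ hζ
        exact hfpow i ζ hζ
      have h4 := h2.deriv
      rw [h3.deriv_eq, deriv_const] at h4
      have h5 : (m : ℂ) * f i 0 ^ (m - 1) ≠ 0 :=
        mul_ne_zero (by exact_mod_cast (by omega : m ≠ 0)) (pow_ne_zero _ h0)
      exact (mul_eq_zero.1 h4.symm).resolve_left h5
  have hdd : Tendsto (fun n => dd r k J (F n) 0) 𝒰 (𝓝 (dd r k J f 0)) :=
    dd_tendsto isOpen_ball hFd hf h0mem
  rw [dd_const hr hderiv] at hdd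
  have h1 : Tendsto (fun n => ‖dd r k J (F n) 0‖) 𝒰 (𝓝 1) := by
    refine tendsto_const_nhds.congr' ?_
    filter_upwards [hgood] with n hn
    have h2 : dd r k J (F n) 0 = g n J 0 := by
      rw [hFgood n hn, dd_affine (z n) (l n) 0 (fun i => (hH _ (hGJ n hn 0 h0mem)).1 i), hg]
      simp only
      rw [(hH _ (hGJ n hn 0 h0mem)).2.1]
    rw [h2, hn.1]
  have h2 := tendsto_nhds_unique hdd.norm h1
  rw [norm_zero] at h2
  exact zero_ne_one h2

end Pool.Agent.Work.MP_f82ddf_nt
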