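import Pool.Agent.Work.MP_f82ddf_nt.Core

/-!
# The spherical derivative of a holomorphic curve in projective space
-/

open Topology Filter Metric Set
open scoped LinearAlgebra.Projectivization ComplexConjugate

namespace Pool.Agent.Work.MP_f82ddf_nt

variable {n : ℕ}

/-- `g` is a holomorphic lift of `f` near `z₀`. -/
def IsLift (f : ℂ → PSpace ℂ n) (g : ℂ → Fin (n + 1) → ℂ) (z₀ : ℂ) : Prop :=
  AnalyticAt ℂ g z₀ ∧ ∀ᶠ z in 𝓝 z₀, ∃ h : g z ≠ 0, f z = Projectivization.mk ℂ (g z) h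

theorem IsLift.ne {f : ℂ → PSpace ℂ n} {g : ℂ → Fin (n + 1) → ℂ} {z₀ : ℂ} (h : IsLift f g z₀) :
    g z₀ ≠ 0 := h.2.self_of_nhds.1

theorem IsLift.eq {f : ℂ → PSpace ℂ n} {g : ℂ → Fin (n + 1) → ℂ} {z₀ : ℂ} (h : IsLift f g z₀) :
    f z₀ = Projectivization.mk ℂ (g z₀) h.ne := h.2.self_of_nhds.2

theorem IsLift.eventually {f : ℂ → PSpace ℂ n} {g : ℂ → Fin (n + 1) → ℂ} {z₀ : ℂ}
    (h : IsLift f g z₀) : ∀ᶠ z in 𝓝 z₀, IsLift f g z := by
  filter_upwards [h.1.eventually_analyticAt, eventually_eventually_nhds.2 h.2] with z a b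
  exact ⟨a, b⟩

theorem IsLift.comp {f : ℂ → PSpace ℂ n} {g : ℂ → Fin (n + 1) → ℂ} {z₀ : ℂ} {φ : ℂ → ℂ}
    (hφ : AnalyticAt ℂ φ z₀) (h : IsLift f g (φ z₀)) :
    IsLift (fun z => f (φ z)) (fun z => g (φ z)) z₀ :=
  ⟨AnalyticAt.fun_comp (f := φ) h.1 hφ, hφ.continuousAt.eventually h.2⟩

theorem IsLift.congr {f f' : ℂ → PSpace ℂ n} {g : ℂ → Fin (n + 1) → ℂ} {z₀ : ℂ}
    (h : IsLift f g z₀) (hf : f =ᶠ[𝓝 z₀] f') : IsLift f' g z₀ := by
  refine ⟨h.1, ?_⟩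
  filter_upwards [h.2, hf] with z a b
  rwa [← b]

/-- The spherical derivative in terms of a lift. -/
noncomputable def sd (g : ℂ → Fin (n + 1) → ℂ) (z : ℂ) : ℝ :=
  ‖fun ij : Fin (n + 1) × Fin (n + 1) => g z ij.1 * deriv g z ij.2 - g z ij.2 * deriv g z ij.1‖ /
    ‖g z‖ ^ 2

theorem sd_nonneg (g : ℂ → Fin (n + 1) → ℂ) (z : ℂ) : 0 ≤ sd g z := by
  unfold sd
  positivity

theorem sd_congr {g g' : ℂ → Fin (n + 1) → ℂ} {z : ℂ} (h : g =ᶠ[𝓝 z] g') : sd g z = sd g' z := by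
  unfold sd
  rw [h.deriv_eq, h.eq_of_nhds]

theorem sd_smul {g : ℂ → Fin (n + 1) → ℂ} {l : ℂ → ℂ} {z : ℂ} (hg : AnalyticAt ℂ g z)
    (hl : AnalyticAt ℂ l z) (hl0 : l z ≠ 0) : sd (fun y => l y • g y) z = sd g z := by
  have hd : deriv (fun y => l y • g y) z = l z • deriv g z + deriv l z • g z :=
    (hl.differentiableAt.hasDerivAt.fun_smul hg.differentiableAt.hasDerivAt).deriv
  unfold sd
  rw [hd]
  have h1 : (fun ij : Fin (n + 1) × Fin (n + 1) =>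
      (l z • g z) ij.1 * (l z • deriv g z + deriv l z • g z) ij.2 -
      (l z • g z) ij.2 * (l z • deriv g z + deriv l z • g z) ij.1) =
      (l z ^ 2) • fun ij : Fin (n + 1) × Fin (n + 1) =>
        g z ij.1 * deriv g z ij.2 - g z ij.2 * deriv g z ij.1 := by
    funext ij
    simp only [Pi.smul_apply, Pi.add_apply, smul_eq_mul]
    ring
  rw [h1, norm_smul, norm_smul, norm_pow, mul_pow,
    mul_div_mul_left _ _ (pow_ne_zero 2 (norm_ne_zero_iff.2 hl0))]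

theorem sd_comp {g : ℂ → Fin (n + 1) → ℂ} {φ : ℂ → ℂ} {z : ℂ} (hφ : DifferentiableAt ℂ φ z)
    (hg : DifferentiableAt ℂ g (φ z)) :
    sd (fun y => g (φ y)) z = ‖deriv φ z‖ * sd g (φ z) := by
  have hd : deriv (fun y => g (φ y)) z = deriv φ z • deriv g (φ z) :=
    (hg.hasDerivAt.scomp z hφ.hasDerivAt).deriv
  unfold sd
  rw [hd]
  have h1 : (fun ij : Fin (n + 1) × Fin (n + 1) =>
      g (φ z) ij.1 * (deriv φ z • deriv g (φ z)) ij.2 -
      g (φ z) ij.2 * (deriv φ z • deriv g (φ z)) ij.1) =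
      (deriv φ z) • fun ij : Fin (n + 1) × Fin (n + 1) =>
        g (φ z) ij.1 * deriv g (φ z) ij.2 - g (φ z) ij.2 * deriv g (φ z) ij.1 := by
    funext ij
    simp only [Pi.smul_apply, smul_eq_mul]
    ring
  rw [h1, norm_smul, mul_div_assoc]

theorem sd_continuousAt {g : ℂ → Fin (n + 1) → ℂ} {z : ℂ} (hg : AnalyticAt ℂ g z)
    (hz : g z ≠ 0) : ContinuousAt (sd g) z := by
  have h1 : ContinuousAt g z := hg.continuousAt
  have h2 : ContinuousAt (deriv g) z := hg.deriv.continuousAt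
  unfold sd
  apply ContinuousAt.div
  · apply ContinuousAt.norm
    rw [continuousAt_pi]
    rintro ⟨i, j⟩
    rw [continuousAt_pi] at h1 h2
    exact ((h1 i).mul (h2 j)).sub ((h1 j).mul (h2 i))
  · exact (h1.norm).pow 2
  · exact pow_ne_zero 2 (norm_ne_zero_iff.2 hz)

theorem lift_unique {f : ℂ → PSpace ℂ n} {g g' : ℂ → Fin (n + 1) → ℂ} {z₀ : ℂ}
    (hg : IsLift f g z₀) (hg' : IsLift f g' z₀) :
    ∃ l : ℂ → ℂ, AnalyticAt ℂ l z₀ ∧ l z₀ ≠ 0 ∧ g' =ᶠ[𝓝 z₀] fun z => l z • g z := by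
  obtain ⟨i, hi⟩ : ∃ i, g z₀ i ≠ 0 := by
    by_contra hcon
    push Not at hcon
    exact hg.ne (funext hcon)
  have hgi : AnalyticAt ℂ (fun z => g z i) z₀ := (analyticAt_pi_iff.1 hg.1) i
  have hgi' : AnalyticAt ℂ (fun z => g' z i) z₀ := (analyticAt_pi_iff.1 hg'.1) i
  have hev : g' =ᶠ[𝓝 z₀] fun z => (g' z i / g z i) • g z := by
    filter_upwards [hg.2, hg'.2, hgi.continuousAt.eventually_ne hi] with z a b c
    obtain ⟨h1, h2⟩ := a
    obtain ⟨h3, h4⟩ := b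
    rw [h4, Projectivization.mk_eq_mk_iff'] at h2
    obtain ⟨s, hs⟩ := h2
    have h5 : g' z i = s * g z i := by
      rw [← hs]
      rfl
    rw [h5, mul_div_assoc, div_self c, mul_one, hs]
  refine ⟨fun z => g' z i / g z i, hgi'.div hgi hi, ?_, hev⟩
  intro h0
  have := hev.self_of_nhds
  simp only at this h0
  rw [h0, zero_smul] at this
  exact hg'.ne this

open Classical in
/-- The spherical derivative of a holomorphic curve in projective space. -/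
noncomputable def sp (f : ℂ → PSpace ℂ n) (z : ℂ) : ℝ :=
  if h : ∃ g, IsLift f g z then sd h.choose z else 0

theorem sp_eq {f : ℂ → PSpace ℂ n} {g : ℂ → Fin (n + 1) → ℂ} {z : ℂ} (hg : IsLift f g z) :
    sp f z = sd g z := by
  have h : ∃ g, IsLift f g z := ⟨g, hg⟩
  unfold sp
  rw [dif_pos h]
  obtain ⟨l, hl, hl0, hev⟩ := lift_unique h.choose_spec hg
  rw [sd_congr hev, sd_smul h.choose_spec.1 hl hl0]

theorem sp_nonneg (f : ℂ → PSpace ℂ n) (z : ℂ) : 0 ≤ sp f z := by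
  unfold sp
  split_ifs
  · exact sd_nonneg _ _
  · exact le_rfl

theorem sp_eventuallyEq {f : ℂ → PSpace ℂ n} {g : ℂ → Fin (n + 1) → ℂ} {z : ℂ}
    (hg : IsLift f g z) : sp f =ᶠ[𝓝 z] sd g := by
  filter_upwards [hg.eventually] with y hy
  exact sp_eq hy

theorem sp_continuousAt {f : ℂ → PSpace ℂ n} {z : ℂ} (hf : ∃ g, IsLift f g z) :
    ContinuousAt (sp f) z := by
  obtain ⟨g, hg⟩ := hf
  exact (sd_continuousAt hg.1 hg.ne).congr (sp_eventuallyEq hg).symm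

theorem sp_comp {f : ℂ → PSpace ℂ n} {φ : ℂ → ℂ} {z : ℂ} (hφ : AnalyticAt ℂ φ z)
    (hf : ∃ g, IsLift f g (φ z)) : sp (fun y => f (φ y)) z = ‖deriv φ z‖ * sp f (φ z) := by
  obtain ⟨g, hg⟩ := hf
  rw [sp_eq (hg.comp hφ), sp_eq hg, sd_comp hφ.differentiableAt hg.1.differentiableAt]

end Pool.Agent.Work.MP_f82ddf_nt
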