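import Pool.Agent.Work.MP_f82ddf_nt.Brody.Relation
import Pool.Agent.Work.MP_f82ddf_nt.Brody.Spd
import Pool.Agent.Work.MP_f82ddf_nt.Weights

/-!
# The coordinates of an entire curve in projective space
-/

open Topology Filter Metric Set MvPolynomial
open scoped LinearAlgebra.Projectivization

namespace Pool.Agent.Work.MP_f82ddf_nt

variable {n : ℕ}

/-- The affine coordinates of a curve. -/
noncomputable def crd (f : ℂ → PSpace ℂ n) (i₀ i : Fin (n + 1)) (z : ℂ) : ℂ :=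
  (f z).rep i / (f z).rep i₀

theorem crd_lift {f : ℂ → PSpace ℂ n} {g : ℂ → Fin (n + 1) → ℂ} {z₀ : ℂ} (hg : IsLift f g z₀)
    (i₀ i : Fin (n + 1)) : ∀ᶠ z in 𝓝 z₀, crd f i₀ i z = g z i / g z i₀ := by
  filter_upwards [hg.2] with z hz
  obtain ⟨h1, h2⟩ := hz
  obtain ⟨c, hc⟩ := Projectivization.exists_smul_eq_mk_rep ℂ (g z) h1
  unfold crd
  rw [h2, ← hc]
  show (c : ℂ) * g z i / ((c : ℂ) * g z i₀) = g z i / g z i₀
  exact mul_div_mul_left _ _ c.ne_zero

theorem crd_mero {f : ℂ → PSpace ℂ n} (hf : HolomorphicOn f univ) (i₀ i : Fin (n + 1)) (z : ℂ) :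
    MeromorphicAt (crd f i₀ i) z := by
  obtain ⟨g, hg⟩ := hf z (mem_univ z)
  have hg' : IsLift f g z := hg
  have h1 : MeromorphicAt (fun z => g z i / g z i₀) z :=
    ((analyticAt_pi_iff.1 hg'.1) i).meromorphicAt.div
      ((analyticAt_pi_iff.1 hg'.1) i₀).meromorphicAt
  refine h1.congr ?_
  exact nhdsWithin_le_nhds ((crd_lift hg' i₀ i).mono fun z hz => hz.symm)

/-- An analytic function which vanishes near a point vanishes at the point. -/
theorem eq_of_punctured {u v : ℂ → ℂ} {z : ℂ} (hu : AnalyticAt ℂ u z) (hv : AnalyticAt ℂ v z)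
    (h : ∀ᶠ y in 𝓝[≠] z, u y = v y) : ∀ᶠ y in 𝓝 z, u y = v y :=
  (hu.frequently_eq_iff_eventually_eq hv).1 h.frequently

theorem exists_weights {K : Type*} [Field K] {S : Set (MvPolynomial (Fin (n + 1)) K)}
    (hS : ∀ F ∈ S, ∃ d, F.IsHomogeneous d) (σ : K →+* ℂ) {N k : ℕ}
    (hN : ∀ G ∈ S, G.support.card ≤ N) (hk : N * (N - 2) < k) (f : ℂ → PSpace ℂ n)
    (hf : HolomorphicOn f univ) (hfX : ∀ z, ∀ G ∈ S, eval₂ σ (fun i => (f z).rep i ^ k) G = 0)
    (hne : ∃ a b, f a ≠ f b) :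
    ∃ (w : Fin (n + 1) → ℤ) (P : Fin (n + 1) → ℂ) (i j : Fin (n + 1)), P i ≠ 0 ∧ P j ≠ 0 ∧
      w i ≠ w j ∧ ∀ G ∈ S, ∀ ω, ∑ m ∈ G.support with weightOf w m = ω,
        σ (coeff m G) * ∏ i, P i ^ m i = 0 := by
  classical
  have hk0 : 0 < k := by omega
  -- the coordinate `i₀`
  obtain ⟨i₀, hi₀⟩ : ∃ i, (f 0).rep i ≠ 0 := by
    by_contra hcon
    push Not at hcon
    exact (f 0).rep_nonzero (funext hcon)
  set φ : Fin (n + 1) → ℂ → ℂ := crd f i₀ with hφ
  have hφm : ∀ i z, MeromorphicAt (φ i) z := fun i z => crd_mero hf i₀ i z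
  have hφ0ne : ∀ z₀, ∀ᶠ z in 𝓝[≠] z₀, φ i₀ z ≠ 0 := by
    apply mero_ne (hφm i₀) (z₁ := 0)
    apply Eventually.frequently
    obtain ⟨g, hg⟩ := hf 0 (mem_univ 0)
    have hg' : IsLift f g 0 := hg
    have h1 := crd_lift hg' i₀ i₀
    have h2 : g 0 i₀ ≠ 0 := by
      intro h0
      have h3 := h1.self_of_nhds
      rw [h0, div_zero] at h3
      unfold crd at h3
      rw [div_self hi₀] at h3
      exact one_ne_zero h3
    have h3 : ContinuousAt (fun z => g z i₀) 0 := ((analyticAt_pi_iff.1 hg'.1) i₀).continuousAt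
    apply nhdsWithin_le_nhds
    filter_upwards [h1, h3.eventually_ne h2] with z h4 h5
    rw [hφ, h4, div_self h5]
    exact one_ne_zero
  have hrep : ∀ z, φ i₀ z ≠ 0 → (f z).rep i₀ ≠ 0 := by
    intro z hz h0
    apply hz
    rw [hφ]
    unfold crd
    rw [h0, div_zero]
  have hφ1 : ∀ z₀, ∀ᶠ z in 𝓝[≠] z₀, φ i₀ z = 1 := by
    intro z₀
    filter_upwards [hφ0ne z₀] with z hz
    rw [hφ]
    exact div_self (hrep z hz)
  -- the support
  set T : Finset (Fin (n + 1)) := Finset.univ.filter fun i => ∀ᶠ z in 𝓝[≠] (0 : ℂ), φ i z ≠ 0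
    with hT
  have hmemT : ∀ i, i ∈ T → ∀ z₀, ∀ᶠ z in 𝓝[≠] z₀, φ i z ≠ 0 := by
    intro i hi
    exact mero_ne (hφm i) ((Finset.mem_filter.1 hi).2).frequently
  have hnotT : ∀ i, i ∉ T → ∀ z₀, ∀ᶠ z in 𝓝[≠] z₀, φ i z = 0 := by
    intro i hi
    rcases (hφm i 0).eventually_eq_zero_or_eventually_ne_zero with h1 | h1
    · exact mero_zero (hφm i) h1
    · exact absurd (Finset.mem_filter.2 ⟨Finset.mem_univ i, h1⟩) hi
  have hi₀T : i₀ ∈ T := Finset.mem_filter.2 ⟨Finset.mem_univ _, hφ0ne 0⟩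
  -- some coordinate is not constant
  obtain ⟨i₁, hi₁⟩ : ∃ i, ¬ ∃ c : ℂ, ∀ z₀, ∀ᶠ z in 𝓝[≠] z₀, φ i z = c := by
    by_contra hcon
    push Not at hcon
    choose c hc using hcon
    have h1 : ∀ z₀, ∃ a : ℂ, (f z₀).rep = a • c := by
      intro z₀
      obtain ⟨g, hg⟩ := hf z₀ (mem_univ z₀)
      have hg' : IsLift f g z₀ := hg
      have h2 : ∀ i, g z₀ i = c i * g z₀ i₀ := by
        intro i
        have h3 : ∀ᶠ z in 𝓝[≠] z₀, g z i = c i * g z i₀ := by
          filter_upwards [hc i z₀, hφ0ne z₀, nhdsWithin_le_nhds (crd_lift hg' i₀ i),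
            nhdsWithin_le_nhds (crd_lift hg' i₀ i₀)] with z a1 a2 a3 a4
          rw [hφ] at a1 a2
          rw [a3] at a1
          rw [a4] at a2
          have a5 : g z i₀ ≠ 0 := by
            intro h0
            rw [h0, div_zero] at a2
            exact a2 rfl
          rw [← a1]
          field_simp
        exact (eq_of_punctured ((analyticAt_pi_iff.1 hg'.1) i)
          (analyticAt_const.mul ((analyticAt_pi_iff.1 hg'.1) i₀)) h3).self_of_nhds
      obtain ⟨a, ha⟩ := Projectivization.exists_smul_eq_mk_rep ℂ (g z₀) hg'.ne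
      refine ⟨a * g z₀ i₀, ?_⟩
      rw [hg'.eq, ← ha]
      funext i
      show (a : ℂ) * g z₀ i = a * g z₀ i₀ * c i
      rw [h2 i]
      ring
    obtain ⟨a, b, hab⟩ := hne
    apply hab
    obtain ⟨s, hs⟩ := h1 a
    obtain ⟨t, ht⟩ := h1 b
    have ht0 : t ≠ 0 := by
      intro h0
      rw [h0, zero_smul] at ht
      exact (f b).rep_nonzero ht
    rw [← (f a).mk_rep, ← (f b).mk_rep, Projectivization.mk_eq_mk_iff']
    refine ⟨s / t, ?_⟩
    rw [hs, ht, smul_smul, div_mul_cancel₀ _ ht0]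
  have hi₁T : i₁ ∈ T := by
    by_contra h0
    exact hi₁ ⟨0, hnotT i₁ h0⟩
  -- the derivative of the coordinate is not identically zero
  have hder : ∃ᶠ z in 𝓝[≠] (0 : ℂ), deriv (φ i₁) z ≠ 0 := by
    by_contra hcon
    rw [not_frequently] at hcon
    push Not at hcon
    obtain ⟨z₁, h1⟩ := ((ev_ev hcon).and (ev_ev (hφm i₁ 0).eventually_analyticAt)).exists
    have h2 := h1.1.and h1.2
    obtain ⟨ε, hε, hball⟩ := Metric.eventually_nhds_iff_ball.1 h2
    have h3 : ∀ z ∈ ball z₁ ε, φ i₁ z = φ i₁ z₁ := by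
      intro z hz
      refine isOpen_ball.is_const_of_deriv_eq_zero (convex_ball z₁ ε).isPreconnected
        (fun y hy => (hball y hy).2.differentiableAt.differentiableWithinAt)
        (fun y hy => (hball y hy).1) hz (mem_ball_self hε)
    apply hi₁
    refine ⟨φ i₁ z₁, fun z₀ => ?_⟩
    have h6 := mero_zero (g := fun z => φ i₁ z - φ i₁ z₁)
      (fun z => (hφm i₁ z).sub (MeromorphicAt.const _ z)) (z₁ := z₁) (by
        apply nhdsWithin_le_nhds
        filter_upwards [isOpen_ball.mem_nhds (mem_ball_self hε)] with z hz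
        rw [h3 z hz, sub_self]) z₀
    filter_upwards [h6] with z hz
    exact sub_eq_zero.1 hz
  -- the point `z₁`
  have hgood : ∀ᶠ z in 𝓝[≠] (0 : ℂ), (∀ i, AnalyticAt ℂ (φ i) z) ∧ (∀ i ∈ T, φ i z ≠ 0) ∧
      (∀ᶠ y in 𝓝 z, φ i₀ y = 1) := by
    have h1 : ∀ᶠ z in 𝓝[≠] (0 : ℂ), ∀ i, AnalyticAt ℂ (φ i) z :=
      eventually_all.2 fun i => (hφm i 0).eventually_analyticAt
    have h2 : ∀ᶠ z in 𝓝[≠] (0 : ℂ), ∀ i ∈ T, φ i z ≠ 0 :=
      (Finset.eventually_all T).2 fun i hi => hmemT i hi 0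
    exact h1.and (h2.and (ev_ev (hφ1 0)))
  obtain ⟨z₁, hd₁, han₁, hne₁, hone₁⟩ := (hder.and_eventually hgood).exists
  -- the weights
  set θ : Fin (n + 1) → ℂ := fun i => logDeriv (φ i) z₁ with hθ
  have hθ1 : θ i₁ ≠ 0 := div_ne_zero hd₁ (hne₁ i₁ hi₁T)
  have hθ0 : θ i₀ = 0 := by
    rw [hθ]
    simp only
    have h1 : φ i₀ =ᶠ[𝓝 z₁] fun _ => 1 := hone₁
    rw [logDeriv_apply, h1.deriv_eq, deriv_const, zero_div]
  obtain ⟨ℓ, hℓ⟩ := Module.exists_dual_forall_apply_ne_zero (K := ℚ) (M := ℂ)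
    (fun _ : Unit => θ i₁) (fun _ => hθ1)
  have hℓ1 : ℓ (θ i₁) ≠ 0 := hℓ ()
  set D : ℕ := ∏ i, (ℓ (θ i)).den with hD
  have hD0 : D ≠ 0 := Finset.prod_ne_zero_iff.2 fun i _ => (ℓ (θ i)).den_nz
  have hint : ∀ i, ∃ a : ℤ, (a : ℚ) = D * ℓ (θ i) := by
    intro i
    obtain ⟨c, hc⟩ : (ℓ (θ i)).den ∣ D := Finset.dvd_prod_of_mem _ (Finset.mem_univ i)
    refine ⟨c * (ℓ (θ i)).num, ?_⟩
    rw [hc]
    push_cast
    have h1 : ((ℓ (θ i)).den : ℚ) * ℓ (θ i) = (ℓ (θ i)).num := by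
      rw [mul_comm]
      exact Rat.mul_den_eq_num _
    linear_combination -(c : ℚ) * h1
  choose w hw using hint
  refine ⟨w, fun i => if i ∈ T then φ i z₁ ^ k else 0, i₀, i₁, ?_, ?_, ?_, ?_⟩
  · simp only [if_pos hi₀T]
    exact pow_ne_zero _ (hne₁ i₀ hi₀T)
  · simp only [if_pos hi₁T]
    exact pow_ne_zero _ (hne₁ i₁ hi₁T)
  · intro h0
    have h1 := hw i₀
    have h2 := hw i₁
    rw [hθ0, map_zero, mul_zero] at h1
    rw [← h0, h1] at h2
    rcases mul_eq_zero.1 h2.symm with h3 | h3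
    · exact hD0 (by exact_mod_cast h3)
    · exact hℓ1 h3
  · intro G hG ω
    obtain ⟨d, hd⟩ := hS G hG
    -- monomials supported in `T`
    set M₀ : Finset (Fin (n + 1) →₀ ℕ) := G.support.filter fun m => ∀ i, i ∉ T → m i = 0 with hM₀
    have hι : ∀ m : M₀, (m : Fin (n + 1) →₀ ℕ) ∈ G.support ∧ ∀ i, i ∉ T → m.1 i = 0 := fun m =>
      Finset.mem_filter.1 m.2
    have hcard : Fintype.card M₀ ≤ N := by
      rw [Fintype.card_coe]
      exact (Finset.card_filter_le _ _).trans (hN G hG)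
    let u : M₀ → ℂ → ℂ := fun m z => ∏ i ∈ T, φ i z ^ (m.1 i)
    have hum : ∀ m z, MeromorphicAt (u m) z := by
      intro m z
      apply MeromorphicAt.fun_prod
      intro i _
      exact (hφm i z).pow _
    have hune : ∀ m z₀, ∀ᶠ z in 𝓝[≠] z₀, u m z ≠ 0 := by
      intro m z₀
      have h2 : ∀ᶠ z in 𝓝[≠] z₀, ∀ i ∈ T, φ i z ≠ 0 :=
        (Finset.eventually_all T).2 fun i hi => hmemT i hi z₀
      filter_upwards [h2] with z hz
      exact Finset.prod_ne_zero_iff.2 fun i hi => pow_ne_zero _ (hz i hi)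
    have hua : ∀ m, AnalyticAt ℂ (u m) z₁ := by
      intro m
      apply Finset.analyticAt_fun_prod
      intro i _
      exact (han₁ i).pow _
    have hulog : ∀ m, logDeriv (u m) z₁ = ∑ i ∈ T, (m.1 i : ℂ) * θ i := by
      intro m
      have h1 := logDeriv_prod (s := T) (f := fun i z => φ i z ^ (m.1 i)) (x := z₁)
        (fun i hi => pow_ne_zero _ (hne₁ i hi))
        (fun i _ => ((han₁ i).differentiableAt.pow _))
      have h2 : logDeriv (u m) z₁ = ∑ i ∈ T, logDeriv (fun z => φ i z ^ (m.1 i)) z₁ := h1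
      rw [h2]
      refine Finset.sum_congr rfl fun i _ => ?_
      exact logDeriv_fun_pow (han₁ i).differentiableAt _
    have huval : ∀ m, u m z₁ ≠ 0 := fun m =>
      Finset.prod_ne_zero_iff.2 fun i hi => pow_ne_zero _ (hne₁ i hi)
    have hwt : ∀ m : M₀, ((weightOf w m.1 : ℤ) : ℚ) = D * ℓ (logDeriv (u m) z₁) := by
      intro m
      rw [hulog, map_sum, Finset.mul_sum]
      unfold weightOf
      push_cast
      have h1 : ∑ i, ((m.1 i : ℕ) : ℚ) * (w i : ℚ) = ∑ i ∈ T, ((m.1 i : ℕ) : ℚ) * (w i : ℚ) := by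
        symm
        apply Finset.sum_subset (Finset.subset_univ _)
        intro i _ hi
        rw [(hι m).2 i hi]
        simp
      rw [h1]
      refine Finset.sum_congr rfl fun i _ => ?_
      rw [hw i]
      have h2 : ((m.1 i : ℕ) : ℂ) * θ i = ((m.1 i : ℕ) : ℚ) • θ i := by
        rw [Rat.smul_def]
        push_cast
        rfl
      rw [h2, map_smul, smul_eq_mul]
      ring
    have hW : ∀ m m' : M₀, (∃ a : ℂ, ∀ z₀, ∀ᶠ z in 𝓝[≠] z₀, u m z = a * u m' z) →
        weightOf w m.1 = weightOf w m'.1 := by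
      rintro m m' ⟨a, ha⟩
      have h1 : ∀ᶠ y in 𝓝 z₁, u m y = a * u m' y :=
        eq_of_punctured (hua m) (analyticAt_const.mul (hua m')) (ha z₁)
      have ha0 : a ≠ 0 := by
        intro h0
        have h2 := h1.self_of_nhds
        rw [h0, zero_mul] at h2
        exact huval m h2
      have h2 : logDeriv (u m) z₁ = logDeriv (u m') z₁ := by
        rw [(logDeriv_congr_nhds h1).eq_of_nhds, logDeriv_const_mul _ _ ha0]
      have h3 : ((weightOf w m.1 : ℤ) : ℚ) = ((weightOf w m'.1 : ℤ) : ℚ) := by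
        rw [hwt, hwt, h2]
      exact_mod_cast h3
    -- the relation
    have hrel : ∀ z₀, ∀ᶠ z in 𝓝[≠] z₀, ∑ m : M₀, σ (coeff m.1 G) * u m z ^ k = 0 := by
      intro z₀
      have h2 : ∀ᶠ z in 𝓝[≠] z₀, ∀ i, i ∉ T → φ i z = 0 := by
        rw [eventually_all]
        intro i
        by_cases hi : i ∈ T
        · exact Eventually.of_forall fun z h => absurd hi h
        · filter_upwards [hnotT i hi z₀] with z hz _
          exact hz
      filter_upwards [hφ0ne z₀, h2] with z a1 a2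
      have hr0 := hrep z a1
      have h3 : (fun i => (f z).rep i ^ k) = ((f z).rep i₀ ^ k) • fun i => φ i z ^ k := by
        funext i
        show (f z).rep i ^ k = (f z).rep i₀ ^ k * (φ i z) ^ k
        rw [← mul_pow]
        congr 1
        rw [hφ]
        unfold crd
        field_simp
      have h4 := hfX z G hG
      rw [h3, eval₂_smul_hom hd] at h4
      have h5 := (mul_eq_zero.1 h4).resolve_left (pow_ne_zero _ (pow_ne_zero _ hr0))
      rw [eval₂_eq'] at h5
      rw [← h5]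
      rw [← Finset.sum_filter_add_sum_filter_not G.support (fun m => ∀ i, i ∉ T → m i = 0)]
      have h6 : ∑ m ∈ G.support with ¬ ∀ i, i ∉ T → m i = 0,
          σ (coeff m G) * ∏ i, (φ i z ^ k) ^ m i = 0 := by
        refine Finset.sum_eq_zero fun m hm => ?_
        obtain ⟨-, hm2⟩ := Finset.mem_filter.1 hm
        push Not at hm2
        obtain ⟨i, hi, hmi⟩ := hm2
        rw [Finset.prod_eq_zero (Finset.mem_univ i), mul_zero]
        rw [a2 i hi, zero_pow hk0.ne', zero_pow hmi]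
      rw [h6, add_zero]
      rw [← Finset.sum_coe_sort M₀ (fun m => σ (coeff m G) * ∏ i, (φ i z ^ k) ^ m i)]
      refine Finset.sum_congr rfl fun m _ => ?_
      congr 1
      have h7 : ∏ i, (φ i z ^ k) ^ (m.1 i) = ∏ i ∈ T, (φ i z ^ k) ^ (m.1 i) := by
        symm
        apply Finset.prod_subset (Finset.subset_univ _)
        intro i _ hi
        rw [(hι m).2 i hi, pow_zero]
      rw [h7, ← Finset.prod_pow]
      refine Finset.prod_congr rfl fun i _ => ?_
      rw [← pow_mul, ← pow_mul, mul_comm]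
    have hlev := level_sums hcard hk u hum hune (fun m : M₀ => weightOf w m.1) hW
      (Finset.univ.filter fun m : M₀ => σ (coeff m.1 G) ≠ 0).card
      (fun m => σ (coeff m.1 G)) le_rfl hrel ω z₁
    have hval := (eq_of_punctured (u := fun z => ∑ m : M₀ with weightOf w m.1 = ω,
      σ (coeff m.1 G) * u m z ^ k) (v := fun _ => 0) (z := z₁) (by
        apply Finset.analyticAt_fun_sum
        intro m _
        exact analyticAt_const.mul ((hua m).pow _)) analyticAt_const hlev).self_of_nhds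
    rw [← Finset.sum_filter_add_sum_filter_not (G.support.filter fun m => weightOf w m = ω)
      (fun m => ∀ i, i ∉ T → m i = 0)]
    have h6 : ∑ m ∈ (G.support.filter fun m => weightOf w m = ω) with ¬ ∀ i, i ∉ T → m i = 0,
        σ (coeff m G) * ∏ i, (if i ∈ T then φ i z₁ ^ k else 0) ^ m i = 0 := by
      refine Finset.sum_eq_zero fun m hm => ?_
      obtain ⟨-, hm2⟩ := Finset.mem_filter.1 hm
      push Not at hm2
      obtain ⟨i, hi, hmi⟩ := hm2
      rw [Finset.prod_eq_zero (Finset.mem_univ i), mul_zero]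
      rw [if_neg hi, zero_pow hmi]
    rw [h6, add_zero, Finset.filter_comm, ← hM₀]
    refine Eq.trans ?_ hval
    have e1 : ∑ m ∈ M₀ with weightOf w m = ω,
        σ (coeff m G) * ∏ i, (if i ∈ T then φ i z₁ ^ k else 0) ^ m i =
        ∑ m : M₀, if weightOf w m.1 = ω then
          σ (coeff m.1 G) * ∏ i, (if i ∈ T then φ i z₁ ^ k else 0) ^ m.1 i else 0 :=
      (Finset.sum_filter _ _).trans (Finset.sum_coe_sort M₀ (fun m => if weightOf w m = ω then
        σ (coeff m G) * ∏ i, (if i ∈ T then φ i z₁ ^ k else 0) ^ m i else 0)).symm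
    have e2 : ∑ m : M₀ with weightOf w m.1 = ω, σ (coeff m.1 G) * u m z₁ ^ k =
        ∑ m : M₀, if weightOf w m.1 = ω then σ (coeff m.1 G) * u m z₁ ^ k else 0 :=
      Finset.sum_filter _ _
    refine e1.trans (Eq.trans ?_ e2.symm)
    refine Finset.sum_congr rfl fun m _ => ?_
    by_cases hm : weightOf w m.1 = ω
    · rw [if_pos hm, if_pos hm]
      congr 1
      have h7 : ∏ i, (if i ∈ T then φ i z₁ ^ k else 0) ^ (m.1 i) =
          ∏ i ∈ T, (if i ∈ T then φ i z₁ ^ k else 0) ^ (m.1 i) := by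
        symm
        apply Finset.prod_subset (Finset.subset_univ _)
        intro i _ hi
        rw [(hι m).2 i hi, pow_zero]
      rw [h7, ← Finset.prod_pow]
      refine Finset.prod_congr rfl fun i hi => ?_
      rw [if_pos hi, ← pow_mul, ← pow_mul, mul_comm]
    · rw [if_neg hm, if_neg hm]

end Pool.Agent.Work.MP_f82ddf_nt
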