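import Mathlib

/-!
# Rescaling and gluing lemmas
-/

open Topology Filter Metric Set

namespace Pool.Agent.Work.MP_f82ddf_nt

/-- The rescaling lemma of Brody and Zalcman: a point where a continuous density is almost
maximal at its own scale. -/
theorem exists_rescale {ρ : ℂ → ℝ} {c : ℂ} {r : ℝ} (hr : 0 < r)
    (hcont : ContinuousOn ρ (closedBall c r)) (hnn : ∀ z ∈ closedBall c r, 0 ≤ ρ z)
    (hc : 0 < ρ c) :
    ∃ z ∈ ball c r, 0 < ρ z ∧ ρ c ≤ ρ z ∧
      ∀ w, dist w z ≤ r * ρ c / (2 * ρ z) → w ∈ ball c r ∧ ρ w ≤ 2 * ρ z := by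
  have hcomp : IsCompact (closedBall c r) := isCompact_closedBall c r
  have hF : ContinuousOn (fun z => (r - dist z c) * ρ z) (closedBall c r) := by
    apply ContinuousOn.mul _ hcont
    fun_prop
  obtain ⟨z, hz, hmax⟩ := hcomp.exists_isMaxOn ⟨c, mem_closedBall_self hr.le⟩ hF
  have h1 : r * ρ c ≤ (r - dist z c) * ρ z := by
    have := hmax (mem_closedBall_self hr.le : c ∈ closedBall c r)
    simpa using this
  have h2 : 0 < r * ρ c := mul_pos hr hc
  have hzc : dist z c ≤ r := mem_closedBall.1 hz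
  have hρz : 0 ≤ ρ z := hnn z hz
  have hpos : 0 < (r - dist z c) * ρ z := lt_of_lt_of_le h2 h1
  have hd : 0 < r - dist z c := by
    rcases (mul_pos_iff.1 hpos) with h | h
    · exact h.1
    · linarith [h.2]
  have hρ : 0 < ρ z := by
    rcases (mul_pos_iff.1 hpos) with h | h
    · exact h.2
    · linarith [h.2]
  refine ⟨z, mem_ball.2 (by linarith), hρ, ?_, ?_⟩
  · have h3 : (r - dist z c) * ρ z ≤ r * ρ z :=
      mul_le_mul_of_nonneg_right (by linarith [dist_nonneg (x := z) (y := c)]) hρ.le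
    exact le_of_mul_le_mul_left (h1.trans h3) hr
  · intro w hw
    have h3 : dist w z ≤ (r - dist z c) / 2 := by
      refine hw.trans ?_
      rw [div_le_iff₀ (by positivity)]
      calc r * ρ c ≤ (r - dist z c) * ρ z := h1
        _ = (r - dist z c) / 2 * (2 * ρ z) := by ring
    have h4 : dist w c ≤ dist z c + (r - dist z c) / 2 := by
      linarith [dist_triangle w z c]
    have h5 : w ∈ ball c r := mem_ball.2 (by linarith)
    refine ⟨h5, ?_⟩
    have h6 : (r - dist w c) * ρ w ≤ (r - dist z c) * ρ z := hmax (ball_subset_closedBall h5)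
    have h7 : (r - dist z c) / 2 ≤ r - dist w c := by linarith
    have h8 : 0 ≤ ρ w := hnn w (ball_subset_closedBall h5)
    have h9 : (r - dist z c) / 2 * ρ w ≤ (r - dist z c) * ρ z :=
      (mul_le_mul_of_nonneg_right h7 h8).trans h6
    have h10 : (r - dist z c) * ρ w ≤ (r - dist z c) * (2 * ρ z) := by linarith
    exact le_of_mul_le_mul_left h10 hd

/-- Germs of analytic functions which agree off a discrete set glue. -/
theorem exists_glue {Ω : Set ℂ} {E : ℂ → ℂ}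
    (h : ∀ z₀ ∈ Ω, ∃ F : ℂ → ℂ, AnalyticAt ℂ F z₀ ∧ ∀ᶠ z in 𝓝[≠] z₀, E z = F z)
    (hΩ : IsOpen Ω) :
    ∃ G : ℂ → ℂ, AnalyticOnNhd ℂ G Ω ∧ ∀ z₀ ∈ Ω, ∀ᶠ z in 𝓝[≠] z₀, E z = G z := by
  classical
  choose! F hF hEF using h
  have key : ∀ z₀ ∈ Ω, ∀ᶠ z in 𝓝 z₀, F z z = F z₀ z := by
    intro z₀ hz₀
    have h1 : ∀ᶠ z in 𝓝[≠] z₀, F z z = F z₀ z := by
      have h2 := eventually_eventually_nhdsWithin.2 (hEF z₀ hz₀)
      have h3 : ∀ᶠ z in 𝓝[≠] z₀, AnalyticAt ℂ (F z₀) z :=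
        nhdsWithin_le_nhds (hF z₀ hz₀).eventually_analyticAt
      have h4 : ∀ᶠ z in 𝓝[≠] z₀, z ∈ Ω := nhdsWithin_le_nhds (hΩ.mem_nhds hz₀)
      filter_upwards [h2, h3, h4, self_mem_nhdsWithin] with z h2 h3 h4 h5
      have h6 : ∀ᶠ y in 𝓝[≠] z, E y = F z₀ y := by
        have : 𝓝[≠] z ≤ 𝓝[≠] z₀ ⊔ 𝓝[{z}ᶜ] z := le_sup_right
        have h7 : 𝓝[{z₀}ᶜ] z = 𝓝 z := by
          apply IsOpen.nhdsWithin_eq isOpen_compl_singleton
          exact h5
        rw [h7] at h2
        exact nhdsWithin_le_nhds h2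
      have h8 : ∀ᶠ y in 𝓝[≠] z, F z y = F z₀ y := by
        filter_upwards [h6, hEF z h4] with y h6 h7
        rw [← h7, h6]
      have h9 := (((hF z h4).frequently_eq_iff_eventually_eq h3).1 h8.frequently)
      exact h9.self_of_nhds
    rw [eventually_nhdsWithin_iff] at h1
    filter_upwards [h1] with z hz
    by_cases hzz : z = z₀
    · rw [hzz]
    · exact hz hzz
  refine ⟨fun z => F z z, fun z₀ hz₀ => (hF z₀ hz₀).congr ?_, fun z₀ hz₀ => ?_⟩
  · filter_upwards [key z₀ hz₀] with z hz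
    exact hz.symm
  · filter_upwards [hEF z₀ hz₀, nhdsWithin_le_nhds (key z₀ hz₀)] with z h1 h2
    rw [h1, h2]

end Pool.Agent.Work.MP_f82ddf_nt
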