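import Pool.Agent.Work.MP_f82ddf_nt.Brody.Lip
import Pool.Agent.Work.MP_f82ddf_nt.Brody.Rescale
import Pool.Agent.Work.MP_f82ddf_nt.Brody.Montel

/-!
# Brody's theorem: a projective variety which is not hyperbolic contains an entire curve
-/

open Topology Filter Metric Set MvPolynomial
open scoped LinearAlgebra.Projectivization ComplexConjugate ENNReal

namespace Pool.Agent.Work.MP_f82ddf_nt

variable {n : ℕ}

/-- The change of the comparison function along a segment. -/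
theorem psi_segment {h : ℂ → PSpace ℂ n} {α : Fin (n + 1) → ℂ} (hα : α ≠ 0) {z w : ℂ} {C : ℝ}
    (hh : ∀ t ∈ Icc (0 : ℝ) 1, ∃ g, IsLift h g (z + t * (w - z)))
    (hC : ∀ t ∈ Icc (0 : ℝ) 1, sp h (z + t * (w - z)) ≤ C) :
    |Psi α (h w) - Psi α (h z)| ≤ kap n * C * ‖w - z‖ := by
  have hder : ∀ t ∈ Icc (0 : ℝ) 1, ∃ D : ℝ,
      HasDerivAt (fun t : ℝ => Psi α (h (z + t * (w - z)))) D t ∧
      |D| ≤ kap n * C * ‖w - z‖ := by
    intro t ht
    obtain ⟨g, hg⟩ := hh t ht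
    obtain ⟨D, hD, hDle⟩ := psi_hasDerivAt (n := n) hα (g := g) (z := z) (v := w - z) (t := t)
      hg.1.differentiableAt hg.ne
    refine ⟨D, hD.congr_of_eventuallyEq ?_, ?_⟩
    · have hcont : ContinuousAt (fun t : ℝ => z + (t : ℂ) * (w - z)) t := by fun_prop
      filter_upwards [hcont.eventually hg.2] with s hs
      obtain ⟨e1, e2⟩ := hs
      show Psi α (h (z + s * (w - z))) = psi α (g (z + s * (w - z)))
      rw [e2, Psi_mk]
    · refine hDle.trans ?_
      rw [← sp_eq hg]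
      have h1 := hC t ht
      have h2 : 0 ≤ kap n * ‖w - z‖ := by have := (kap_pos n).le; positivity
      calc kap n * ‖w - z‖ * sp h (z + t * (w - z)) ≤ kap n * ‖w - z‖ * C :=
            mul_le_mul_of_nonneg_left h1 h2
        _ = kap n * C * ‖w - z‖ := by ring
  choose! D hD hDle using hder
  have h1 := norm_image_sub_le_of_norm_deriv_right_le_segment
    (f := fun t : ℝ => Psi α (h (z + t * (w - z)))) (f' := D) (a := 0) (b := 1)
    (C := kap n * C * ‖w - z‖)
    (fun t ht => (hD t ht).continuousAt.continuousWithinAt)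
    (fun t ht => (hD t (Ico_subset_Icc_self ht)).hasDerivWithinAt)
    (fun t ht => hDle t (Ico_subset_Icc_self ht)) 1 ⟨zero_le_one, le_rfl⟩
  simpa using h1

/-- The normalised representative of a point. -/
noncomputable def nrep (p : PSpace ℂ n) : Fin (n + 1) → ℂ := ((‖p.rep‖⁻¹ : ℝ) : ℂ) • p.rep

theorem nrep_norm (p : PSpace ℂ n) : ‖nrep p‖ = 1 := by
  unfold nrep
  rw [norm_smul, Complex.norm_real, norm_inv, norm_norm,
    inv_mul_cancel₀ (norm_ne_zero_iff.2 p.rep_nonzero)]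

theorem nrep_ne (p : PSpace ℂ n) : nrep p ≠ 0 := by
  rw [← norm_pos_iff, nrep_norm]
  exact one_pos

theorem mk_nrep (p : PSpace ℂ n) : Projectivization.mk ℂ (nrep p) (nrep_ne p) = p := by
  conv_rhs => rw [← p.mk_rep]
  rw [Projectivization.mk_eq_mk_iff']
  exact ⟨_, rfl⟩

theorem nrep_mk (x : Fin (n + 1) → ℂ) (hx : x ≠ 0) :
    ∃ c : ℂ, c ≠ 0 ∧ nrep (Projectivization.mk ℂ x hx) = c • x := by
  have h1 := mk_nrep (Projectivization.mk ℂ x hx)
  rw [Projectivization.mk_eq_mk_iff'] at h1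
  obtain ⟨c, hc⟩ := h1
  refine ⟨c, ?_, hc.symm⟩
  intro h0
  rw [h0, zero_smul] at hc
  exact nrep_ne _ hc.symm

theorem ip_tendsto {ι : Type*} {φ : Filter ι} {a x : ι → Fin (n + 1) → ℂ}
    {a' x' : Fin (n + 1) → ℂ} (ha : Tendsto a φ (𝓝 a')) (hx : Tendsto x φ (𝓝 x')) :
    Tendsto (fun N => ip (a N) (x N)) φ (𝓝 (ip a' x')) := by
  unfold ip
  apply tendsto_finsetSum
  intro i _
  exact ((Complex.continuous_conj.tendsto _).comp ((tendsto_pi_nhds.1 ha) i)).mul
    ((tendsto_pi_nhds.1 hx) i)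

/-- Limits along an ultrafilter of holomorphic curves with bounded spherical derivative. -/
theorem exists_limit (𝒰 : Ultrafilter ℕ) (h𝒰 : (𝒰 : Filter ℕ) ≤ atTop) (R : ℕ → ℝ)
    (hR : Tendsto R atTop atTop) (g : ℕ → ℂ → PSpace ℂ n)
    (hg : ∀ N z, ‖z‖ ≤ R N → ∃ G, IsLift (g N) G z)
    (hsp : ∀ N z, ‖z‖ ≤ R N → sp (g N) z ≤ 2) :
    ∃ x : ℂ → Fin (n + 1) → ℂ, (∀ z, ‖x z‖ = 1) ∧
      (∀ z, Tendsto (fun N => nrep (g N z)) 𝒰 (𝓝 (x z))) ∧
      ∀ z₀, ∃ r > 0, ∃ H : ℕ → ℂ → Fin (n + 1) → ℂ,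
        (∀ᶠ N in (𝒰 : Filter ℕ), ∀ z ∈ ball z₀ r, IsLift (g N) (H N) z) ∧
        (∀ i, TendstoLocallyUniformlyOn (fun N z => H N z i)
          (fun z => (ip (x z₀) (x z))⁻¹ * x z i) 𝒰 (ball z₀ r)) ∧
        (∀ N i, DifferentiableOn ℂ (fun z => H N z i) (ball z₀ r)) ∧
        (∀ z ∈ ball z₀ r, ip (x z₀) (x z) ≠ 0) := by
  classical
  have hx : ∀ z, ∃ x : Fin (n + 1) → ℂ, ‖x‖ = 1 ∧ Tendsto (fun N => nrep (g N z)) 𝒰 (𝓝 x) := by
    intro z
    have hc : IsCompact (sphere (0 : Fin (n + 1) → ℂ) 1) := isCompact_sphere _ _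
    have h2 : (𝒰.map fun N => nrep (g N z) : Filter (Fin (n + 1) → ℂ)) ≤
        𝓟 (sphere (0 : Fin (n + 1) → ℂ) 1) := by
      rw [le_principal_iff]
      exact Filter.mem_map.2 (Filter.univ_mem' fun N => mem_sphere_zero_iff_norm.2 (nrep_norm _))
    obtain ⟨w, hw1, hw⟩ := isCompact_iff_ultrafilter_le_nhds.1 hc _ h2
    exact ⟨w, mem_sphere_zero_iff_norm.1 hw1, hw⟩
  choose x hx1 hxt using hx
  refine ⟨x, hx1, hxt, fun z₀ => ?_⟩
  have hk := kap_pos n
  set r : ℝ := min 1 (1 / (4 * kap n)) with hr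
  have hr0 : 0 < r := lt_min one_pos (by positivity)
  have hr1 : r ≤ 1 := min_le_left _ _
  have hrk : kap n * 2 * r ≤ 1 / 2 := by
    have h1 : r ≤ 1 / (4 * kap n) := min_le_right _ _
    calc kap n * 2 * r ≤ kap n * 2 * (1 / (4 * kap n)) := by gcongr
      _ = 1 / 2 := by field_simp; norm_num
  set good : ℕ → Prop := fun N => ‖z₀‖ + 1 ≤ R N with hgood
  have hgoodev : ∀ᶠ N in (𝒰 : Filter ℕ), good N :=
    (hR.eventually_ge_atTop (‖z₀‖ + 1)).filter_mono h𝒰
  have hin : ∀ z ∈ ball z₀ r, ‖z‖ ≤ ‖z₀‖ + 1 := by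
    intro z hz
    have h1 : ‖z - z₀‖ < r := by rwa [← dist_eq_norm]
    have h2 := norm_sub_norm_le z z₀
    linarith
  set a : ℕ → Fin (n + 1) → ℂ := fun N => nrep (g N z₀) with ha
  -- lower bound for the comparison function
  have hPsi : ∀ N, good N → ∀ z ∈ ball z₀ r, 1 / 2 ≤ psi (a N) (nrep (g N z)) := by
    intro N hN z hz
    have h1 : ∀ t ∈ Icc (0 : ℝ) 1, ‖z₀ + t * (z - z₀)‖ ≤ R N := by
      intro t ht
      have h2 : ‖(t : ℂ) * (z - z₀)‖ ≤ 1 := by
        rw [norm_mul, Complex.norm_real, Real.norm_eq_abs, abs_of_nonneg ht.1, ← dist_eq_norm]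
        have h3 : dist z z₀ < r := hz
        nlinarith [ht.1, ht.2, dist_nonneg (x := z) (y := z₀)]
      calc ‖z₀ + t * (z - z₀)‖ ≤ ‖z₀‖ + ‖(t : ℂ) * (z - z₀)‖ := norm_add_le _ _
        _ ≤ R N := by linarith [show ‖z₀‖ + 1 ≤ R N from hN]
    have h2 := psi_segment (h := g N) (α := a N) (nrep_ne _) (z := z₀) (w := z) (C := 2)
      (fun t ht => hg N _ (h1 t ht)) (fun t ht => hsp N _ (h1 t ht))
    have h3 : Psi (a N) (g N z₀) = 1 := by
      rw [← mk_nrep (g N z₀), Psi_mk]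
      exact psi_self (nrep_ne _)
    have h4 : Psi (a N) (g N z) = psi (a N) (nrep (g N z)) := by
      conv_lhs => rw [← mk_nrep (g N z)]
      rw [Psi_mk]
    rw [h3, h4] at h2
    have h5 : ‖z - z₀‖ ≤ r := by
      rw [← dist_eq_norm]
      exact le_of_lt hz
    have h6 : kap n * 2 * ‖z - z₀‖ ≤ 1 / 2 := (by gcongr : kap n * 2 * ‖z - z₀‖ ≤ kap n * 2 * r).trans hrk
    have h7 := (abs_le.1 (h2.trans h6)).1
    linarith
  have hipbound : ∀ N, good N → ∀ z ∈ ball z₀ r, 1 / 2 ≤ ‖ip (a N) (nrep (g N z))‖ := by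
    intro N hN z hz
    have h1 := hPsi N hN z hz
    unfold psi at h1
    have h2 : 1 ≤ ns (a N) := by
      have := norm_sq_le_ns (a N)
      rw [ha] at this ⊢
      simp only [nrep_norm, one_pow] at this
      exact this
    have h3 : 1 ≤ ns (nrep (g N z)) := by
      have := norm_sq_le_ns (nrep (g N z))
      simp only [nrep_norm, one_pow] at this
      exact this
    have h4 : 1 ≤ ns (a N) * ns (nrep (g N z)) := by nlinarith
    rw [le_div_iff₀ (by linarith), Complex.normSq_eq_norm_sq] at h1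
    nlinarith [norm_nonneg (ip (a N) (nrep (g N z)))]
  -- the normalised lifts
  set H : ℕ → ℂ → Fin (n + 1) → ℂ := fun N z =>
    if good N then (ip (a N) (nrep (g N z)))⁻¹ • nrep (g N z) else 0 with hH
  have hHlift : ∀ N, good N → ∀ z ∈ ball z₀ r, IsLift (g N) (H N) z := by
    intro N hN z hz
    obtain ⟨G, hG⟩ := hg N z ((hin z hz).trans hN)
    have hball : ∀ᶠ y in 𝓝 z, y ∈ ball z₀ r := isOpen_ball.mem_nhds hz
    -- formula for `H` in terms of `G`
    have hform : ∀ᶠ y in 𝓝 z, ip (a N) (G y) ≠ 0 ∧ H N y = (ip (a N) (G y))⁻¹ • G y := by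
      filter_upwards [hG.2, hball] with y hy hyb
      obtain ⟨e1, e2⟩ := hy
      obtain ⟨c, hc0, hc⟩ := nrep_mk (G y) e1
      have h1 := hipbound N hN y hyb
      rw [e2, hc, ip_smul, norm_mul] at h1
      have h2 : ip (a N) (G y) ≠ 0 := by
        intro h0
        rw [h0, norm_zero, mul_zero] at h1
        norm_num at h1
      refine ⟨h2, ?_⟩
      rw [hH]
      simp only [if_pos hN]
      rw [e2, hc, ip_smul, smul_smul]
      congr 1
      field_simp
    have hipan : AnalyticAt ℂ (fun y => ip (a N) (G y)) z := by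
      unfold ip
      apply Finset.analyticAt_fun_sum
      intro i _
      exact analyticAt_const.mul ((analyticAt_pi_iff.1 hG.1) i)
    have hip0 := hform.self_of_nhds.1
    refine ⟨((hipan.inv hip0).smul hG.1).congr ?_, ?_⟩
    · filter_upwards [hform] with y hy
      exact hy.2.symm
    · filter_upwards [hG.2, hform] with y hy hy2
      obtain ⟨e1, e2⟩ := hy
      have h3 : H N y ≠ 0 := by
        rw [hy2.2]
        exact smul_ne_zero (inv_ne_zero hy2.1) e1
      refine ⟨h3, ?_⟩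
      rw [e2, Projectivization.mk_eq_mk_iff']
      refine ⟨ip (a N) (G y), ?_⟩
      rw [hy2.2, smul_smul, mul_inv_cancel₀ hy2.1, one_smul]
  have hHd : ∀ N i, DifferentiableOn ℂ (fun z => H N z i) (ball z₀ r) := by
    intro N i
    by_cases hN : good N
    · intro z hz
      exact ((analyticAt_pi_iff.1 (hHlift N hN z hz).1) i).differentiableAt.differentiableWithinAt
    · have : (fun z => H N z i) = fun _ => 0 := by
        funext z
        rw [hH]
        simp only [if_neg hN, Pi.zero_apply]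
      rw [this]
      exact differentiableOn_const _
  have hHb : ∀ N i, ∀ z ∈ ball z₀ r, ‖H N z i‖ ≤ 2 := by
    intro N i z hz
    rw [hH]
    by_cases hN : good N
    · simp only [if_pos hN, Pi.smul_apply, smul_eq_mul, norm_mul, norm_inv]
      have h1 := hipbound N hN z hz
      have h2 : ‖nrep (g N z) i‖ ≤ 1 := by
        have := norm_le_pi_norm (nrep (g N z)) i
        rwa [nrep_norm] at this
      have h3 : ‖ip (a N) (nrep (g N z))‖⁻¹ ≤ 2 := by
        rw [inv_le_comm₀ (by linarith) (by norm_num)]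
        linarith
      calc ‖ip (a N) (nrep (g N z))‖⁻¹ * ‖nrep (g N z) i‖ ≤ 2 * 1 :=
            mul_le_mul h3 h2 (norm_nonneg _) (by norm_num)
        _ = 2 := by norm_num
    · simp only [if_neg hN, Pi.zero_apply, norm_zero]
      norm_num
  -- pointwise limits
  have hiplim : ∀ z, Tendsto (fun N => ip (a N) (nrep (g N z))) 𝒰 (𝓝 (ip (x z₀) (x z))) := by
    intro z
    exact ip_tendsto (hxt z₀) (hxt z)
  have hipne : ∀ z ∈ ball z₀ r, ip (x z₀) (x z) ≠ 0 := by
    intro z hz h0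
    have h1 := (hiplim z).norm
    rw [h0, norm_zero] at h1
    have h2 := ge_of_tendsto h1 (hgoodev.mono fun N hN => hipbound N hN z hz)
    norm_num at h2
  have hptw : ∀ i, ∀ z ∈ ball z₀ r, Tendsto (fun N => H N z i) 𝒰
      (𝓝 ((ip (x z₀) (x z))⁻¹ * x z i)) := by
    intro i z hz
    have h1 : Tendsto (fun N => (ip (a N) (nrep (g N z)))⁻¹ * nrep (g N z) i) 𝒰
        (𝓝 ((ip (x z₀) (x z))⁻¹ * x z i)) :=
      ((hiplim z).inv₀ (hipne z hz)).mul ((tendsto_pi_nhds.1 (hxt z)) i)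
    refine h1.congr' ?_
    filter_upwards [hgoodev] with N hN
    rw [hH]
    simp only [if_pos hN, Pi.smul_apply, smul_eq_mul]
  refine ⟨r, hr0, H, ?_, ?_, hHd, hipne⟩
  · filter_upwards [hgoodev] with N hN z hz
    exact hHlift N hN z hz
  · intro i
    obtain ⟨F, hF⟩ := montel_bdd isOpen_ball (fun N => hHd N i) (fun N z hz => hHb N i z hz) 𝒰
    refine hF.congr_right fun z hz => ?_
    exact tendsto_nhds_unique (hF.tendsto_at hz) (hptw i z hz)

end Pool.Agent.Work.MP_f82ddf_nt
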