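import Pool.Agent.Work.MP_f82ddf_nt.Brody.Psi

/-!
# Bounded derivatives at the centre of discs imply hyperbolicity
-/

open Topology Filter Metric Set
open scoped LinearAlgebra.Projectivization ComplexConjugate ENNReal

namespace Pool.Agent.Work.MP_f82ddf_nt

variable {n : ℕ}

/-- The automorphism of the disc which maps `0` to `b`. -/
noncomputable def mob (b z : ℂ) : ℂ := (z + b) / (1 + conj b * z)

theorem mob_den {b z : ℂ} (hb : ‖b‖ < 1) (hz : ‖z‖ < 1) : 1 + conj b * z ≠ 0 := by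
  intro h
  have h1 : ‖conj b * z‖ = 1 := by
    have : conj b * z = -1 := by linear_combination h
    rw [this, norm_neg, norm_one]
  rw [norm_mul, RCLike.norm_conj] at h1
  nlinarith [norm_nonneg b, norm_nonneg z]

theorem mob_lt_one {b z : ℂ} (hb : ‖b‖ < 1) (hz : ‖z‖ < 1) : ‖mob b z‖ < 1 := by
  have h0 := mob_den hb hz
  unfold mob
  rw [norm_div, div_lt_one (norm_pos_iff.2 h0)]
  have h1 : Complex.normSq (1 + conj b * z) - Complex.normSq (z + b) =
      (1 - Complex.normSq b) * (1 - Complex.normSq z) := by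
    simp only [Complex.normSq_apply, Complex.add_re, Complex.add_im, Complex.mul_re,
      Complex.mul_im, Complex.conj_re, Complex.conj_im, Complex.one_re, Complex.one_im]
    ring
  rw [Complex.normSq_eq_norm_sq, Complex.normSq_eq_norm_sq, Complex.normSq_eq_norm_sq,
    Complex.normSq_eq_norm_sq] at h1
  have h2 : 0 < (1 - ‖b‖ ^ 2) * (1 - ‖z‖ ^ 2) := by
    apply mul_pos
    · nlinarith [norm_nonneg b]
    · nlinarith [norm_nonneg z]
  rw [← h1] at h2
  exact lt_of_pow_lt_pow_left₀ 2 (norm_nonneg _) (by linarith)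

theorem mob_analyticAt {b z : ℂ} (hb : ‖b‖ < 1) (hz : ‖z‖ < 1) : AnalyticAt ℂ (mob b) z := by
  unfold mob
  apply AnalyticAt.div
  · fun_prop
  · fun_prop
  · exact mob_den hb hz

theorem mob_zero (b : ℂ) : mob b 0 = b := by simp [mob]

theorem deriv_mob_zero (b : ℂ) : ‖deriv (mob b) 0‖ = |1 - ‖b‖ ^ 2| := by
  have h1 : HasDerivAt (fun z : ℂ => z + b) 1 0 := (hasDerivAt_id 0).add_const b
  have h2 : HasDerivAt (fun z : ℂ => 1 + conj b * z) (conj b) 0 := by
    simpa using ((hasDerivAt_id (0 : ℂ)).const_mul (conj b)).const_add 1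
  have h3 := h1.fun_div h2 (by simp)
  have h4 : deriv (mob b) 0 = ((1 - ‖b‖ ^ 2 : ℝ) : ℂ) := by
    have h5 : deriv (mob b) 0 = (1 * (1 + conj b * 0) - (0 + b) * conj b) / (1 + conj b * 0) ^ 2 :=
      h3.deriv
    rw [h5]
    push_cast
    have : (‖b‖ : ℂ) ^ 2 = b * conj b := by
      rw [Complex.mul_conj, Complex.normSq_eq_norm_sq]
      push_cast
      rfl
    rw [this]
    ring
  rw [h4, Complex.norm_real, Real.norm_eq_abs]

/-- The bound at the centre gives a bound at every point. -/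
theorem sp_le_of_center {X : Set (PSpace ℂ n)} {C : ℝ}
    (hC : ∀ h : ℂ → PSpace ℂ n, HolomorphicOn h (ball 0 1) → MapsTo h (ball 0 1) X → sp h 0 ≤ C)
    {f : ℂ → PSpace ℂ n} (hf : HolomorphicOn f (ball 0 1)) (hfX : MapsTo f (ball 0 1) X) {z : ℂ}
    (hz : ‖z‖ < 1) : sp f z ≤ C / (1 - ‖z‖ ^ 2) := by
  have h1 : HolomorphicOn (fun y => f (mob z y)) (ball 0 1) := by
    intro y hy
    have hy1 : ‖y‖ < 1 := mem_ball_zero_iff.1 hy
    obtain ⟨g, hg⟩ := hf (mob z y) (mem_ball_zero_iff.2 (mob_lt_one hz hy1))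
    exact ⟨_, IsLift.comp (mob_analyticAt hz hy1) hg⟩
  have h2 : MapsTo (fun y => f (mob z y)) (ball 0 1) X := by
    intro y hy
    exact hfX (mem_ball_zero_iff.2 (mob_lt_one hz (mem_ball_zero_iff.1 hy)))
  have h3 := hC _ h1 h2
  have h0 : ‖(0 : ℂ)‖ < 1 := by simp
  rw [sp_comp (mob_analyticAt hz h0) (by
    rw [mob_zero]
    exact hf z (mem_ball_zero_iff.2 hz)), mob_zero, deriv_mob_zero] at h3
  have h4 : 0 < 1 - ‖z‖ ^ 2 := by nlinarith [norm_nonneg z]
  rw [abs_of_pos h4] at h3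
  rw [le_div_iff₀ h4]
  linarith

/-- The comparison functions are Lipschitz for the Poincare distance. -/
theorem psi_lip {X : Set (PSpace ℂ n)} {C : ℝ}
    (hC : ∀ h : ℂ → PSpace ℂ n, HolomorphicOn h (ball 0 1) → MapsTo h (ball 0 1) X → sp h 0 ≤ C)
    {α : Fin (n + 1) → ℂ} (hα : α ≠ 0)
    {f : ℂ → PSpace ℂ n} (hf : HolomorphicOn f (ball 0 1)) (hfX : MapsTo f (ball 0 1) X) {a b : ℂ}
    (ha : a ∈ ball (0 : ℂ) 1) (hb : b ∈ ball (0 : ℂ) 1) :
    |Psi α (f a) - Psi α (f b)| ≤ kap n * C / 2 * poincareDist a b := by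
  have ha1 : ‖a‖ < 1 := mem_ball_zero_iff.1 ha
  have hb1 : ‖b‖ < 1 := mem_ball_zero_iff.1 hb
  set h : ℂ → PSpace ℂ n := fun y => f (mob b y) with hh
  have h1 : HolomorphicOn h (ball 0 1) := by
    intro y hy
    have hy1 : ‖y‖ < 1 := mem_ball_zero_iff.1 hy
    obtain ⟨g, hg⟩ := hf (mob b y) (mem_ball_zero_iff.2 (mob_lt_one hb1 hy1))
    exact ⟨_, IsLift.comp (mob_analyticAt hb1 hy1) hg⟩
  have h2 : MapsTo h (ball 0 1) X := by
    intro y hy
    exact hfX (mem_ball_zero_iff.2 (mob_lt_one hb1 (mem_ball_zero_iff.1 hy)))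
  -- the point which is mapped to `a`
  set c : ℂ := (a - b) / (1 - conj b * a) with hc
  have hden : 1 - conj b * a ≠ 0 := by
    have := mob_den (b := -b) (z := a) (by rwa [norm_neg]) ha1
    simpa [sub_eq_add_neg] using this
  have hc1 : ‖c‖ < 1 := by
    have := mob_lt_one (b := -b) (z := a) (by rwa [norm_neg]) ha1
    simpa [mob, sub_eq_add_neg, hc] using this
  have hca : mob b c = a := by
    have h3 := mob_den hb1 hc1
    have h4 : c * (1 - conj b * a) = a - b := div_mul_cancel₀ _ hden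
    unfold mob
    rw [div_eq_iff h3]
    linear_combination h4
  have hcn : ‖c‖ = ‖(a - b) / (1 - star a * b)‖ := by
    rw [hc, norm_div, norm_div]
    congr 1
    have h4 : (1 : ℂ) - conj b * a = conj (1 - star a * b) := by
      simp [mul_comm]
    rw [h4, RCLike.norm_conj]
  have hpd : poincareDist a b = Real.log ((1 + ‖c‖) / (1 - ‖c‖)) := by
    unfold poincareDist
    rw [← hcn]
  -- a unit vector
  obtain ⟨u, hu, hcu⟩ : ∃ u : ℂ, ‖u‖ = 1 ∧ c = (‖c‖ : ℂ) * u := by
    by_cases h0 : c = 0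
    · exact ⟨1, norm_one, by rw [h0]; simp⟩
    · refine ⟨c / ‖c‖, ?_, ?_⟩
      · rw [norm_div, Complex.norm_real, norm_norm, div_self (norm_ne_zero_iff.2 h0)]
      · have : (‖c‖ : ℂ) ≠ 0 := by exact_mod_cast norm_ne_zero_iff.2 h0
        field_simp
  have htu : ∀ t : ℝ, 0 ≤ t → ‖(t : ℂ) * u‖ = t := by
    intro t ht
    rw [norm_mul, hu, mul_one, Complex.norm_real, Real.norm_eq_abs, abs_of_nonneg ht]
  -- the derivative along the segment
  have hder : ∀ t ∈ Icc 0 ‖c‖, ∃ D : ℝ, HasDerivAt (fun t : ℝ => Psi α (h (t * u))) D t ∧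
      |D| ≤ kap n * (C / (1 - t ^ 2)) := by
    intro t ht
    have htn : ‖(t : ℂ) * u‖ < 1 := by
      rw [htu t ht.1]
      exact lt_of_le_of_lt ht.2 hc1
    obtain ⟨g, hg⟩ := h1 (t * u) (mem_ball_zero_iff.2 htn)
    have hg' : IsLift h g (t * u) := hg
    obtain ⟨D, hD, hDle⟩ := psi_hasDerivAt (n := n) hα (g := g) (z := 0) (v := u) (t := t)
      (by rw [zero_add]; exact hg'.1.differentiableAt) (by rw [zero_add]; exact hg'.ne)
    simp only [zero_add] at hD hDle
    refine ⟨D, hD.congr_of_eventuallyEq ?_, ?_⟩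
    · have hcont : ContinuousAt (fun t : ℝ => (t : ℂ) * u) t := by fun_prop
      filter_upwards [hcont.eventually hg'.2] with s hs
      obtain ⟨e1, e2⟩ := hs
      show Psi α (h (s * u)) = psi α (g (s * u))
      rw [e2, Psi_mk]
    · refine hDle.trans ?_
      rw [hu, mul_one, ← sp_eq hg']
      apply mul_le_mul_of_nonneg_left _ (kap_pos n).le
      have := sp_le_of_center hC h1 h2 htn
      rwa [htu t ht.1] at this
  choose! D hD hDle using hder
  have hB : ∀ t ∈ Ico 0 ‖c‖, HasDerivAt (fun t : ℝ => kap n * C / 2 * Real.log ((1 + t) / (1 - t)))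
      (kap n * (C / (1 - t ^ 2))) t := by
    intro t ht
    have ht1 : t < 1 := lt_trans ht.2 hc1
    have hp : 0 < 1 + t := by linarith [ht.1]
    have hm : 0 < 1 - t := by linarith
    have e1 : HasDerivAt (fun t : ℝ => 1 + t) 1 t := (hasDerivAt_id t).const_add 1
    have e2 : HasDerivAt (fun t : ℝ => 1 - t) (-1) t := (hasDerivAt_id t).const_sub 1
    have e3 := ((e1.fun_div e2 hm.ne').log (div_pos hp hm).ne').const_mul (kap n * C / 2)
    refine e3.congr_deriv ?_
    have hne : (1 - t ^ 2) ≠ 0 := by nlinarith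
    field_simp
    ring
  have hBc : ContinuousOn (fun t : ℝ => kap n * C / 2 * Real.log ((1 + t) / (1 - t)))
      (Icc 0 ‖c‖) := by
    apply ContinuousOn.const_mul
    apply ContinuousOn.log
    · apply ContinuousOn.div
      · fun_prop
      · fun_prop
      · intro t ht
        have : t < 1 := lt_of_le_of_lt ht.2 hc1
        linarith
    · intro t ht
      have h5 : t < 1 := lt_of_le_of_lt ht.2 hc1
      have h6 : 0 < 1 + t := by linarith [ht.1]
      have h7 : 0 < 1 - t := by linarith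
      exact (div_pos h6 h7).ne'
  have hfin := image_norm_le_of_norm_deriv_right_le_deriv_boundary'
    (f := fun t : ℝ => Psi α (h (t * u)) - Psi α (h 0)) (f' := D) (a := 0) (b := ‖c‖)
    (B := fun t : ℝ => kap n * C / 2 * Real.log ((1 + t) / (1 - t)))
    (B' := fun t => kap n * (C / (1 - t ^ 2)))
    (fun t ht => ((hD t ht).continuousAt.sub continuousAt_const).continuousWithinAt)
    (fun t ht => ((hD t (Ico_subset_Icc_self ht)).sub_const _).hasDerivWithinAt)
    (by simp) hBc (fun t ht => (hB t ht).hasDerivWithinAt)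
    (fun t ht => hDle t (Ico_subset_Icc_self ht)) (x := ‖c‖) ⟨norm_nonneg _, le_rfl⟩
  rw [Real.norm_eq_abs, ← hcu] at hfin
  have e1 : h c = f a := by rw [hh]; simp only [hca]
  have e2 : h 0 = f b := by rw [hh]; simp only [mob_zero]
  rw [e1, e2] at hfin
  rw [hpd]
  exact hfin

theorem chain_lip {X : Set (PSpace ℂ n)} {C : ℝ}
    (hC : ∀ h : ℂ → PSpace ℂ n, HolomorphicOn h (ball 0 1) → MapsTo h (ball 0 1) X → sp h 0 ≤ C)
    {α : Fin (n + 1) → ℂ} (hα : α ≠ 0) {p q : PSpace ℂ n} {s : ℝ} (h : DiscChain X p q s) :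
    |Psi α p - Psi α q| ≤ kap n * C / 2 * s := by
  induction h with
  | refl p hp => simp
  | step f a b q s hf hfX ha hb _ ih =>
    have h1 := psi_lip hC hα hf hfX ha hb
    calc |Psi α (f a) - Psi α q| ≤ |Psi α (f a) - Psi α (f b)| + |Psi α (f b) - Psi α q| :=
          abs_sub_le _ _ _
      _ ≤ kap n * C / 2 * poincareDist a b + kap n * C / 2 * s := add_le_add h1 ih
      _ = kap n * C / 2 * (poincareDist a b + s) := by ring

/-- Bounded derivatives at the centre of discs imply hyperbolicity. -/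
theorem kobayashi_of_bounded {X : Set (PSpace ℂ n)} {C : ℝ}
    (hC : ∀ h : ℂ → PSpace ℂ n, HolomorphicOn h (ball 0 1) → MapsTo h (ball 0 1) X → sp h 0 ≤ C) :
    KobayashiHyperbolic X := by
  intro p hp q hq hpq
  have hα : p.rep ≠ 0 := p.rep_nonzero
  have hC' : ∀ h : ℂ → PSpace ℂ n, HolomorphicOn h (ball 0 1) → MapsTo h (ball 0 1) X →
      sp h 0 ≤ max C 1 := fun h h1 h2 => (hC h h1 h2).trans (le_max_left _ _)
  have hCpos : 0 < max C 1 := lt_of_lt_of_le one_pos (le_max_right _ _)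
  have hk : 0 < kap n * max C 1 / 2 := by have := kap_pos n; positivity
  have h1 : Psi p.rep p = 1 := psi_self hα
  have h2 : Psi p.rep q < 1 := by
    apply psi_lt_one hα q.rep_nonzero
    intro c hc
    apply hpq
    rw [← p.mk_rep, ← q.mk_rep, Projectivization.mk_eq_mk_iff']
    by_cases h0 : c = 0
    · rw [h0, zero_smul] at hc
      exact absurd hc q.rep_nonzero
    · refine ⟨c⁻¹, ?_⟩
      rw [hc, smul_smul, inv_mul_cancel₀ h0, one_smul]
  have h3 : 0 < (1 - Psi p.rep q) / (kap n * max C 1 / 2) := div_pos (by linarith) hk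
  refine lt_of_lt_of_le (ENNReal.ofReal_pos.2 h3) ?_
  unfold kobayashiDist
  refine le_iInf₂ fun s hs => ENNReal.ofReal_le_ofReal ?_
  have h4 := chain_lip hC' hα hs
  rw [h1, abs_of_pos (by linarith)] at h4
  rwa [div_le_iff₀' hk]

end Pool.Agent.Work.MP_f82ddf_nt
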