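import Pool.Agent.Work.MP_f82ddf_nt.Brody.Wlim
import Pool.Agent.Work.MP_f82ddf_nt.Brody.Rescale

/-!
# Local representation of families of meromorphic functions
-/

open Topology Filter Metric Set

namespace Pool.Agent.Work.MP_f82ddf_nt

theorem ev_ev {P : ℂ → Prop} {z₀ : ℂ} (h : ∀ᶠ z in 𝓝[≠] z₀, P z) :
    ∀ᶠ z in 𝓝[≠] z₀, ∀ᶠ y in 𝓝 z, P y := by
  have h2 := eventually_eventually_nhdsWithin.2 h
  filter_upwards [h2, self_mem_nhdsWithin] with z h2 h5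
  have h7 : 𝓝[{z₀}ᶜ] z = 𝓝 z := IsOpen.nhdsWithin_eq isOpen_compl_singleton h5
  rwa [h7] at h2

theorem mero_zero {g : ℂ → ℂ} (hg : ∀ z, MeromorphicAt g z) {z₁ : ℂ}
    (h : ∀ᶠ z in 𝓝[≠] z₁, g z = 0) (z₀ : ℂ) : ∀ᶠ z in 𝓝[≠] z₀, g z = 0 := by
  have h1 : meromorphicOrderAt g z₁ = ⊤ := meromorphicOrderAt_eq_top_iff.2 h
  refine meromorphicOrderAt_eq_top_iff.1 ?_
  by_contra hne
  exact (MeromorphicOn.meromorphicOrderAt_ne_top_of_isPreconnected (U := univ)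
    (fun z _ => hg z) isPreconnected_univ (mem_univ z₀) (mem_univ z₁) hne) h1

theorem mero_ne {g : ℂ → ℂ} (hg : ∀ z, MeromorphicAt g z) {z₁ : ℂ}
    (h : ∃ᶠ z in 𝓝[≠] z₁, g z ≠ 0) (z₀ : ℂ) : ∀ᶠ z in 𝓝[≠] z₀, g z ≠ 0 := by
  rcases (hg z₀).eventually_eq_zero_or_eventually_ne_zero with h1 | h1
  · exact absurd (mero_zero hg h1 z₁) (not_eventually.2 h)
  · exact h1

theorem local_rep {ι : Type*} [Finite ι] [Nonempty ι] (w : ι → ℂ → ℂ) (z₀ : ℂ)
    (hw : ∀ i, MeromorphicAt (w i) z₀) (hne : ∀ i, ∀ᶠ z in 𝓝[≠] z₀, w i z ≠ 0) :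
    ∃ J, ∃ h : ι → ℂ → ℂ, (∀ i, AnalyticAt ℂ (h i) z₀) ∧ (h J = fun _ => 1) ∧
      ∀ᶠ z in 𝓝[≠] z₀, ∀ i, w i z = w J z * h i z := by
  classical
  obtain ⟨J, hJ⟩ := Finite.exists_min (fun i => meromorphicOrderAt (w i) z₀)
  have hord : ∀ i, 0 ≤ meromorphicOrderAt (w i / w J) z₀ := by
    intro i
    rw [meromorphicOrderAt_div (hw i) (hw J)]
    have h1 := (meromorphicOrderAt_ne_top_iff_eventually_ne_zero (hw i)).2 (hne i)
    have h2 := (meromorphicOrderAt_ne_top_iff_eventually_ne_zero (hw J)).2 (hne J)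
    have h3 := hJ i
    lift meromorphicOrderAt (w i) z₀ to ℤ using h1 with a
    lift meromorphicOrderAt (w J) z₀ to ℤ using h2 with b
    norm_cast at h3 ⊢
    omega
  have hex : ∀ i, ∃ g : ℂ → ℂ, AnalyticAt ℂ g z₀ ∧ w i / w J =ᶠ[𝓝[≠] z₀] g := fun i =>
    ((hw i).div (hw J)).meromorphicOrderAt_nonneg_iff.1 (hord i)
  choose g hg hwg using hex
  refine ⟨J, fun i => if i = J then fun _ => 1 else g i, ?_, ?_, ?_⟩
  · intro i
    by_cases h : i = J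
    · simp only [h, if_true]
      exact analyticAt_const
    · simp only [h, if_false]
      exact hg i
  · simp
  · have h1 : ∀ᶠ z in 𝓝[≠] z₀, ∀ i, (w i / w J) z = g i z := eventually_all.2 fun i => hwg i
    filter_upwards [h1, hne J] with z hz hz2 i
    by_cases h : i = J
    · simp [h]
    · have := hz i
      simp only [h, if_false]
      rw [← this, Pi.div_apply]
      field_simp

end Pool.Agent.Work.MP_f82ddf_nt
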