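import Pool.Agent.Work.MP_f82ddf_nt.Brody.Spd

/-!
# Comparison functions on projective space
-/

open Topology Filter Metric Set
open scoped LinearAlgebra.Projectivization ComplexConjugate

namespace Pool.Agent.Work.MP_f82ddf_nt

variable {n : ℕ}

/-- The Hermitian product. -/
noncomputable def ip (a x : Fin (n + 1) → ℂ) : ℂ := ∑ i, conj (a i) * x i

/-- The square of the Hermitian norm. -/
noncomputable def ns (x : Fin (n + 1) → ℂ) : ℝ := ∑ i, Complex.normSq (x i)

/-- The squared cosine of the angle. -/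
noncomputable def psi (a x : Fin (n + 1) → ℂ) : ℝ := Complex.normSq (ip a x) / (ns a * ns x)

theorem ns_nonneg (x : Fin (n + 1) → ℂ) : 0 ≤ ns x :=
  Finset.sum_nonneg fun _ _ => Complex.normSq_nonneg _

theorem normSq_le_ns (x : Fin (n + 1) → ℂ) (i : Fin (n + 1)) : Complex.normSq (x i) ≤ ns x :=
  Finset.single_le_sum (f := fun i => Complex.normSq (x i)) (fun _ _ => Complex.normSq_nonneg _)
    (Finset.mem_univ i)

theorem norm_sq_le_ns (x : Fin (n + 1) → ℂ) : ‖x‖ ^ 2 ≤ ns x := by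
  obtain ⟨i, hi⟩ := Finite.exists_max (fun i => ‖x i‖)
  have h1 : ‖x‖ = ‖x i‖ :=
    le_antisymm ((pi_norm_le_iff_of_nonneg (norm_nonneg _)).2 hi) (norm_le_pi_norm x i)
  rw [h1, ← Complex.normSq_eq_norm_sq]
  exact normSq_le_ns x i

theorem ns_pos {x : Fin (n + 1) → ℂ} (hx : x ≠ 0) : 0 < ns x :=
  lt_of_lt_of_le (by have := norm_pos_iff.2 hx; positivity) (norm_sq_le_ns x)

theorem ip_smul (a x : Fin (n + 1) → ℂ) (c : ℂ) : ip a (c • x) = c * ip a x := by
  unfold ip
  rw [Finset.mul_sum]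
  refine Finset.sum_congr rfl fun i _ => ?_
  simp only [Pi.smul_apply, smul_eq_mul]
  ring

theorem ns_smul (x : Fin (n + 1) → ℂ) (c : ℂ) : ns (c • x) = Complex.normSq c * ns x := by
  unfold ns
  rw [Finset.mul_sum]
  refine Finset.sum_congr rfl fun i _ => ?_
  simp only [Pi.smul_apply, smul_eq_mul, map_mul]

theorem psi_smul (a x : Fin (n + 1) → ℂ) {c : ℂ} (hc : c ≠ 0) : psi a (c • x) = psi a x := by
  unfold psi
  rw [ip_smul, ns_smul, map_mul, mul_left_comm]
  exact mul_div_mul_left _ _ (by simpa using hc)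

theorem ip_self (a : Fin (n + 1) → ℂ) : ip a a = (ns a : ℂ) := by
  unfold ip ns
  push_cast
  refine Finset.sum_congr rfl fun i _ => ?_
  rw [Complex.normSq_eq_conj_mul_self]

theorem psi_self {a : Fin (n + 1) → ℂ} (ha : a ≠ 0) : psi a a = 1 := by
  unfold psi
  rw [ip_self, Complex.normSq_ofReal]
  have := (ns_pos ha).ne'
  field_simp

theorem norm_ip_le (a x : Fin (n + 1) → ℂ) : ‖ip a x‖ ≤ (n + 1) * ‖a‖ * ‖x‖ := by
  unfold ip
  refine (norm_sum_le _ _).trans ?_
  have h : ∀ i ∈ (Finset.univ : Finset (Fin (n + 1))), ‖conj (a i) * x i‖ ≤ ‖a‖ * ‖x‖ := by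
    intro i _
    rw [norm_mul, RCLike.norm_conj]
    exact mul_le_mul (norm_le_pi_norm a i) (norm_le_pi_norm x i) (norm_nonneg _) (norm_nonneg _)
  refine (Finset.sum_le_card_nsmul _ _ _ h).trans (le_of_eq ?_)
  rw [Finset.card_univ, Fintype.card_fin, nsmul_eq_mul]
  push_cast
  ring

/-- Strict Cauchy-Schwarz inequality. -/
theorem psi_lt_one {a x : Fin (n + 1) → ℂ} (ha : a ≠ 0) (hx : x ≠ 0)
    (h : ∀ c : ℂ, x ≠ c • a) : psi a x < 1 := by
  have hnsa := ns_pos ha
  have hnsx := ns_pos hx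
  unfold psi
  rw [div_lt_one (mul_pos hnsa hnsx)]
  -- the orthogonal component
  set c : ℂ := ip a x / ns a with hc
  set y : Fin (n + 1) → ℂ := x - c • a with hy
  have hy0 : y ≠ 0 := by
    intro h0
    exact h c (sub_eq_zero.1 h0)
  have h1 := ns_pos hy0
  have h2 : (ns y : ℂ) = ns x - Complex.normSq (ip a x) / ns a := by
    have e1 : (ns y : ℂ) = ip y y := (ip_self y).symm
    have e2 : ip y y = ip x x - conj c * ip a x - c * conj (ip a x) + conj c * c * ns a := by
      rw [← ip_self a]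
      unfold ip
      rw [map_sum, Finset.mul_sum, Finset.mul_sum, Finset.mul_sum, ← Finset.sum_sub_distrib,
        ← Finset.sum_sub_distrib, ← Finset.sum_add_distrib]
      refine Finset.sum_congr rfl fun i _ => ?_
      simp only [hy, Pi.sub_apply, Pi.smul_apply, smul_eq_mul, map_sub, map_mul, Complex.conj_conj]
      ring
    have hne : (ns a : ℂ) ≠ 0 := by exact_mod_cast hnsa.ne'
    rw [e1, e2, ip_self, hc, map_div₀, Complex.conj_ofReal, Complex.normSq_eq_conj_mul_self]
    field_simp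
    ring
  have h3 : ns y = ns x - Complex.normSq (ip a x) / ns a := by exact_mod_cast h2
  rw [h3, sub_pos, div_lt_iff₀ hnsa] at h1
  linarith

/-- The comparison function on projective space. -/
noncomputable def Psi (a : Fin (n + 1) → ℂ) (p : PSpace ℂ n) : ℝ := psi a p.rep

theorem Psi_mk (a x : Fin (n + 1) → ℂ) (hx : x ≠ 0) : Psi a (Projectivization.mk ℂ x hx) = psi a x := by
  obtain ⟨c, hc⟩ := Projectivization.exists_smul_eq_mk_rep ℂ x hx
  unfold Psi
  rw [← hc]
  exact psi_smul a x c.ne_zero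

/-- The constant in the Lipschitz estimates. -/
def kap (n : ℕ) : ℝ := 2 * ((n : ℝ) + 1) ^ 3

theorem kap_pos (n : ℕ) : 0 < kap n := by
  unfold kap
  positivity

/-- The derivative of the comparison functions along a line. -/
theorem psi_hasDerivAt {a : Fin (n + 1) → ℂ} (ha : a ≠ 0) {g : ℂ → Fin (n + 1) → ℂ} {z v : ℂ}
    {t : ℝ} (hg : DifferentiableAt ℂ g (z + t * v)) (hg0 : g (z + t * v) ≠ 0) :
    ∃ D : ℝ, HasDerivAt (fun t : ℝ => psi a (g (z + t * v))) D t ∧
      |D| ≤ kap n * ‖v‖ * sd g (z + t * v) := by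
  set x : Fin (n + 1) → ℂ := g (z + t * v) with hx
  set x' : Fin (n + 1) → ℂ := deriv g (z + t * v) with hx'
  -- the path
  have hpath : HasDerivAt (fun t : ℝ => z + (t : ℂ) * v) v t := by
    have h1 : HasDerivAt (fun t : ℝ => (t : ℂ)) 1 t := Complex.ofRealCLM.hasDerivAt
    simpa using (h1.mul_const v).const_add z
  have hG : HasDerivAt (fun t : ℝ => g (z + t * v)) (v • x') t :=
    HasDerivAt.scomp t (hg.hasDerivAt) hpath
  have hGi : ∀ i, HasDerivAt (fun t : ℝ => g (z + t * v) i) (v * x' i) t := fun i =>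
    (hasDerivAt_pi.1 hG) i
  have hnormSq : ∀ {u : ℝ → ℂ} {u' : ℂ}, HasDerivAt u u' t →
      HasDerivAt (fun t => Complex.normSq (u t)) (2 * (conj (u t) * u').re) t := by
    intro u u' hu
    have hre : HasDerivAt (fun t => (u t).re) u'.re t :=
      (Complex.reCLM.hasFDerivAt.comp_hasDerivAt t hu)
    have him : HasDerivAt (fun t => (u t).im) u'.im t :=
      (Complex.imCLM.hasFDerivAt.comp_hasDerivAt t hu)
    have h1 := (hre.fun_mul hre).fun_add (him.fun_mul him)
    have h2 : (fun t => Complex.normSq (u t)) = fun t => (u t).re * (u t).re + (u t).im * (u t).im :=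
      funext fun t => Complex.normSq_apply _
    rw [h2]
    refine h1.congr_deriv ?_
    rw [Complex.mul_re, Complex.conj_re, Complex.conj_im]
    ring
  have hN : HasDerivAt (fun t : ℝ => ns (g (z + t * v)))
      (∑ i, 2 * (conj (x i) * (v * x' i)).re) t := by
    unfold ns
    exact HasDerivAt.fun_sum fun i _ => hnormSq (hGi i)
  have hs : HasDerivAt (fun t : ℝ => ip a (g (z + t * v))) (v * ip a x') t := by
    have h1 : HasDerivAt (fun t : ℝ => ip a (g (z + t * v))) (∑ i, conj (a i) * (v * x' i)) t := by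
      unfold ip
      exact HasDerivAt.fun_sum fun i _ => (hGi i).const_mul _
    convert h1 using 1
    unfold ip
    rw [Finset.mul_sum]
    exact Finset.sum_congr rfl fun i _ => by ring
  have hS := hnormSq hs
  have hA := ns_pos ha
  have hNx : 0 < ns x := ns_pos hg0
  have hD := hS.fun_div (hN.const_mul (ns a)) (mul_pos hA hNx).ne'
  refine ⟨_, hD, ?_⟩
  have hcr : ∀ i j, ‖x i * x' j - x j * x' i‖ ≤ sd g (z + t * v) * ‖x‖ ^ 2 := by
    intro i j
    unfold sd
    rw [← hx, ← hx', div_mul_cancel₀ _ (pow_ne_zero 2 (norm_ne_zero_iff.2 hg0))]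
    exact norm_le_pi_norm (fun ij : Fin (n + 1) × Fin (n + 1) =>
      x ij.1 * x' ij.2 - x ij.2 * x' ij.1) (i, j)
  set s := ip a x with hsdef
  set sdz := sd g (z + t * v) with hsdz
  -- numerator of the derivative
  have hnum : 2 * (conj s * (v * ip a x')).re * (ns a * ns x) -
      Complex.normSq s * (ns a * ∑ i, 2 * (conj (x i) * (v * x' i)).re) =
      ns a * (2 * (conj s * v * ∑ j, ∑ i, conj (a j) * conj (x i) * (x i * x' j - x j * x' i)).re)
      := by
    have e1 : ((ns x : ℝ) : ℂ) = ∑ i, conj (x i) * x i := by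
      rw [← ip_self]
      rfl
    have e2 : ∑ j, ∑ i, conj (a j) * conj (x i) * (x i * x' j - x j * x' i) =
        ip a x' * ns x - s * ∑ i, conj (x i) * x' i := by
      rw [e1, hsdef]
      unfold ip
      rw [Finset.sum_mul_sum, Finset.sum_mul_sum, ← Finset.sum_sub_distrib]
      refine Finset.sum_congr rfl fun j _ => ?_
      rw [← Finset.sum_sub_distrib]
      refine Finset.sum_congr rfl fun i _ => ?_
      ring
    rw [e2]
    have e3 : (∑ i, 2 * (conj (x i) * (v * x' i)).re) =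
        2 * (v * ∑ i, conj (x i) * x' i).re := by
      rw [Finset.mul_sum, Complex.re_sum, Finset.mul_sum]
      refine Finset.sum_congr rfl fun i _ => ?_
      congr 2
      ring
    rw [e3]
    have e4 : Complex.normSq s * (2 * (v * ∑ i, conj (x i) * x' i).re) =
        2 * (conj s * v * (s * ∑ i, conj (x i) * x' i)).re := by
      have : conj s * v * (s * ∑ i, conj (x i) * x' i) =
          (Complex.normSq s : ℂ) * (v * ∑ i, conj (x i) * x' i) := by
        rw [Complex.normSq_eq_conj_mul_self]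
        ring
      rw [this, Complex.re_ofReal_mul]
      ring
    have e5 : 2 * (conj s * (v * ip a x')).re * ns x = 2 * (conj s * v * (ip a x' * ns x)).re := by
      have : conj s * v * (ip a x' * ns x) = (ns x : ℂ) * (conj s * (v * ip a x')) := by ring
      rw [this, Complex.re_ofReal_mul]
      ring
    rw [mul_sub, Complex.sub_re, mul_sub, ← e5, ← e4]
    ring
  rw [hnum, abs_div, abs_of_pos (by positivity : (0 : ℝ) < (ns a * ns x) ^ 2), div_le_iff₀
    (by positivity)]
  have hT : ‖∑ j, ∑ i, conj (a j) * conj (x i) * (x i * x' j - x j * x' i)‖ ≤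
      ((n : ℝ) + 1) ^ 2 * (‖a‖ * ‖x‖ * (sdz * ‖x‖ ^ 2)) := by
    refine (norm_sum_le _ _).trans ?_
    have h1 : ∀ j ∈ (Finset.univ : Finset (Fin (n + 1))),
        ‖∑ i, conj (a j) * conj (x i) * (x i * x' j - x j * x' i)‖ ≤
        ((n : ℝ) + 1) * (‖a‖ * ‖x‖ * (sdz * ‖x‖ ^ 2)) := by
      intro j _
      refine (norm_sum_le _ _).trans ?_
      have h2 : ∀ i ∈ (Finset.univ : Finset (Fin (n + 1))),
          ‖conj (a j) * conj (x i) * (x i * x' j - x j * x' i)‖ ≤
          ‖a‖ * ‖x‖ * (sdz * ‖x‖ ^ 2) := by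
        intro i _
        rw [norm_mul, norm_mul, RCLike.norm_conj, RCLike.norm_conj]
        apply mul_le_mul
        · exact mul_le_mul (norm_le_pi_norm a j) (norm_le_pi_norm x i) (norm_nonneg _)
            (norm_nonneg _)
        · exact hcr i j
        · exact norm_nonneg _
        · positivity
      refine (Finset.sum_le_card_nsmul _ _ _ h2).trans (le_of_eq ?_)
      rw [Finset.card_univ, Fintype.card_fin, nsmul_eq_mul]
      push_cast
      ring
    refine (Finset.sum_le_card_nsmul _ _ _ h1).trans (le_of_eq ?_)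
    rw [Finset.card_univ, Fintype.card_fin, nsmul_eq_mul]
    push_cast
    ring
  have hsd0 : 0 ≤ sdz := sd_nonneg _ _
  have hs1 : ‖s‖ ≤ ((n : ℝ) + 1) * ‖a‖ * ‖x‖ := norm_ip_le a x
  have ha2 := norm_sq_le_ns a
  have hx2 := norm_sq_le_ns x
  have hre : |(conj s * v * ∑ j, ∑ i, conj (a j) * conj (x i) * (x i * x' j - x j * x' i)).re| ≤
      (((n : ℝ) + 1) * ‖a‖ * ‖x‖) * ‖v‖ *
        (((n : ℝ) + 1) ^ 2 * (‖a‖ * ‖x‖ * (sdz * ‖x‖ ^ 2))) := by
    refine (Complex.abs_re_le_norm _).trans ?_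
    rw [norm_mul, norm_mul, RCLike.norm_conj]
    apply mul_le_mul _ hT (norm_nonneg _) (by positivity)
    exact mul_le_mul_of_nonneg_right hs1 (norm_nonneg _)
  rw [abs_mul, abs_of_pos hA, abs_mul, abs_two]
  have h4 : (((n : ℝ) + 1) * ‖a‖ * ‖x‖) * ‖v‖ *
        (((n : ℝ) + 1) ^ 2 * (‖a‖ * ‖x‖ * (sdz * ‖x‖ ^ 2))) =
      ((n : ℝ) + 1) ^ 3 * ‖v‖ * sdz * (‖a‖ ^ 2 * (‖x‖ ^ 2 * ‖x‖ ^ 2)) := by ring
  rw [h4] at hre
  have h5 : ‖a‖ ^ 2 * (‖x‖ ^ 2 * ‖x‖ ^ 2) ≤ ns a * (ns x * ns x) := by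
    apply mul_le_mul ha2 _ (by positivity) hA.le
    exact mul_le_mul hx2 hx2 (by positivity) hNx.le
  have h6 : 0 ≤ ((n : ℝ) + 1) ^ 3 * ‖v‖ * sdz := by positivity
  calc ns a * (2 * |(conj s * v *
        ∑ j, ∑ i, conj (a j) * conj (x i) * (x i * x' j - x j * x' i)).re|)
      ≤ ns a * (2 * (((n : ℝ) + 1) ^ 3 * ‖v‖ * sdz * (ns a * (ns x * ns x)))) := by
        apply mul_le_mul_of_nonneg_left _ hA.le
        apply mul_le_mul_of_nonneg_left _ (by norm_num)
        exact hre.trans (mul_le_mul_of_nonneg_left h5 h6)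
    _ = kap n * ‖v‖ * sdz * (ns a * ns x) ^ 2 := by
        unfold kap
        ring

end Pool.Agent.Work.MP_f82ddf_nt
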