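import Pool.Agent.Work.MP_f82ddf_nt.Brody.CartanMain

/-!
# Linear relations between powers of meromorphic functions
-/

open Topology Filter Metric Set

namespace Pool.Agent.Work.MP_f82ddf_nt

/-- Two meromorphic functions with proportional powers are proportional. -/
theorem prop_of_pow {k : ℕ} (hk : 0 < k) {u v : ℂ → ℂ} (hu : ∀ z, MeromorphicAt u z)
    (hv : ∀ z, MeromorphicAt v z) (hu0 : ∀ z₀, ∀ᶠ z in 𝓝[≠] z₀, u z ≠ 0)
    (hv0 : ∀ z₀, ∀ᶠ z in 𝓝[≠] z₀, v z ≠ 0) {e : ℂ}
    (h : ∀ z₀, ∀ᶠ z in 𝓝[≠] z₀, u z ^ k = e * v z ^ k) :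
    ∃ a : ℂ, ∀ z₀, ∀ᶠ z in 𝓝[≠] z₀, u z = a * v z := by
  obtain ⟨z₁, h1⟩ := ((ev_ev (h 0)).and ((ev_ev (hu0 0)).and ((ev_ev (hv0 0)).and
    ((ev_ev (hu 0).eventually_analyticAt).and (ev_ev (hv 0).eventually_analyticAt))))).exists
  have h2 := h1.1.and (h1.2.1.and (h1.2.2.1.and (h1.2.2.2.1.and h1.2.2.2.2)))
  obtain ⟨ε, hε, hball⟩ := Metric.eventually_nhds_iff_ball.1 h2
  -- the quotient is constant on the ball
  have hq : ∀ z ∈ ball z₁ ε, u z / v z = u z₁ / v z₁ := by
    intro z hz
    have hd : DifferentiableOn ℂ (fun z => u z / v z) (ball z₁ ε) := fun y hy =>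
      ((hball y hy).2.2.2.1.differentiableAt.fun_div (hball y hy).2.2.2.2.differentiableAt
        (hball y hy).2.2.1).differentiableWithinAt
    refine isOpen_ball.is_const_of_deriv_eq_zero (convex_ball z₁ ε).isPreconnected hd ?_ hz
      (mem_ball_self hε)
    intro y hy
    have hpow : (fun z => (u z / v z) ^ k) =ᶠ[𝓝 y] fun _ => e := by
      filter_upwards [isOpen_ball.mem_nhds hy] with x hx
      rw [div_pow, (hball x hx).1, mul_div_assoc, div_self (pow_ne_zero _ (hball x hx).2.2.1),
        mul_one]
    have h3 : HasDerivAt (fun z => u z / v z) (deriv (fun z => u z / v z) y) y :=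
      (hd.differentiableAt (isOpen_ball.mem_nhds hy)).hasDerivAt
    have h4 := (h3.fun_pow k).deriv
    rw [hpow.deriv_eq, deriv_const] at h4
    have h5 : (k : ℂ) * (u y / v y) ^ (k - 1) ≠ 0 :=
      mul_ne_zero (by exact_mod_cast hk.ne')
        (pow_ne_zero _ (div_ne_zero (hball y hy).2.1 (hball y hy).2.2.1))
    exact (mul_eq_zero.1 h4.symm).resolve_left h5
  refine ⟨u z₁ / v z₁, fun z₀ => ?_⟩
  have h6 := mero_zero (g := fun z => u z - u z₁ / v z₁ * v z)
    (fun z => (hu z).sub ((MeromorphicAt.const _ z).mul (hv z))) (z₁ := z₁) (by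
      apply nhdsWithin_le_nhds
      filter_upwards [isOpen_ball.mem_nhds (mem_ball_self hε)] with z hz
      rw [← hq z hz, div_mul_cancel₀ _ (hball z hz).2.2.1, sub_self]) z₀
  filter_upwards [h6] with z hz
  exact sub_eq_zero.1 hz

/-- A nontrivial relation between few high powers forces two functions to be proportional. -/
theorem exists_prop_pair {ι : Type*} [Fintype ι] {N k : ℕ} (hN : Fintype.card ι ≤ N)
    (hk : N * (N - 2) < k) (w : ι → ℂ → ℂ) (hw : ∀ i z, MeromorphicAt (w i) z)
    (hne : ∀ i z₀, ∀ᶠ z in 𝓝[≠] z₀, w i z ≠ 0) (c : ι → ℂ) (hc : c ≠ 0)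
    (hrel : ∀ z₀, ∀ᶠ z in 𝓝[≠] z₀, ∑ i, c i * w i z ^ k = 0) :
    ∃ i j, i ≠ j ∧ c i ≠ 0 ∧ c j ≠ 0 ∧ ∃ a : ℂ, ∀ z₀, ∀ᶠ z in 𝓝[≠] z₀, w i z = a * w j z := by
  classical
  have hk0 : 0 < k := by omega
  set 𝒞 : Set (ι → ℂ) := {b | b ≠ 0 ∧ (∀ i, c i = 0 → b i = 0) ∧
    ∀ z₀, ∀ᶠ z in 𝓝[≠] z₀, ∑ i, b i * w i z ^ k = 0} with h𝒞
  obtain ⟨b, ⟨hb0, hbc, hbrel⟩, hmin⟩ := WellFounded.has_min
    (InvImage.wf (fun b : ι → ℂ => (Finset.univ.filter fun i => b i ≠ 0).card)
      (wellFounded_lt (α := ℕ))) 𝒞 ⟨c, hc, fun i hi => hi, hrel⟩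
  set T : Finset ι := Finset.univ.filter fun i => b i ≠ 0 with hT
  have hmemT : ∀ i, i ∈ T ↔ b i ≠ 0 := fun i => by simp [hT]
  have hsumT : ∀ z, ∑ i, b i * w i z ^ k = ∑ i ∈ T, b i * w i z ^ k := by
    intro z
    symm
    apply Finset.sum_subset (Finset.subset_univ _)
    intro i _ hi
    rw [hmemT, not_not] at hi
    rw [hi, zero_mul]
  have hTne : T.Nonempty := by
    by_contra hcon
    rw [Finset.not_nonempty_iff_eq_empty] at hcon
    apply hb0
    funext i
    by_contra h0
    have : i ∈ T := (hmemT i).2 h0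
    rw [hcon] at this
    exact absurd this (Finset.notMem_empty i)
  have hcT : ∀ i ∈ T, c i ≠ 0 := fun i hi h0 => (hmemT i).1 hi (hbc i h0)
  have hcardT : T.card ≤ N := (Finset.card_le_univ T).trans hN
  rcases Nat.lt_or_ge T.card 3 with h3 | h3
  · have hpos := Finset.card_pos.2 hTne
    have h12 : T.card = 1 ∨ T.card = 2 := by omega
    rcases h12 with h1 | h2
    · obtain ⟨i, hi⟩ := Finset.card_eq_one.1 h1
      exfalso
      have hiT : i ∈ T := by rw [hi]; exact Finset.mem_singleton_self i
      obtain ⟨z, hz1, hz2⟩ := ((hbrel 0).and (hne i 0)).exists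
      rw [hsumT, hi, Finset.sum_singleton] at hz1
      exact mul_ne_zero ((hmemT i).1 hiT) (pow_ne_zero _ hz2) hz1
    · obtain ⟨i, j, hij, hTij⟩ := Finset.card_eq_two.1 h2
      have hiT : i ∈ T := by rw [hTij]; simp
      have hjT : j ∈ T := by rw [hTij]; simp
      have hbi := (hmemT i).1 hiT
      refine ⟨i, j, hij, hcT i hiT, hcT j hjT, ?_⟩
      refine prop_of_pow hk0 (hw i) (hw j) (hne i) (hne j) (e := -b j / b i) fun z₀ => ?_
      filter_upwards [hbrel z₀] with z hz
      rw [hsumT, hTij, Finset.sum_pair hij] at hz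
      field_simp
      linear_combination hz
  · exfalso
    obtain ⟨r, hr⟩ : ∃ r, T.card = r + 2 := ⟨T.card - 2, by omega⟩
    have hr1 : 1 ≤ r := by omega
    have hkr : r * (r + 2) < k := by
      have h1 : r + 2 ≤ N := hr ▸ hcardT
      have h2 : r ≤ N - 2 := by omega
      calc r * (r + 2) ≤ (N - 2) * N := Nat.mul_le_mul h2 h1
        _ = N * (N - 2) := Nat.mul_comm _ _
        _ < k := hk
    have e : Fin (r + 2) ≃ T := (finCongr hr.symm).trans T.equivFin.symm
    have hroot : ∀ i : Fin (r + 2), ∃ g : ℂ, g ^ k = b (e i) := fun i =>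
      IsAlgClosed.exists_pow_nat_eq _ hk0
    choose g hg using hroot
    have hg0 : ∀ i, g i ≠ 0 := by
      intro i h0
      have h1 := hg i
      rw [h0, zero_pow hk0.ne'] at h1
      exact (hmemT _).1 (e i).2 h1.symm
    have hsumFin : ∀ d : Fin (r + 2) → ℂ, ∀ z,
        ∑ x ∈ T, (if h : x ∈ T then d (e.symm ⟨x, h⟩) else 0) * b x * w x z ^ k =
        ∑ i, d i * (g i * w (e i) z) ^ k := by
      intro d z
      rw [← Finset.sum_coe_sort T (fun x => (if h : x ∈ T then d (e.symm ⟨x, h⟩) else 0) * b x *
        w x z ^ k), ← e.sum_comp]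
      refine Finset.sum_congr rfl fun i _ => ?_
      rw [dif_pos (e i).2, Subtype.coe_eta, e.symm_apply_apply, mul_pow, hg]
      ring
    refine no_curve hr1 hkr (fun i z => g i * w (e i) z) ?_ ?_ ?_ ?_
    · intro i z
      exact (MeromorphicAt.const _ z).mul (hw _ z)
    · intro i z₀
      filter_upwards [hne (e i) z₀] with z hz
      exact mul_ne_zero (hg0 i) hz
    · intro z₀
      filter_upwards [hbrel z₀] with z hz
      rw [hsumT] at hz
      have h1 := hsumFin (fun _ => 1) z
      simp only [one_mul] at h1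
      rw [← h1, ← hz]
      refine Finset.sum_congr rfl fun x hx => ?_
      rw [dif_pos hx, one_mul]
    · intro c'' hc''
      by_contra hne0
      set d : Fin (r + 2) → ℂ := Fin.snoc c'' 0 with hd
      have hdl : d (Fin.last (r + 1)) = 0 := by
        rw [hd]
        exact Fin.snoc_last _ _
      have hdc : ∀ i : Fin (r + 1), d i.castSucc = c'' i := by
        intro i
        rw [hd]
        exact Fin.snoc_castSucc _ _ _
      set b' : ι → ℂ := fun x => (if h : x ∈ T then d (e.symm ⟨x, h⟩) else 0) * b x with hb'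
      have hb'sub : ∀ x, b' x ≠ 0 → x ∈ T := by
        intro x hx
        by_contra hxT
        apply hx
        rw [hb']
        simp only [dif_neg hxT, zero_mul]
      apply hmin b'
      · refine ⟨?_, ?_, ?_⟩
        · intro h0
          apply hne0
          funext i
          have h1 := congrFun h0 (e i.castSucc)
          rw [hb'] at h1
          simp only [dif_pos (e i.castSucc).2, Subtype.coe_eta, e.symm_apply_apply] at h1
          rw [hdc] at h1
          exact (mul_eq_zero.1 h1).resolve_right ((hmemT _).1 (e i.castSucc).2)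
        · intro x hx
          have : b x = 0 := hbc x hx
          rw [hb']
          simp only [this, mul_zero]
        · intro z₀
          filter_upwards [hc'' z₀] with z hz
          have h1 : ∑ x, b' x * w x z ^ k = ∑ x ∈ T, b' x * w x z ^ k := by
            symm
            apply Finset.sum_subset (Finset.subset_univ _)
            intro x _ hx
            have : b' x = 0 := by
              by_contra h0
              exact hx (hb'sub x h0)
            rw [this, zero_mul]
          rw [h1, hb']
          simp only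
          rw [hsumFin d z, Fin.sum_univ_castSucc, hdl, zero_mul, add_zero, ← hz]
          refine Finset.sum_congr rfl fun i _ => ?_
          rw [hdc]
      · show (Finset.univ.filter fun i => b' i ≠ 0).card < (Finset.univ.filter fun i => b i ≠ 0).card
        apply Finset.card_lt_card
        rw [Finset.ssubset_iff_of_subset]
        · refine ⟨e (Fin.last (r + 1)), (e (Fin.last (r + 1))).2, ?_⟩
          simp only [Finset.mem_filter, Finset.mem_univ, true_and, not_not]
          rw [hb']
          simp only [dif_pos (e (Fin.last (r + 1))).2, Subtype.coe_eta, e.symm_apply_apply]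
          rw [hdl, zero_mul]
        · intro x hx
          simp only [Finset.mem_filter, Finset.mem_univ, true_and] at hx
          exact hb'sub x hx

/-- The partial sums of a relation over the level sets of a function which is constant on the
classes of proportional functions vanish. -/
theorem level_sums {ι : Type*} [Fintype ι] {N k : ℕ} (hN : Fintype.card ι ≤ N)
    (hk : N * (N - 2) < k) (w : ι → ℂ → ℂ) (hw : ∀ i z, MeromorphicAt (w i) z)
    (hne : ∀ i z₀, ∀ᶠ z in 𝓝[≠] z₀, w i z ≠ 0) (W : ι → ℤ)
    (hW : ∀ i j, (∃ a : ℂ, ∀ z₀, ∀ᶠ z in 𝓝[≠] z₀, w i z = a * w j z) → W i = W j) (m : ℕ) :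
    ∀ c : ι → ℂ, (Finset.univ.filter fun i => c i ≠ 0).card ≤ m →
      (∀ z₀, ∀ᶠ z in 𝓝[≠] z₀, ∑ i, c i * w i z ^ k = 0) →
      ∀ ω z₀, ∀ᶠ z in 𝓝[≠] z₀, ∑ i with W i = ω, c i * w i z ^ k = 0 := by
  classical
  induction m with
  | zero =>
    intro c hc _ ω z₀
    have h0 : ∀ i, c i = 0 := by
      intro i
      by_contra h
      have h1 : i ∈ (Finset.univ.filter fun i => c i ≠ 0) := by simp [h]
      rw [Finset.card_eq_zero.1 (Nat.le_zero.1 hc)] at h1
      exact absurd h1 (Finset.notMem_empty i)
    refine Eventually.of_forall fun z => ?_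
    exact Finset.sum_eq_zero fun i _ => by rw [h0 i, zero_mul]
  | succ m ih =>
    intro c hc hrel ω z₀
    by_cases hc0 : c = 0
    · refine Eventually.of_forall fun z => ?_
      exact Finset.sum_eq_zero fun i _ => by rw [hc0]; simp
    · obtain ⟨i, j, hij, hci, hcj, a, ha⟩ := exists_prop_pair hN hk w hw hne c hc0 hrel
      set c' : ι → ℂ := fun x => c x + (if x = j then a ^ k * c i else 0) -
        (if x = i then c i else 0) with hc'
      have hsum : ∀ (s : Finset ι), (i ∈ s ↔ j ∈ s) → ∀ z, w i z = a * w j z →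
          ∑ x ∈ s, c' x * w x z ^ k = ∑ x ∈ s, c x * w x z ^ k := by
        intro s hs z hz
        have h1 : ∀ x ∈ s, c' x * w x z ^ k = c x * w x z ^ k +
            (if x = j then a ^ k * c i * w j z ^ k else 0) -
            (if x = i then c i * w i z ^ k else 0) := by
          intro x _
          rw [hc']
          by_cases hxj : x = j
          · by_cases hxi : x = i
            · exact absurd (hxi.symm.trans hxj) hij
            · simp only [if_pos hxj, if_neg hxi]
              rw [hxj]
              ring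
          · by_cases hxi : x = i
            · simp only [if_neg hxj, if_pos hxi]
              rw [hxi]
              ring
            · simp only [if_neg hxj, if_neg hxi]
              ring
        rw [Finset.sum_congr rfl h1, Finset.sum_sub_distrib, Finset.sum_add_distrib,
          Finset.sum_ite_eq', Finset.sum_ite_eq']
        by_cases hjs : j ∈ s
        · rw [if_pos hjs, if_pos (hs.2 hjs), hz, mul_pow]
          ring
        · rw [if_neg hjs, if_neg fun h => hjs (hs.1 h)]
          ring
      have hc'card : (Finset.univ.filter fun x => c' x ≠ 0).card ≤ m := by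
        have h1 : (Finset.univ.filter fun x => c' x ≠ 0) ⊂
            (Finset.univ.filter fun x => c x ≠ 0) := by
          rw [Finset.ssubset_iff_of_subset]
          · refine ⟨i, by simp [hci], ?_⟩
            simp only [Finset.mem_filter, Finset.mem_univ, true_and, not_not]
            rw [hc']
            simp only [if_neg hij, if_true]
            ring
          · intro x hx
            simp only [Finset.mem_filter, Finset.mem_univ, true_and] at hx ⊢
            intro h0
            apply hx
            rw [hc']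
            have hxi : x ≠ i := fun h => hci (h ▸ h0)
            have hxj : x ≠ j := fun h => hcj (h ▸ h0)
            simp only [if_neg hxi, if_neg hxj, h0]
            ring
        have h2 := Finset.card_lt_card h1
        omega
      have hrel' : ∀ z₀, ∀ᶠ z in 𝓝[≠] z₀, ∑ x, c' x * w x z ^ k = 0 := by
        intro z₀
        filter_upwards [hrel z₀, ha z₀] with z h1 h2
        rw [hsum Finset.univ (by simp) z h2, h1]
      have h3 := ih c' hc'card hrel' ω z₀
      filter_upwards [h3, ha z₀] with z h4 h5
      rw [← h4]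
      refine (hsum _ ?_ z h5).symm
      simp only [Finset.mem_filter, Finset.mem_univ, true_and]
      rw [hW i j ⟨a, ha⟩]

end Pool.Agent.Work.MP_f82ddf_nt
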