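import Pool.Agent.Work.MP_f82ddf_nt.Brody.Coords
import Pool.Agent.Work.MP_f82ddf_nt.SpacedDefs

/-!
# Entire curves in varieties given by forms with few monomials and spaced exponents
-/

open Topology Filter Metric Set MvPolynomial
open scoped LinearAlgebra.Projectivization

namespace Pool.Agent.Work.MP_f82ddf_nt

variable {n : ℕ}

theorem exists_weights_spaced {K : Type*} [Field K] {S : Set (MvPolynomial (Fin (n + 1)) K)}
    (hS : ∀ F ∈ S, ∃ d, F.IsHomogeneous d)
    (hk : ∀ F ∈ S, ∃ k, F.support.card * (F.support.card - 2) < k ∧ Spaced k F)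
    (σ : K →+* ℂ) (f : ℂ → PSpace ℂ n)
    (hf : HolomorphicOn f univ) (hfX : ∀ z, ∀ G ∈ S, eval₂ σ (f z).rep G = 0)
    (hne : ∃ a b, f a ≠ f b) :
    ∃ (w : Fin (n + 1) → ℤ) (P : Fin (n + 1) → ℂ) (i j : Fin (n + 1)), P i ≠ 0 ∧ P j ≠ 0 ∧
      w i ≠ w j ∧ ∀ G ∈ S, ∀ ω, ∑ m ∈ G.support with weightOf w m = ω,
        σ (coeff m G) * ∏ i, P i ^ m i = 0 := by
  classical
  -- the coordinate `i₀`
  obtain ⟨i₀, hi₀⟩ : ∃ i, (f 0).rep i ≠ 0 := by
    by_contra hcon
    push Not at hcon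
    exact (f 0).rep_nonzero (funext hcon)
  set φ : Fin (n + 1) → ℂ → ℂ := crd f i₀ with hφ
  have hφm : ∀ i z, MeromorphicAt (φ i) z := fun i z => crd_mero hf i₀ i z
  have hφ0ne : ∀ z₀, ∀ᶠ z in 𝓝[≠] z₀, φ i₀ z ≠ 0 := by
    apply mero_ne (hφm i₀) (z₁ := 0)
    apply Eventually.frequently
    obtain ⟨g, hg⟩ := hf 0 (mem_univ 0)
    have hg' : IsLift f g 0 := hg
    have h1 := crd_lift hg' i₀ i₀
    have h2 : g 0 i₀ ≠ 0 := by
      intro h0
      have h3 := h1.self_of_nhds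
      rw [h0, div_zero] at h3
      unfold crd at h3
      rw [div_self hi₀] at h3
      exact one_ne_zero h3
    have h3 : ContinuousAt (fun z => g z i₀) 0 := ((analyticAt_pi_iff.1 hg'.1) i₀).continuousAt
    apply nhdsWithin_le_nhds
    filter_upwards [h1, h3.eventually_ne h2] with z h4 h5
    rw [hφ, h4, div_self h5]
    exact one_ne_zero
  have hrep : ∀ z, φ i₀ z ≠ 0 → (f z).rep i₀ ≠ 0 := by
    intro z hz h0
    apply hz
    rw [hφ]
    unfold crd
    rw [h0, div_zero]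
  have hφ1 : ∀ z₀, ∀ᶠ z in 𝓝[≠] z₀, φ i₀ z = 1 := by
    intro z₀
    filter_upwards [hφ0ne z₀] with z hz
    rw [hφ]
    exact div_self (hrep z hz)
  -- the support
  set T : Finset (Fin (n + 1)) := Finset.univ.filter fun i => ∀ᶠ z in 𝓝[≠] (0 : ℂ), φ i z ≠ 0
    with hT
  have hmemT : ∀ i, i ∈ T → ∀ z₀, ∀ᶠ z in 𝓝[≠] z₀, φ i z ≠ 0 := by
    intro i hi
    exact mero_ne (hφm i) ((Finset.mem_filter.1 hi).2).frequently
  have hnotT : ∀ i, i ∉ T → ∀ z₀, ∀ᶠ z in 𝓝[≠] z₀, φ i z = 0 := by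
    intro i hi
    rcases (hφm i 0).eventually_eq_zero_or_eventually_ne_zero with h1 | h1
    · exact mero_zero (hφm i) h1
    · exact absurd (Finset.mem_filter.2 ⟨Finset.mem_univ i, h1⟩) hi
  have hi₀T : i₀ ∈ T := Finset.mem_filter.2 ⟨Finset.mem_univ _, hφ0ne 0⟩
  -- some coordinate is not constant
  obtain ⟨i₁, hi₁⟩ : ∃ i, ¬ ∃ c : ℂ, ∀ z₀, ∀ᶠ z in 𝓝[≠] z₀, φ i z = c := by
    by_contra hcon
    push Not at hcon
    choose c hc using hcon
    have h1 : ∀ z₀, ∃ a : ℂ, (f z₀).rep = a • c := by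
      intro z₀
      obtain ⟨g, hg⟩ := hf z₀ (mem_univ z₀)
      have hg' : IsLift f g z₀ := hg
      have h2 : ∀ i, g z₀ i = c i * g z₀ i₀ := by
        intro i
        have h3 : ∀ᶠ z in 𝓝[≠] z₀, g z i = c i * g z i₀ := by
          filter_upwards [hc i z₀, hφ0ne z₀, nhdsWithin_le_nhds (crd_lift hg' i₀ i),
            nhdsWithin_le_nhds (crd_lift hg' i₀ i₀)] with z a1 a2 a3 a4
          rw [hφ] at a1 a2
          rw [a3] at a1
          rw [a4] at a2
          have a5 : g z i₀ ≠ 0 := by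
            intro h0
            rw [h0, div_zero] at a2
            exact a2 rfl
          rw [← a1]
          field_simp
        exact (eq_of_punctured ((analyticAt_pi_iff.1 hg'.1) i)
          (analyticAt_const.mul ((analyticAt_pi_iff.1 hg'.1) i₀)) h3).self_of_nhds
      obtain ⟨a, ha⟩ := Projectivization.exists_smul_eq_mk_rep ℂ (g z₀) hg'.ne
      refine ⟨a * g z₀ i₀, ?_⟩
      rw [hg'.eq, ← ha]
      funext i
      show (a : ℂ) * g z₀ i = a * g z₀ i₀ * c i
      rw [h2 i]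
      ring
    obtain ⟨a, b, hab⟩ := hne
    apply hab
    obtain ⟨s, hs⟩ := h1 a
    obtain ⟨t, ht⟩ := h1 b
    have ht0 : t ≠ 0 := by
      intro h0
      rw [h0, zero_smul] at ht
      exact (f b).rep_nonzero ht
    rw [← (f a).mk_rep, ← (f b).mk_rep, Projectivization.mk_eq_mk_iff']
    refine ⟨s / t, ?_⟩
    rw [hs, ht, smul_smul, div_mul_cancel₀ _ ht0]
  have hi₁T : i₁ ∈ T := by
    by_contra h0
    exact hi₁ ⟨0, hnotT i₁ h0⟩
  -- the derivative of the coordinate is not identically zero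
  have hder : ∃ᶠ z in 𝓝[≠] (0 : ℂ), deriv (φ i₁) z ≠ 0 := by
    by_contra hcon
    rw [not_frequently] at hcon
    push Not at hcon
    obtain ⟨z₁, h1⟩ := ((ev_ev hcon).and (ev_ev (hφm i₁ 0).eventually_analyticAt)).exists
    have h2 := h1.1.and h1.2
    obtain ⟨ε, hε, hball⟩ := Metric.eventually_nhds_iff_ball.1 h2
    have h3 : ∀ z ∈ ball z₁ ε, φ i₁ z = φ i₁ z₁ := by
      intro z hz
      refine isOpen_ball.is_const_of_deriv_eq_zero (convex_ball z₁ ε).isPreconnected
        (fun y hy => (hball y hy).2.differentiableAt.differentiableWithinAt)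
        (fun y hy => (hball y hy).1) hz (mem_ball_self hε)
    apply hi₁
    refine ⟨φ i₁ z₁, fun z₀ => ?_⟩
    have h6 := mero_zero (g := fun z => φ i₁ z - φ i₁ z₁)
      (fun z => (hφm i₁ z).sub (MeromorphicAt.const _ z)) (z₁ := z₁) (by
        apply nhdsWithin_le_nhds
        filter_upwards [isOpen_ball.mem_nhds (mem_ball_self hε)] with z hz
        rw [h3 z hz, sub_self]) z₀
    filter_upwards [h6] with z hz
    exact sub_eq_zero.1 hz
  -- the point `z₁`
  have hgood : ∀ᶠ z in 𝓝[≠] (0 : ℂ), (∀ i, AnalyticAt ℂ (φ i) z) ∧ (∀ i ∈ T, φ i z ≠ 0) ∧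
      (∀ᶠ y in 𝓝 z, φ i₀ y = 1) := by
    have h1 : ∀ᶠ z in 𝓝[≠] (0 : ℂ), ∀ i, AnalyticAt ℂ (φ i) z :=
      eventually_all.2 fun i => (hφm i 0).eventually_analyticAt
    have h2 : ∀ᶠ z in 𝓝[≠] (0 : ℂ), ∀ i ∈ T, φ i z ≠ 0 :=
      (Finset.eventually_all T).2 fun i hi => hmemT i hi 0
    exact h1.and (h2.and (ev_ev (hφ1 0)))
  obtain ⟨z₁, hd₁, han₁, hne₁, hone₁⟩ := (hder.and_eventually hgood).exists
  -- the weights
  set θ : Fin (n + 1) → ℂ := fun i => logDeriv (φ i) z₁ with hθ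
  have hθ1 : θ i₁ ≠ 0 := div_ne_zero hd₁ (hne₁ i₁ hi₁T)
  have hθ0 : θ i₀ = 0 := by
    rw [hθ]
    simp only
    have h1 : φ i₀ =ᶠ[𝓝 z₁] fun _ => 1 := hone₁
    rw [logDeriv_apply, h1.deriv_eq, deriv_const, zero_div]
  obtain ⟨ℓ, hℓ⟩ := Module.exists_dual_forall_apply_ne_zero (K := ℚ) (M := ℂ)
    (fun _ : Unit => θ i₁) (fun _ => hθ1)
  have hℓ1 : ℓ (θ i₁) ≠ 0 := hℓ ()
  set D : ℕ := ∏ i, (ℓ (θ i)).den with hD
  have hD0 : D ≠ 0 := Finset.prod_ne_zero_iff.2 fun i _ => (ℓ (θ i)).den_nz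
  have hint : ∀ i, ∃ a : ℤ, (a : ℚ) = D * ℓ (θ i) := by
    intro i
    obtain ⟨c, hc⟩ : (ℓ (θ i)).den ∣ D := Finset.dvd_prod_of_mem _ (Finset.mem_univ i)
    refine ⟨c * (ℓ (θ i)).num, ?_⟩
    rw [hc]
    push_cast
    have h1 : ((ℓ (θ i)).den : ℚ) * ℓ (θ i) = (ℓ (θ i)).num := by
      rw [mul_comm]
      exact Rat.mul_den_eq_num _
    linear_combination -(c : ℚ) * h1
  choose w hw using hint
  refine ⟨w, fun i => if i ∈ T then φ i z₁ else 0, i₀, i₁, ?_, ?_, ?_, ?_⟩
  · simp only [if_pos hi₀T]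
    exact hne₁ i₀ hi₀T
  · simp only [if_pos hi₁T]
    exact hne₁ i₁ hi₁T
  · intro h0
    have h1 := hw i₀
    have h2 := hw i₁
    rw [hθ0, map_zero, mul_zero] at h1
    rw [← h0, h1] at h2
    rcases mul_eq_zero.1 h2.symm with h3 | h3
    · exact hD0 (by exact_mod_cast h3)
    · exact hℓ1 h3
  · intro G hG ω
    obtain ⟨d, hd⟩ := hS G hG
    obtain ⟨k, hkN, hsp⟩ := hk G hG
    have hk0 : 0 < k := by omega
    -- monomials supported in `T`
    set M₀ : Finset (Fin (n + 1) →₀ ℕ) := G.support.filter fun m => ∀ i, i ∉ T → m i = 0 with hM₀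
    have hι : ∀ m : M₀, (m : Fin (n + 1) →₀ ℕ) ∈ G.support ∧ ∀ i, i ∉ T → m.1 i = 0 := fun m =>
      Finset.mem_filter.1 m.2
    have hcard : Fintype.card M₀ ≤ G.support.card := by
      rw [Fintype.card_coe]
      exact Finset.card_filter_le _ _
    have hout : ∀ P : Fin (n + 1) → ℂ, (∀ i, i ∉ T → P i = 0) → ∀ m ∈ G.support,
        (¬ ∀ i, i ∉ T → m i = 0) → σ (coeff m G) * ∏ i, P i ^ m i = 0 := by
      intro P hP m _ hm2
      push Not at hm2
      obtain ⟨i, hi, hmi⟩ := hm2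
      rw [Finset.prod_eq_zero (Finset.mem_univ i), mul_zero]
      rw [hP i hi, zero_pow hmi]
    rcases M₀.eq_empty_or_nonempty with hemp | ⟨m₀, hm₀⟩
    · refine Finset.sum_eq_zero fun m hm => ?_
      apply hout _ (fun i hi => if_neg hi) m (Finset.mem_filter.1 hm).1
      intro h
      have : m ∈ M₀ := Finset.mem_filter.2 ⟨(Finset.mem_filter.1 hm).1, h⟩
      rw [hemp] at this
      exact absurd this (Finset.notMem_empty m)
    have hm₀' := Finset.mem_filter.1 hm₀
    have hdiv : ∀ (m : M₀) (i : Fin (n + 1)), ∃ v : ℤ, (m.1 i : ℤ) = m₀ i + k * v := by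
      intro m i
      have h1 := hsp m.1 (hι m).1 m₀ hm₀'.1 i
      obtain ⟨v, hv⟩ := (Nat.modEq_iff_dvd.1 h1.symm)
      exact ⟨v, by linarith⟩
    choose v hv using hdiv
    have hv0 : ∀ (m : M₀) (i : Fin (n + 1)), i ∉ T → v m i = 0 := by
      intro m i hi
      have h1 := hv m i
      rw [(hι m).2 i hi, hm₀'.2 i hi] at h1
      have h2 : (k : ℤ) * v m i = 0 := by
        push_cast at h1
        linarith
      rcases mul_eq_zero.1 h2 with h3 | h3
      · exact absurd (by exact_mod_cast h3) hk0.ne'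
      · exact h3
    let u : M₀ → ℂ → ℂ := fun m z => ∏ i ∈ T, φ i z ^ (v m i)
    have hum : ∀ m z, MeromorphicAt (u m) z := by
      intro m z
      apply MeromorphicAt.fun_prod
      intro i _
      exact (hφm i z).zpow _
    have hune : ∀ m z₀, ∀ᶠ z in 𝓝[≠] z₀, u m z ≠ 0 := by
      intro m z₀
      have h2 : ∀ᶠ z in 𝓝[≠] z₀, ∀ i ∈ T, φ i z ≠ 0 :=
        (Finset.eventually_all T).2 fun i hi => hmemT i hi z₀
      filter_upwards [h2] with z hz
      exact Finset.prod_ne_zero_iff.2 fun i hi => zpow_ne_zero _ (hz i hi)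
    have hua : ∀ m, AnalyticAt ℂ (u m) z₁ := by
      intro m
      apply Finset.analyticAt_fun_prod
      intro i hi
      exact (han₁ i).zpow (hne₁ i hi)
    have hulog : ∀ m, logDeriv (u m) z₁ = ∑ i ∈ T, (v m i : ℂ) * θ i := by
      intro m
      have h1 := logDeriv_prod (s := T) (f := fun i z => φ i z ^ (v m i)) (x := z₁)
        (fun i hi => zpow_ne_zero _ (hne₁ i hi))
        (fun i hi => ((han₁ i).differentiableAt.zpow (Or.inl (hne₁ i hi))))
      have h2 : logDeriv (u m) z₁ = ∑ i ∈ T, logDeriv (fun z => φ i z ^ (v m i)) z₁ := h1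
      rw [h2]
      refine Finset.sum_congr rfl fun i _ => ?_
      exact logDeriv_fun_zpow (han₁ i).differentiableAt _
    have huval : ∀ m, u m z₁ ≠ 0 := fun m =>
      Finset.prod_ne_zero_iff.2 fun i hi => zpow_ne_zero _ (hne₁ i hi)
    have hwt : ∀ m : M₀, ((weightOf w m.1 : ℤ) : ℚ) =
        ((weightOf w m₀ : ℤ) : ℚ) + k * (D * ℓ (logDeriv (u m) z₁)) := by
      intro m
      rw [hulog, map_sum, Finset.mul_sum]
      unfold weightOf
      have h0 : ∑ i, ((m.1 i : ℕ) : ℤ) * w i = ∑ i, ((m₀ i : ℕ) : ℤ) * w i +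
          k * ∑ i ∈ T, v m i * w i := by
        have h1 : ∑ i, v m i * w i = ∑ i ∈ T, v m i * w i := by
          symm
          apply Finset.sum_subset (Finset.subset_univ _)
          intro i _ hi
          rw [hv0 m i hi, zero_mul]
        rw [← h1, Finset.mul_sum, ← Finset.sum_add_distrib]
        refine Finset.sum_congr rfl fun i _ => ?_
        rw [hv m i]
        ring
      rw [h0]
      push_cast
      congr 1
      congr 1
      refine Finset.sum_congr rfl fun i _ => ?_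
      rw [hw i]
      have h2 : ((v m i : ℤ) : ℂ) * θ i = ((v m i : ℤ) : ℚ) • θ i := by
        rw [Rat.smul_def]
        push_cast
        rfl
      rw [h2, map_smul, smul_eq_mul]
      ring
    have hW : ∀ m m' : M₀, (∃ a : ℂ, ∀ z₀, ∀ᶠ z in 𝓝[≠] z₀, u m z = a * u m' z) →
        weightOf w m.1 = weightOf w m'.1 := by
      rintro m m' ⟨a, ha⟩
      have h1 : ∀ᶠ y in 𝓝 z₁, u m y = a * u m' y :=
        eq_of_punctured (hua m) (analyticAt_const.mul (hua m')) (ha z₁)
      have ha0 : a ≠ 0 := by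
        intro h0
        have h2 := h1.self_of_nhds
        rw [h0, zero_mul] at h2
        exact huval m h2
      have h2 : logDeriv (u m) z₁ = logDeriv (u m') z₁ := by
        rw [(logDeriv_congr_nhds h1).eq_of_nhds, logDeriv_const_mul _ _ ha0]
      have h3 : ((weightOf w m.1 : ℤ) : ℚ) = ((weightOf w m'.1 : ℤ) : ℚ) := by
        rw [hwt, hwt, h2]
      exact_mod_cast h3
    -- monomials as powers
    have hpow : ∀ (m : M₀) (z : ℂ), (∀ i ∈ T, φ i z ≠ 0) → ∏ i ∈ T, φ i z ^ (m.1 i) =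
        (∏ i ∈ T, φ i z ^ (m₀ i)) * u m z ^ k := by
      intro m z hz
      rw [← Finset.prod_pow, ← Finset.prod_mul_distrib]
      refine Finset.prod_congr rfl fun i hi => ?_
      rw [← zpow_natCast (φ i z) (m.1 i), hv m i, zpow_add₀ (hz i hi), zpow_natCast, zpow_mul',
        zpow_natCast]
    -- the relation
    have hrel : ∀ z₀, ∀ᶠ z in 𝓝[≠] z₀, ∑ m : M₀, σ (coeff m.1 G) * u m z ^ k = 0 := by
      intro z₀
      have h2 : ∀ᶠ z in 𝓝[≠] z₀, ∀ i, i ∉ T → φ i z = 0 := by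
        rw [eventually_all]
        intro i
        by_cases hi : i ∈ T
        · exact Eventually.of_forall fun z h => absurd hi h
        · filter_upwards [hnotT i hi z₀] with z hz _
          exact hz
      have h2' : ∀ᶠ z in 𝓝[≠] z₀, ∀ i ∈ T, φ i z ≠ 0 :=
        (Finset.eventually_all T).2 fun i hi => hmemT i hi z₀
      filter_upwards [hφ0ne z₀, h2, h2'] with z a1 a2 a2'
      have hr0 := hrep z a1
      have h3 : (f z).rep = ((f z).rep i₀) • fun i => φ i z := by
        funext i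
        show (f z).rep i = (f z).rep i₀ * (φ i z)
        rw [hφ]
        unfold crd
        field_simp
      have h4 := hfX z G hG
      rw [h3, eval₂_smul_hom hd] at h4
      have h5 := (mul_eq_zero.1 h4).resolve_left (pow_ne_zero _ hr0)
      rw [eval₂_eq', ← Finset.sum_filter_add_sum_filter_not G.support
        (fun m => ∀ i, i ∉ T → m i = 0)] at h5
      have h6 : ∑ m ∈ G.support with ¬ ∀ i, i ∉ T → m i = 0,
          σ (coeff m G) * ∏ i, (φ i z) ^ m i = 0 := by
        refine Finset.sum_eq_zero fun m hm => ?_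
        exact hout _ a2 m (Finset.mem_filter.1 hm).1 (Finset.mem_filter.1 hm).2
      rw [h6, add_zero, ← hM₀,
        ← Finset.sum_coe_sort M₀ (fun m => σ (coeff m G) * ∏ i, (φ i z) ^ m i)] at h5
      have h8 : ∏ i ∈ T, φ i z ^ (m₀ i) ≠ 0 :=
        Finset.prod_ne_zero_iff.2 fun i hi => pow_ne_zero _ (a2' i hi)
      apply (mul_eq_zero.1 (_ : (∏ i ∈ T, φ i z ^ (m₀ i)) *
        ∑ m : M₀, σ (coeff m.1 G) * u m z ^ k = 0)).resolve_left h8
      rw [← h5, Finset.mul_sum]
      refine Finset.sum_congr rfl fun m _ => ?_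
      have h7 : ∏ i, (φ i z) ^ (m.1 i) = ∏ i ∈ T, (φ i z) ^ (m.1 i) := by
        symm
        apply Finset.prod_subset (Finset.subset_univ _)
        intro i _ hi
        rw [(hι m).2 i hi, pow_zero]
      rw [h7, hpow m z a2']
      ring
    have hlev := level_sums hcard hkN u hum hune (fun m : M₀ => weightOf w m.1) hW
      (Finset.univ.filter fun m : M₀ => σ (coeff m.1 G) ≠ 0).card
      (fun m => σ (coeff m.1 G)) le_rfl hrel ω z₁
    have hval := (eq_of_punctured (u := fun z => ∑ m : M₀ with weightOf w m.1 = ω,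
      σ (coeff m.1 G) * u m z ^ k) (v := fun _ => 0) (z := z₁) (by
        apply Finset.analyticAt_fun_sum
        intro m _
        exact analyticAt_const.mul ((hua m).pow _)) analyticAt_const hlev).self_of_nhds
    rw [← Finset.sum_filter_add_sum_filter_not (G.support.filter fun m => weightOf w m = ω)
      (fun m => ∀ i, i ∉ T → m i = 0)]
    have h6 : ∑ m ∈ (G.support.filter fun m => weightOf w m = ω) with ¬ ∀ i, i ∉ T → m i = 0,
        σ (coeff m G) * ∏ i, (if i ∈ T then φ i z₁ else 0) ^ m i = 0 := by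
      refine Finset.sum_eq_zero fun m hm => ?_
      obtain ⟨hm1, hm2⟩ := Finset.mem_filter.1 hm
      exact hout _ (fun i hi => if_neg hi) m (Finset.mem_filter.1 hm1).1 hm2
    rw [h6, add_zero, Finset.filter_comm, ← hM₀]
    have e1 : ∑ m ∈ M₀ with weightOf w m = ω,
        σ (coeff m G) * ∏ i, (if i ∈ T then φ i z₁ else 0) ^ m i =
        ∑ m : M₀, if weightOf w m.1 = ω then
          σ (coeff m.1 G) * ∏ i, (if i ∈ T then φ i z₁ else 0) ^ m.1 i else 0 :=
      (Finset.sum_filter _ _).trans (Finset.sum_coe_sort M₀ (fun m => if weightOf w m = ω then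
        σ (coeff m G) * ∏ i, (if i ∈ T then φ i z₁ else 0) ^ m i else 0)).symm
    have e2 : ∑ m : M₀ with weightOf w m.1 = ω, σ (coeff m.1 G) * u m z₁ ^ k =
        ∑ m : M₀, if weightOf w m.1 = ω then σ (coeff m.1 G) * u m z₁ ^ k else 0 :=
      Finset.sum_filter _ _
    have e3 : ∑ m ∈ M₀ with weightOf w m = ω,
        σ (coeff m G) * ∏ i, (if i ∈ T then φ i z₁ else 0) ^ m i =
        (∏ i ∈ T, φ i z₁ ^ (m₀ i)) * ∑ m : M₀ with weightOf w m.1 = ω,
          σ (coeff m.1 G) * u m z₁ ^ k := by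
      rw [e1, e2, Finset.mul_sum]
      refine Finset.sum_congr rfl fun m _ => ?_
      by_cases hm : weightOf w m.1 = ω
      · rw [if_pos hm, if_pos hm]
        have h7 : ∏ i, (if i ∈ T then φ i z₁ else 0) ^ (m.1 i) =
            ∏ i ∈ T, φ i z₁ ^ (m.1 i) := by
          have h8 : ∏ i, (if i ∈ T then φ i z₁ else 0) ^ (m.1 i) =
              ∏ i ∈ T, (if i ∈ T then φ i z₁ else 0) ^ (m.1 i) := by
            symm
            apply Finset.prod_subset (Finset.subset_univ _)
            intro i _ hi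
            rw [(hι m).2 i hi, pow_zero]
          rw [h8]
          refine Finset.prod_congr rfl fun i hi => ?_
          rw [if_pos hi]
        rw [h7, hpow m z₁ hne₁]
        ring
      · rw [if_neg hm, if_neg hm, mul_zero]
    rw [e3, hval, mul_zero]

end Pool.Agent.Work.MP_f82ddf_nt
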