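import Pool.Agent.Work.MP_f82ddf_nt.Brody.Coords

/-!
# Entire curves in varieties defined by sums of few powers of linear forms
-/

open Topology Filter Metric Set MvPolynomial
open scoped LinearAlgebra.Projectivization

namespace Pool.Agent.Work.MP_f82ddf_nt

variable {n : ℕ}

/-- A linear relation which holds generically between the coordinates of a curve holds
everywhere. -/
theorem rel_everywhere {f : ℂ → PSpace ℂ n} (hf : HolomorphicOn f univ) {i₀ : Fin (n + 1)}
    (hi₀ : ∀ z₀, ∀ᶠ z in 𝓝[≠] z₀, crd f i₀ i₀ z ≠ 0) (c : Fin (n + 1) → ℂ)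
    (h : ∀ z₀, ∀ᶠ z in 𝓝[≠] z₀, ∑ i, c i * crd f i₀ i z = 0) (z₀ : ℂ) :
    ∑ i, c i * (f z₀).rep i = 0 := by
  obtain ⟨g, hg⟩ := hf z₀ (mem_univ z₀)
  have hg' : IsLift f g z₀ := hg
  have h1 : ∀ᶠ z in 𝓝[≠] z₀, ∑ i, c i * g z i = 0 := by
    have h2 : ∀ᶠ z in 𝓝[≠] z₀, ∀ i, crd f i₀ i z = g z i / g z i₀ :=
      eventually_all.2 fun i => nhdsWithin_le_nhds (crd_lift hg' i₀ i)
    filter_upwards [h z₀, hi₀ z₀, h2] with z a b e
    have h3 : g z i₀ ≠ 0 := by
      intro h0
      rw [e i₀, h0, div_zero] at b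
      exact b rfl
    have h4 : (∑ i, c i * g z i) / g z i₀ = 0 := by
      rw [Finset.sum_div, ← a]
      refine Finset.sum_congr rfl fun i _ => ?_
      rw [e i, mul_div_assoc]
    rcases div_eq_zero_iff.1 h4 with h5 | h5
    · exact h5
    · exact absurd h5 h3
  have h2 := (eq_of_punctured (u := fun z => ∑ i, c i * g z i) (v := fun _ => 0) (by
    apply Finset.analyticAt_fun_sum
    intro i _
    exact analyticAt_const.mul ((analyticAt_pi_iff.1 hg'.1) i)) analyticAt_const h1).self_of_nhds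
  obtain ⟨a, ha⟩ := Projectivization.exists_smul_eq_mk_rep ℂ (g z₀) hg'.ne
  rw [hg'.eq, ← ha]
  have h3 : ∑ i, c i * (a • g z₀) i = (a : ℂ) * ∑ i, c i * g z₀ i := by
    rw [Finset.mul_sum]
    refine Finset.sum_congr rfl fun i _ => ?_
    show c i * ((a : ℂ) * g z₀ i) = _
    ring
  rw [h3, h2, mul_zero]

/-- Entire curves in a variety cut out by combinations of few `d`-th powers of linear forms span
linear subspaces of the variety. -/
theorem line_of_waring {K : Type*} [Field K] {S : Set (MvPolynomial (Fin (n + 1)) K)}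
    (σ : K →+* ℂ)
    (hF : ∀ F ∈ S, ∃ (r d : ℕ) (ℓ : Fin r → Fin (n + 1) → ℂ) (a : Fin r → ℂ), r * (r - 2) < d ∧
      ∀ x : Fin (n + 1) → ℂ, eval₂ σ x F = ∑ j, a j * (∑ i, ℓ j i * x i) ^ d)
    (f : ℂ → PSpace ℂ n) (hf : HolomorphicOn f univ)
    (hfX : ∀ z, ∀ F ∈ S, eval₂ σ (f z).rep F = 0) (hne : ∃ a b, f a ≠ f b) :
    ∃ u v : Fin (n + 1) → ℂ, (∃ a b, u a * v b ≠ u b * v a) ∧
      ∀ F ∈ S, ∀ s t : ℂ, eval₂ σ (fun i => s * u i + t * v i) F = 0 := by
  classical
  obtain ⟨p, q, hpq⟩ := hne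
  refine ⟨(f p).rep, (f q).rep, ?_, ?_⟩
  · by_contra hcon
    push Not at hcon
    apply hpq
    obtain ⟨b, hb⟩ : ∃ b, (f q).rep b ≠ 0 := by
      by_contra h0
      push Not at h0
      exact (f q).rep_nonzero (funext h0)
    rw [← (f p).mk_rep, ← (f q).mk_rep, Projectivization.mk_eq_mk_iff']
    refine ⟨(f p).rep b / (f q).rep b, ?_⟩
    funext a
    show (f p).rep b / (f q).rep b * (f q).rep a = (f p).rep a
    have := hcon a b
    field_simp
    linear_combination -this
  -- the coordinate `i₀`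
  obtain ⟨i₀, hi₀⟩ : ∃ i, (f 0).rep i ≠ 0 := by
    by_contra hcon
    push Not at hcon
    exact (f 0).rep_nonzero (funext hcon)
  set φ : Fin (n + 1) → ℂ → ℂ := crd f i₀ with hφ
  have hφm : ∀ i z, MeromorphicAt (φ i) z := fun i z => crd_mero hf i₀ i z
  have hφ0ne : ∀ z₀, ∀ᶠ z in 𝓝[≠] z₀, φ i₀ z ≠ 0 := by
    apply mero_ne (hφm i₀) (z₁ := 0)
    apply Eventually.frequently
    obtain ⟨g, hg⟩ := hf 0 (mem_univ 0)
    have hg' : IsLift f g 0 := hg
    have h1 := crd_lift hg' i₀ i₀
    have h2 : g 0 i₀ ≠ 0 := by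
      intro h0
      have h3 := h1.self_of_nhds
      rw [h0, div_zero] at h3
      unfold crd at h3
      rw [div_self hi₀] at h3
      exact one_ne_zero h3
    have h3 : ContinuousAt (fun z => g z i₀) 0 := ((analyticAt_pi_iff.1 hg'.1) i₀).continuousAt
    apply nhdsWithin_le_nhds
    filter_upwards [h1, h3.eventually_ne h2] with z h4 h5
    rw [hφ, h4, div_self h5]
    exact one_ne_zero
  have hrep : ∀ z, φ i₀ z ≠ 0 → (f z).rep i₀ ≠ 0 := by
    intro z hz h0
    apply hz
    rw [hφ]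
    unfold crd
    rw [h0, div_zero]
  intro F hFS s t
  obtain ⟨r, d, ℓ, a, hd, ha⟩ := hF F hFS
  have hd0 : 0 < d := by omega
  -- the linear forms along the curve
  let U : Fin r → ℂ → ℂ := fun j z => ∑ i, ℓ j i * φ i z
  have hUm : ∀ j z, MeromorphicAt (U j) z := by
    intro j z
    apply MeromorphicAt.fun_sum
    intro i _
    exact (MeromorphicAt.const _ z).mul (hφm i z)
  set T : Finset (Fin r) := Finset.univ.filter fun j => ∀ᶠ z in 𝓝[≠] (0 : ℂ), U j z ≠ 0 with hT
  have hmemT : ∀ j, j ∈ T → ∀ z₀, ∀ᶠ z in 𝓝[≠] z₀, U j z ≠ 0 := by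
    intro j hj
    exact mero_ne (hUm j) ((Finset.mem_filter.1 hj).2).frequently
  have hnotT : ∀ j, j ∉ T → ∀ z₀, ∀ᶠ z in 𝓝[≠] z₀, U j z = 0 := by
    intro j hj
    rcases (hUm j 0).eventually_eq_zero_or_eventually_ne_zero with h1 | h1
    · exact mero_zero (hUm j) h1
    · exact absurd (Finset.mem_filter.2 ⟨Finset.mem_univ j, h1⟩) hj
  -- linear forms on the plane
  let Lf : Fin r → (Fin (n + 1) → ℂ) → ℂ := fun j x => ∑ i, ℓ j i * x i
  have hplane : ∀ j s t, Lf j (fun i => s * (f p).rep i + t * (f q).rep i) =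
      s * Lf j (f p).rep + t * Lf j (f q).rep := by
    intro j s t
    simp only [Lf, Finset.mul_sum, ← Finset.sum_add_distrib]
    refine Finset.sum_congr rfl fun i _ => ?_
    ring
  have hzero : ∀ j, j ∉ T → ∀ z, Lf j (f z).rep = 0 := fun j hj z =>
    rel_everywhere hf hφ0ne (ℓ j) (hnotT j hj) z
  have hprop : ∀ j j' (a : ℂ), (∀ z₀, ∀ᶠ z in 𝓝[≠] z₀, U j z = a * U j' z) →
      ∀ z, Lf j (f z).rep = a * Lf j' (f z).rep := by
    intro j j' a ha z
    have h1 := rel_everywhere hf hφ0ne (fun i => ℓ j i - a * ℓ j' i) (fun z₀ => by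
      filter_upwards [ha z₀] with z hz
      have h2 : ∑ i, (ℓ j i - a * ℓ j' i) * crd f i₀ i z = U j z - a * U j' z := by
        simp only [U, hφ, Finset.mul_sum, ← Finset.sum_sub_distrib]
        refine Finset.sum_congr rfl fun i _ => ?_
        ring
      rw [h2, hz, sub_self]) z
    have h3 : ∑ i, (ℓ j i - a * ℓ j' i) * (f z).rep i = Lf j (f z).rep - a * Lf j' (f z).rep := by
      simp only [Lf, Finset.mul_sum, ← Finset.sum_sub_distrib]
      refine Finset.sum_congr rfl fun i _ => ?_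
      ring
    rw [h3] at h1
    exact sub_eq_zero.1 h1
  -- classes of proportional forms
  let R : T → T → Prop := fun j j' => ∃ a : ℂ, ∀ z₀, ∀ᶠ z in 𝓝[≠] z₀, U j z = a * U j' z
  have hRrefl : ∀ j, R j j := fun j => ⟨1, fun z₀ => Eventually.of_forall fun z => by ring⟩
  have hRsymm : ∀ j j', R j j' → R j' j := by
    rintro j j' ⟨a, ha⟩
    have ha0 : a ≠ 0 := by
      intro h0
      obtain ⟨z, h1, h2⟩ := ((ha 0).and (hmemT j j.2 0)).exists
      rw [h0, zero_mul] at h1
      exact h2 h1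
    refine ⟨a⁻¹, fun z₀ => ?_⟩
    filter_upwards [ha z₀] with z hz
    rw [hz]
    field_simp
  have hRtrans : ∀ j j' j'', R j j' → R j' j'' → R j j'' := by
    rintro j j' j'' ⟨a, ha⟩ ⟨b, hb⟩
    refine ⟨a * b, fun z₀ => ?_⟩
    filter_upwards [ha z₀, hb z₀] with z h1 h2
    rw [h1, h2]
    ring
  have hWne : ∀ j : T, (Finset.univ.filter fun j' : T => R j j').Nonempty := fun j =>
    ⟨j, by simp [hRrefl]⟩
  let Wf : T → T := fun j => (Finset.univ.filter fun j' : T => R j j').min' (hWne j)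
  have hWmem : ∀ j, R j (Wf j) := fun j =>
    (Finset.mem_filter.1 (Finset.min'_mem _ (hWne j))).2
  have hWeq : ∀ j j', R j j' → Wf j = Wf j' := by
    intro j j' h
    have h1 : (Finset.univ.filter fun x : T => R j x) = (Finset.univ.filter fun x : T => R j' x) := by
      refine Finset.filter_congr fun x _ => ?_
      exact ⟨fun h2 => hRtrans _ _ _ (hRsymm _ _ h) h2, fun h2 => hRtrans _ _ _ h h2⟩
    simp only [Wf, h1]
  let W : T → ℤ := fun j => ((Wf j : Fin r) : ℕ)
  have hWinj : ∀ j j', W j = W j' → R j j' := by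
    intro j j' h
    have h1 : Wf j = Wf j' := by
      have h' : (((Wf j : Fin r) : ℕ) : ℤ) = (((Wf j' : Fin r) : ℕ) : ℤ) := h
      have h2 : ((Wf j : Fin r) : ℕ) = ((Wf j' : Fin r) : ℕ) := Nat.cast_injective h'
      exact Subtype.ext (Fin.ext h2)
    have h3 := hWmem j
    rw [h1] at h3
    exact hRtrans _ _ _ h3 (hRsymm _ _ (hWmem j'))
  have hcard : Fintype.card T ≤ r := by
    rw [Fintype.card_coe]
    exact (Finset.card_le_univ T).trans (by rw [Fintype.card_fin])
  have hrel : ∀ z₀, ∀ᶠ z in 𝓝[≠] z₀, ∑ j : T, a j * U j z ^ d = 0 := by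
    intro z₀
    have h2 : ∀ᶠ z in 𝓝[≠] z₀, ∀ j, j ∉ T → U j z = 0 := by
      rw [eventually_all]
      intro j
      by_cases hj : j ∈ T
      · exact Eventually.of_forall fun z h => absurd hj h
      · filter_upwards [hnotT j hj z₀] with z hz _
        exact hz
    filter_upwards [hφ0ne z₀, h2] with z b1 b2
    have hr0 := hrep z b1
    have h3 := hfX z F hFS
    rw [ha] at h3
    have h4 : ∀ j, ∑ i, ℓ j i * (f z).rep i = (f z).rep i₀ * U j z := by
      intro j
      simp only [U, Finset.mul_sum]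
      refine Finset.sum_congr rfl fun i _ => ?_
      rw [hφ]
      unfold crd
      field_simp
    have h5 : ∑ j, a j * (∑ i, ℓ j i * (f z).rep i) ^ d =
        (f z).rep i₀ ^ d * ∑ j, a j * U j z ^ d := by
      rw [Finset.mul_sum]
      refine Finset.sum_congr rfl fun j _ => ?_
      rw [h4 j, mul_pow]
      ring
    rw [h5] at h3
    have h6 := (mul_eq_zero.1 h3).resolve_left (pow_ne_zero _ hr0)
    rw [Finset.sum_coe_sort T (fun j => a j * U j z ^ d), ← h6]
    apply Finset.sum_subset (Finset.subset_univ _)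
    intro j _ hj
    rw [b2 j hj, zero_pow hd0.ne', mul_zero]
  have hlev := level_sums hcard hd (fun j : T => U j) (fun j z => hUm j z)
    (fun j z₀ => hmemT j j.2 z₀) W (fun j j' h => by
      have := hWeq j j' h
      simp only [W, this]) (Finset.univ.filter fun j : T => a j ≠ 0).card (fun j => a j) le_rfl hrel
  -- the value on the plane
  rw [ha]
  set x : Fin (n + 1) → ℂ := fun i => s * (f p).rep i + t * (f q).rep i with hx
  have hxT : ∀ j, j ∉ T → Lf j x = 0 := by
    intro j hj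
    rw [hx, hplane, hzero j hj, hzero j hj, mul_zero, mul_zero, add_zero]
  have hxprop : ∀ j j' (b : ℂ), (∀ z₀, ∀ᶠ z in 𝓝[≠] z₀, U j z = b * U j' z) →
      Lf j x = b * Lf j' x := by
    intro j j' b hb
    rw [hx, hplane, hplane, hprop j j' b hb, hprop j j' b hb]
    ring
  have hlevx : ∀ ω, ∑ j : T with W j = ω, a j * Lf j x ^ d = 0 := by
    intro ω
    by_cases hemp : ∃ j₀ : T, W j₀ = ω
    · obtain ⟨j₀, hj₀⟩ := hemp
      have hb : ∀ j : T, ∃ b : ℂ, W j = ω → (∀ z₀, ∀ᶠ z in 𝓝[≠] z₀, U j z = b * U j₀ z) := by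
        intro j
        by_cases hj : W j = ω
        · obtain ⟨b, hb⟩ := hWinj j j₀ (hj.trans hj₀.symm)
          exact ⟨b, fun _ => hb⟩
        · exact ⟨0, fun h => absurd h hj⟩
      choose b hb using hb
      have h1 : ∑ j : T with W j = ω, a j * b j ^ d = 0 := by
        have h2 : ∀ᶠ z in 𝓝[≠] (0 : ℂ), ∀ j : T, W j = ω → U j z = b j * U j₀ z := by
          rw [eventually_all]
          intro j
          by_cases hj : W j = ω
          · filter_upwards [hb j hj 0] with z hz _
            exact hz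
          · exact Eventually.of_forall fun z h => absurd h hj
        obtain ⟨z, h3, h4, h5⟩ := ((hlev ω 0).and (h2.and (hmemT j₀ j₀.2 0))).exists
        have h6 : ∑ j : T with W j = ω, a j * U j z ^ d =
            (∑ j : T with W j = ω, a j * b j ^ d) * U j₀ z ^ d := by
          rw [Finset.sum_mul]
          refine Finset.sum_congr rfl fun j hj => ?_
          rw [h4 j (Finset.mem_filter.1 hj).2, mul_pow]
          ring
        rw [h6] at h3
        exact (mul_eq_zero.1 h3).resolve_right (pow_ne_zero _ h5)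
      have h2 : ∑ j : T with W j = ω, a j * Lf j x ^ d =
          (∑ j : T with W j = ω, a j * b j ^ d) * Lf j₀ x ^ d := by
        rw [Finset.sum_mul]
        refine Finset.sum_congr rfl fun j hj => ?_
        rw [hxprop j j₀ (b j) (hb j (Finset.mem_filter.1 hj).2), mul_pow]
        ring
      rw [h2, h1, zero_mul]
    · push Not at hemp
      rw [Finset.sum_eq_zero]
      intro j hj
      exact absurd (Finset.mem_filter.1 hj).2 (hemp j)
  have h1 : ∑ j, a j * (∑ i, ℓ j i * x i) ^ d = ∑ j : T, a j * Lf j x ^ d := by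
    rw [Finset.sum_coe_sort T (fun j => a j * Lf j x ^ d)]
    symm
    apply Finset.sum_subset (Finset.subset_univ _)
    intro j _ hj
    rw [hxT j hj, zero_pow hd0.ne', mul_zero]
  rw [h1, ← Finset.sum_fiberwise_of_maps_to (s := Finset.univ) (t := Finset.univ.image W) (g := W)
    (fun j _ => Finset.mem_image_of_mem W (Finset.mem_univ j))]
  exact Finset.sum_eq_zero fun ω _ => hlevx ω

end Pool.Agent.Work.MP_f82ddf_nt
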