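import Pool.Agent.Work.MP_f82ddf_nt.Brody.Wronsk

/-!
# Wronskian determinants of powers
-/

open Topology Filter Metric Set

namespace Pool.Agent.Work.MP_f82ddf_nt

/-- The function `(h ^ k)^(s) / h ^ (k - s)`. -/
noncomputable def rp (k : ℕ) (h : ℂ → ℂ) : ℕ → ℂ → ℂ
  | 0 => fun _ => 1
  | s + 1 => fun z => ((k : ℂ) - s) * deriv h z * rp k h s z + h z * deriv (rp k h s) z

theorem rp_analytic (k : ℕ) {h : ℂ → ℂ} {z : ℂ} (hh : AnalyticAt ℂ h z) (s : ℕ) :
    AnalyticAt ℂ (rp k h s) z := by
  induction s with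
  | zero => exact analyticAt_const
  | succ s ih =>
    show AnalyticAt ℂ (fun z => ((k : ℂ) - s) * deriv h z * rp k h s z +
      h z * deriv (rp k h s) z) z
    exact ((analyticAt_const.mul hh.deriv).mul ih).add (hh.mul ih.deriv)

theorem rp_congr (k : ℕ) {h h' : ℂ → ℂ} {z : ℂ} (hh : h =ᶠ[𝓝 z] h') (s : ℕ) :
    rp k h s =ᶠ[𝓝 z] rp k h' s := by
  induction s with
  | zero => exact EventuallyEq.rfl
  | succ s ih =>
    have h1 : deriv h =ᶠ[𝓝 z] deriv h' := hh.deriv
    have h2 : deriv (rp k h s) =ᶠ[𝓝 z] deriv (rp k h' s) := ih.deriv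
    filter_upwards [hh, ih, h1, h2] with y a b c d
    show ((k : ℂ) - s) * deriv h y * rp k h s y + h y * deriv (rp k h s) y =
      ((k : ℂ) - s) * deriv h' y * rp k h' s y + h' y * deriv (rp k h' s) y
    rw [a, b, c, d]

theorem iteratedDeriv_pow_eq (k : ℕ) {h : ℂ → ℂ} (s : ℕ) : ∀ {z : ℂ}, AnalyticAt ℂ h z → s ≤ k →
    iteratedDeriv s (fun y => h y ^ k) z = h z ^ (k - s) * rp k h s z := by
  induction s with
  | zero =>
    intro z _ _
    simp [rp]
  | succ s ih =>
    intro z hz hs
    rw [iteratedDeriv_succ]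
    have h1 : iteratedDeriv s (fun y => h y ^ k) =ᶠ[𝓝 z] fun y => h y ^ (k - s) * rp k h s y := by
      filter_upwards [hz.eventually_analyticAt] with y hy
      exact ih hy (by omega)
    rw [h1.deriv_eq]
    have h2 : HasDerivAt h (deriv h z) z := hz.differentiableAt.hasDerivAt
    have h3 : HasDerivAt (rp k h s) (deriv (rp k h s) z) z :=
      (rp_analytic k hz s).differentiableAt.hasDerivAt
    have h4 := (h2.fun_pow (k - s)).fun_mul h3
    rw [h4.deriv]
    obtain ⟨e, he⟩ : ∃ e, k - s = e + 1 := ⟨k - s - 1, by omega⟩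
    have h5 : k - (s + 1) = e := by omega
    have h6 : ((k : ℂ) - s) = e + 1 := by
      have : (k : ℂ) = (s + (e + 1) : ℕ) := by
        congr 1
        omega
      rw [this]
      push_cast
      ring
    rw [he, h5]
    show _ = h z ^ e * (((k : ℂ) - s) * deriv h z * rp k h s z + h z * deriv (rp k h s) z)
    rw [h6]
    have h7 : e + 1 - 1 = e := rfl
    rw [h7]
    push_cast
    ring

/-- The matrix of the normalised derivatives of the powers. -/
noncomputable def bmat (r k : ℕ) (J : Fin (r + 2)) (h : Fin (r + 2) → ℂ → ℂ) (z : ℂ) :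
    Matrix (Fin (r + 2)) (Fin (r + 2)) ℂ :=
  Matrix.updateRow (Matrix.of fun s i => h i z ^ (r - s) * rp k (h i) s z) (Fin.last (r + 1))
    (Pi.single J 1)

/-- The normalised Wronskian determinant. -/
noncomputable def dd (r k : ℕ) (J : Fin (r + 2)) (h : Fin (r + 2) → ℂ → ℂ) (z : ℂ) : ℂ :=
  ((r : ℂ) + 2) * (bmat r k J h z).det

/-- The determinant of the derivatives with a last row of ones. -/
noncomputable def dt {r : ℕ} (v : Fin (r + 2) → ℂ → ℂ) (z : ℂ) : ℂ :=
  (Matrix.updateRow (wrow v z) (Fin.last (r + 1)) (fun _ => 1)).det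

theorem dt_mul {r : ℕ} {g : ℂ → ℂ} {v : Fin (r + 2) → ℂ → ℂ} {z : ℂ} (hg : AnalyticAt ℂ g z)
    (hv : ∀ i, AnalyticAt ℂ (v i) z) :
    dt (fun i y => g y * v i y) z = g z ^ (r + 1) * dt v z := by
  classical
  set L : Matrix (Fin (r + 2)) (Fin (r + 2)) ℂ := Matrix.of fun s t =>
    if s = Fin.last (r + 1) then (if t = Fin.last (r + 1) then 1 else 0) else
    if (t : ℕ) ≤ s then ((s : ℕ).choose t : ℂ) * iteratedDeriv (s - t) g z else 0 with hL
  have h1 : Matrix.updateRow (wrow (fun i y => g y * v i y) z) (Fin.last (r + 1)) (fun _ => 1) =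
      L * Matrix.updateRow (wrow v z) (Fin.last (r + 1)) (fun _ => 1) := by
    ext s i
    rw [Matrix.mul_apply]
    by_cases hs : s = Fin.last (r + 1)
    · subst hs
      rw [Matrix.updateRow_self, Finset.sum_eq_single (Fin.last (r + 1))]
      · simp [hL]
      · intro b _ hb
        simp [hL, hb]
      · simp
    · rw [Matrix.updateRow_ne hs]
      show iteratedDeriv s (fun y => g y * v i y) z = _
      rw [leibniz_fin s.2 hg (hv i)]
      refine Finset.sum_congr rfl fun t _ => ?_
      by_cases ht : t = Fin.last (r + 1)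
      · have h2 : ¬ ((t : ℕ) ≤ s) := by
          rw [ht]
          intro h
          exact hs (Fin.ext (le_antisymm (Nat.lt_succ_iff.1 s.2) h))
        have hL0 : L s t = 0 := by
          simp only [hL, Matrix.of_apply, if_neg hs, if_neg h2]
        rw [if_neg h2, hL0, zero_mul, zero_mul]
      · rw [Matrix.updateRow_ne ht]
        simp [hL, hs, wrow]
  have h2 : L.det = g z ^ (r + 1) := by
    rw [Matrix.det_of_isLowerTriangular L]
    · rw [Fin.prod_univ_castSucc]
      have h3 : ∀ i : Fin (r + 1), L i.castSucc i.castSucc = g z := by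
        intro i
        have : i.castSucc ≠ Fin.last (r + 1) := Fin.castSucc_ne_last i
        simp [hL]
      rw [Finset.prod_congr rfl fun i _ => h3 i]
      simp [hL]
    · intro i j hij
      have h3 : i < j := hij
      simp only [hL, Matrix.of_apply]
      by_cases hi : i = Fin.last (r + 1)
      · subst hi
        exact absurd h3 (not_lt.2 (Fin.le_last _))
      · rw [if_neg hi, if_neg]
        exact not_le.2 h3
  unfold dt
  rw [h1, Matrix.det_mul, h2]

theorem dt_eq {r : ℕ} {v : Fin (r + 2) → ℂ → ℂ} {z : ℂ}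
    (hv : ∀ i, AnalyticAt ℂ (v i) z) (hsum : ∀ᶠ y in 𝓝 z, ∑ i, v i y = 0) (J : Fin (r + 2)) :
    dt v z = ((r : ℂ) + 2) *
      (Matrix.updateRow (wrow v z) (Fin.last (r + 1)) (Pi.single J 1)).det := by
  classical
  have h1 : (Matrix.updateRow (wrow v z) (Fin.last (r + 1))
      ((fun _ => 1) + (-((r : ℂ) + 2)) • Pi.single J 1)).det = 0 := by
    rw [← Matrix.exists_mulVec_eq_zero_iff]
    refine ⟨fun _ => 1, ?_, ?_⟩
    · intro h
      have := congrFun h 0
      simp at this
    · funext s
      rw [Matrix.mulVec, dotProduct]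
      by_cases hs : s = Fin.last (r + 1)
      · subst hs
        simp only [Matrix.updateRow_self, Pi.add_apply, Pi.smul_apply, smul_eq_mul, mul_one,
          Finset.sum_add_distrib, ← Finset.mul_sum, Finset.sum_const, Finset.card_univ,
          Fintype.card_fin, Pi.zero_apply, Finset.sum_pi_single', Finset.mem_univ, if_true]
        simp
      · simp only [Matrix.updateRow_ne hs, mul_one, Pi.zero_apply]
        show ∑ i, iteratedDeriv s (v i) z = 0
        rw [← iteratedDeriv_fun_sum (fun i _ => (hv i).contDiffAt)]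
        have h2 : (fun y => ∑ i, v i y) =ᶠ[𝓝 z] fun _ => 0 := hsum
        rw [h2.iteratedDeriv_eq]
        rw [iteratedDeriv_const]
        simp
  rw [Matrix.det_updateRow_add, Matrix.det_updateRow_smul] at h1
  unfold dt
  linear_combination h1

theorem dt_pow {r k : ℕ} (hk : r ≤ k) {h : Fin (r + 2) → ℂ → ℂ} {z : ℂ} {J : Fin (r + 2)}
    (hh : ∀ i, AnalyticAt ℂ (h i) z) (hJ : h J z = 1)
    (hsum : ∀ᶠ y in 𝓝 z, ∑ i, h i y ^ k = 0) :
    dt (fun i y => h i y ^ k) z = (∏ i, h i z ^ (k - r)) * dd r k J h z := by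
  classical
  rw [dt_eq (fun i => (hh i).fun_pow k) hsum J]
  have h1 : Matrix.updateRow (wrow (fun i y => h i y ^ k) z) (Fin.last (r + 1)) (Pi.single J 1) =
      Matrix.of fun s i => h i z ^ (k - r) * bmat r k J h z s i := by
    ext s i
    by_cases hs : s = Fin.last (r + 1)
    · subst hs
      simp only [Matrix.updateRow_self, Matrix.of_apply, bmat]
      by_cases hi : i = J
      · subst hi
        simp [hJ]
      · simp [hi]
    · simp only [bmat, Matrix.updateRow_ne hs, Matrix.of_apply]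
      have hsr : (s : ℕ) ≤ r := by
        have h2 := s.2
        have h3 : (s : ℕ) ≠ r + 1 := fun h => hs (Fin.ext h)
        omega
      show iteratedDeriv s (fun y => h i y ^ k) z = _
      rw [iteratedDeriv_pow_eq k s (hh i) (hsr.trans hk), ← mul_assoc, ← pow_add]
      congr 2
      omega
  rw [h1, Matrix.det_mul_row]
  unfold dd
  ring

theorem det_analytic {N : ℕ} {M : ℂ → Matrix (Fin N) (Fin N) ℂ} {z : ℂ}
    (hM : ∀ i j, AnalyticAt ℂ (fun y => M y i j) z) : AnalyticAt ℂ (fun y => (M y).det) z := by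
  simp only [Matrix.det_apply']
  apply Finset.analyticAt_fun_sum
  intro σ _
  exact analyticAt_const.mul (Finset.analyticAt_fun_prod _ fun i _ => hM _ _)

theorem dd_analytic {r k : ℕ} {J : Fin (r + 2)} {h : Fin (r + 2) → ℂ → ℂ} {z : ℂ}
    (hh : ∀ i, AnalyticAt ℂ (h i) z) : AnalyticAt ℂ (dd r k J h) z := by
  classical
  apply analyticAt_const.mul
  apply det_analytic
  intro s i
  by_cases hs : s = Fin.last (r + 1)
  · subst hs
    simp only [bmat, Matrix.updateRow_self]
    exact analyticAt_const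
  · simp only [bmat, Matrix.updateRow_ne hs, Matrix.of_apply]
    exact ((hh i).pow _).mul (rp_analytic k (hh i) s)

theorem dd_congr {r k : ℕ} {J : Fin (r + 2)} {h h' : Fin (r + 2) → ℂ → ℂ} {z : ℂ}
    (hh : ∀ i, h i =ᶠ[𝓝 z] h' i) : dd r k J h z = dd r k J h' z := by
  classical
  unfold dd
  congr 2
  ext s i
  by_cases hs : s = Fin.last (r + 1)
  · subst hs
    simp only [bmat, Matrix.updateRow_self]
  · simp only [bmat, Matrix.updateRow_ne hs, Matrix.of_apply]
    rw [(hh i).eq_of_nhds, (rp_congr k (hh i) s).eq_of_nhds]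

end Pool.Agent.Work.MP_f82ddf_nt
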