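import Pool.Agent.Work.MP_f82ddf_nt.Brody.Wdet

/-!
# Reparametrisation and limits of Wronskian determinants; the canonical formula
-/

open Topology Filter Metric Set

namespace Pool.Agent.Work.MP_f82ddf_nt

theorem rp_affine (k : ℕ) {h : ℂ → ℂ} (a l : ℂ) (s : ℕ) : ∀ {ζ : ℂ}, AnalyticAt ℂ h (a + l * ζ) →
    rp k (fun ζ => h (a + l * ζ)) s ζ = l ^ s * rp k h s (a + l * ζ) := by
  have haff : ∀ ζ : ℂ, HasDerivAt (fun ζ : ℂ => a + l * ζ) l ζ := by
    intro ζ
    have := ((hasDerivAt_id ζ).const_mul l).const_add a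
    simpa using this
  induction s with
  | zero =>
    intro ζ _
    simp [rp]
  | succ s ih =>
    intro ζ hζ
    have h1 : deriv (fun ζ => h (a + l * ζ)) ζ = deriv h (a + l * ζ) * l :=
      (hζ.differentiableAt.hasDerivAt.comp ζ (haff ζ)).deriv
    have h2 : ∀ᶠ y in 𝓝 ζ, AnalyticAt ℂ h (a + l * y) :=
      (haff ζ).continuousAt.eventually hζ.eventually_analyticAt
    have h3 : rp k (fun ζ => h (a + l * ζ)) s =ᶠ[𝓝 ζ] fun y => l ^ s * rp k h s (a + l * y) := by
      filter_upwards [h2] with y hy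
      exact ih hy
    have h4 : deriv (fun y => l ^ s * rp k h s (a + l * y)) ζ =
        l ^ s * (deriv (rp k h s) (a + l * ζ) * l) := by
      have h5 := (rp_analytic k hζ s).differentiableAt.hasDerivAt.comp ζ (haff ζ)
      exact (h5.const_mul (l ^ s)).deriv
    show ((k : ℂ) - s) * deriv (fun ζ => h (a + l * ζ)) ζ * rp k (fun ζ => h (a + l * ζ)) s ζ +
      h (a + l * ζ) * deriv (rp k (fun ζ => h (a + l * ζ)) s) ζ =
      l ^ (s + 1) * (((k : ℂ) - s) * deriv h (a + l * ζ) * rp k h s (a + l * ζ) +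
        h (a + l * ζ) * deriv (rp k h s) (a + l * ζ))
    rw [h1, ih hζ, h3.deriv_eq, h4]
    ring

theorem dd_affine {r k : ℕ} {J : Fin (r + 2)} {h : Fin (r + 2) → ℂ → ℂ} (a l ζ : ℂ)
    (hh : ∀ i, AnalyticAt ℂ (h i) (a + l * ζ)) :
    dd r k J (fun i ζ => h i (a + l * ζ)) ζ =
      l ^ (∑ s : Fin (r + 1), (s : ℕ)) * dd r k J h (a + l * ζ) := by
  classical
  have h1 : bmat r k J (fun i ζ => h i (a + l * ζ)) ζ =
      Matrix.of fun s i => (if s = Fin.last (r + 1) then 1 else l ^ (s : ℕ)) *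
        bmat r k J h (a + l * ζ) s i := by
    ext s i
    by_cases hs : s = Fin.last (r + 1)
    · subst hs
      simp [bmat]
    · simp only [bmat, Matrix.updateRow_ne hs, Matrix.of_apply, if_neg hs]
      rw [rp_affine k a l s (hh i)]
      ring
  unfold dd
  rw [h1, Matrix.det_mul_column, Fin.prod_univ_castSucc, if_pos rfl, mul_one]
  have h2 : ∏ i : Fin (r + 1), (if (i.castSucc : Fin (r + 2)) = Fin.last (r + 1) then (1 : ℂ)
      else l ^ ((i.castSucc : Fin (r + 2)) : ℕ)) = l ^ (∑ s : Fin (r + 1), (s : ℕ)) := by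
    rw [← Finset.prod_pow_eq_pow_sum]
    refine Finset.prod_congr rfl fun i _ => ?_
    rw [if_neg (Fin.castSucc_ne_last i)]
    simp
  rw [h2]
  ring

theorem rp_tendsto (k : ℕ) {ι : Type*} {φ : Filter ι} [NeBot φ] {U : Set ℂ} (hU : IsOpen U)
    {F : ι → ℂ → ℂ} {f : ℂ → ℂ} (hF : ∀ n, DifferentiableOn ℂ (F n) U)
    (hf : TendstoLocallyUniformlyOn F f φ U) (s : ℕ) :
    TendstoLocallyUniformlyOn (fun n => rp k (F n) s) (rp k f s) φ U := by
  have hfd : DifferentiableOn ℂ f U := hf.differentiableOn (Eventually.of_forall hF) hU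
  have han : ∀ n, ∀ z ∈ U, AnalyticAt ℂ (F n) z := fun n z hz => (hF n).analyticAt (hU.mem_nhds hz)
  have hanf : ∀ z ∈ U, AnalyticAt ℂ f z := fun z hz => hfd.analyticAt (hU.mem_nhds hz)
  induction s with
  | zero =>
    intro u hu x hx
    refine ⟨U, self_mem_nhdsWithin, Eventually.of_forall fun n y _ => ?_⟩
    exact refl_mem_uniformity hu
  | succ s ih =>
    have h1 : TendstoLocallyUniformlyOn (fun n => deriv (F n)) (deriv f) φ U :=
      hf.deriv (Eventually.of_forall hF) hU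
    have hd : ∀ n, DifferentiableOn ℂ (rp k (F n) s) U := fun n z hz =>
      (rp_analytic k (han n z hz) s).differentiableAt.differentiableWithinAt
    have h2 : TendstoLocallyUniformlyOn (fun n => deriv (rp k (F n) s)) (deriv (rp k f s)) φ U :=
      ih.deriv (Eventually.of_forall hd) hU
    have c1 : ContinuousOn f U := hfd.continuousOn
    have c2 : ContinuousOn (deriv f) U := fun z hz =>
      (hanf z hz).deriv.continuousAt.continuousWithinAt
    have c3 : ContinuousOn (rp k f s) U := fun z hz =>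
      (rp_analytic k (hanf z hz) s).continuousAt.continuousWithinAt
    have c4 : ContinuousOn (deriv (rp k f s)) U := fun z hz =>
      (rp_analytic k (hanf z hz) s).deriv.continuousAt.continuousWithinAt
    have h0 : TendstoLocallyUniformlyOn (fun (_ : ι) (_ : ℂ) => ((k : ℂ) - s))
        (fun _ => ((k : ℂ) - s)) φ U := by
      intro u hu x hx
      exact ⟨U, self_mem_nhdsWithin, Eventually.of_forall fun n y _ => refl_mem_uniformity hu⟩
    have h3 := ((h0.fun_mul₀ h1 continuousOn_const c2).fun_mul₀ ih (continuousOn_const.mul c2) c3)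
    have h4 := hf.fun_mul₀ h2 c1 c4
    exact h3.add h4

theorem dd_tendsto {r k : ℕ} {J : Fin (r + 2)} {ι : Type*} {φ : Filter ι} [NeBot φ] {U : Set ℂ}
    (hU : IsOpen U) {F : ι → Fin (r + 2) → ℂ → ℂ} {f : Fin (r + 2) → ℂ → ℂ}
    (hF : ∀ n i, DifferentiableOn ℂ (F n i) U)
    (hf : ∀ i, TendstoLocallyUniformlyOn (fun n => F n i) (f i) φ U) {z : ℂ} (hz : z ∈ U) :
    Tendsto (fun n => dd r k J (F n) z) φ (𝓝 (dd r k J f z)) := by
  classical
  unfold dd
  apply Tendsto.const_mul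
  have hcont : Continuous (fun M : Matrix (Fin (r + 2)) (Fin (r + 2)) ℂ => M.det) :=
    Continuous.matrix_det continuous_id
  refine (hcont.tendsto _).comp ?_
  refine tendsto_pi_nhds.2 fun s => tendsto_pi_nhds.2 fun i => ?_
  by_cases hs : s = Fin.last (r + 1)
  · subst hs
    simp only [bmat, Matrix.updateRow_self]
    exact tendsto_const_nhds
  · simp only [bmat, Matrix.updateRow_ne hs, Matrix.of_apply]
    exact (((hf i).tendsto_at hz).pow _).mul
      ((rp_tendsto k hU (fun n => hF n i) (hf i) s).tendsto_at hz)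

/-- If all functions are locally constant then the normalised Wronskian determinant vanishes. -/
theorem dd_const {r k : ℕ} (hr : 1 ≤ r) {J : Fin (r + 2)} {h : Fin (r + 2) → ℂ → ℂ} {z : ℂ}
    (hh : ∀ i, deriv (h i) z = 0) : dd r k J h z = 0 := by
  classical
  unfold dd
  rw [Matrix.det_eq_zero_of_row_eq_zero (⟨1, by omega⟩ : Fin (r + 2)), mul_zero]
  intro i
  have hs : (⟨1, by omega⟩ : Fin (r + 2)) ≠ Fin.last (r + 1) := by
    intro h
    have := congrArg Fin.val h
    simp at this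
    omega
  simp only [bmat, Matrix.updateRow_ne hs, Matrix.of_apply]
  have h1 : rp k (h i) 1 z = 0 := by
    show ((k : ℂ) - (0 : ℕ)) * deriv (h i) z * rp k (h i) 0 z + h i z * deriv (rp k (h i) 0) z = 0
    have h2 : rp k (h i) 0 = fun _ => 1 := rfl
    rw [hh i, h2, deriv_const]
    ring
  rw [h1, mul_zero]

/-- The canonical formula. -/
noncomputable def ee (r k m : ℕ) (w : Fin (r + 2) → ℂ → ℂ) (j : Fin (r + 2)) (z : ℂ) : ℂ :=
  dt (fun i y => w i y ^ k) z * w j z ^ m / ∏ i, w i z ^ (k - r)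

theorem ee_eq {r k m : ℕ} (hkm : k * (r + 1) + m = (k - r) * (r + 2)) (hrk : r ≤ k)
    {w h : Fin (r + 2) → ℂ → ℂ} {J : Fin (r + 2)} {z : ℂ}
    (hw : AnalyticAt ℂ (w J) z) (hwJ : w J z ≠ 0) (hh : ∀ i, AnalyticAt ℂ (h i) z)
    (hwh : ∀ᶠ y in 𝓝 z, ∀ i, w i y = w J y * h i y) (hJ : h J z = 1) (hne : ∀ i, h i z ≠ 0)
    (hsum : ∀ᶠ y in 𝓝 z, ∑ i, w i y ^ k = 0) (j : Fin (r + 2)) :
    ee r k m w j z = dd r k J h z * h j z ^ m := by
  have h1 : dt (fun i y => w i y ^ k) z = dt (fun i y => w J y ^ k * h i y ^ k) z := by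
    unfold dt
    congr 2
    ext s i
    show iteratedDeriv s (fun y => w i y ^ k) z = iteratedDeriv s (fun y => w J y ^ k * h i y ^ k) z
    apply Filter.EventuallyEq.iteratedDeriv_eq
    filter_upwards [hwh] with y hy
    rw [hy i, mul_pow]
  have h2 : ∀ᶠ y in 𝓝 z, ∑ i, h i y ^ k = 0 := by
    filter_upwards [hwh, hsum, hw.continuousAt.eventually_ne hwJ] with y a b c
    have : w J y ^ k * ∑ i, h i y ^ k = 0 := by
      rw [Finset.mul_sum, ← b]
      refine Finset.sum_congr rfl fun i _ => ?_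
      rw [a i, mul_pow]
    exact (mul_eq_zero.1 this).resolve_left (pow_ne_zero _ c)
  have h3 := dt_mul (hw.fun_pow k) (fun i => (hh i).fun_pow k)
  unfold ee
  rw [h1, h3, dt_pow hrk hh hJ h2]
  have h4 := hwh.self_of_nhds
  have h5 : ∏ i, w i z ^ (k - r) = w J z ^ ((k - r) * (r + 2)) * ∏ i, h i z ^ (k - r) := by
    rw [Finset.prod_congr rfl fun i _ => by rw [h4 i, mul_pow], Finset.prod_mul_distrib,
      Finset.prod_const, Finset.card_univ, Fintype.card_fin, ← pow_mul]
  rw [h5, h4 j, ← hkm, mul_pow, ← pow_mul]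
  have h6 : ∏ i, h i z ^ (k - r) ≠ 0 := Finset.prod_ne_zero_iff.2 fun i _ => pow_ne_zero _ (hne i)
  rw [div_eq_iff (mul_ne_zero (pow_ne_zero _ hwJ) h6), pow_add]
  ring

end Pool.Agent.Work.MP_f82ddf_nt
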