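import Mathlib

/-!
# Wronskians of holomorphic functions
-/

open Topology Filter Metric Set

namespace Pool.Agent.Work.MP_f82ddf_nt

/-- The matrix of the derivatives of a family of functions. -/
noncomputable def wrow {N : ℕ} (v : Fin N → ℂ → ℂ) (z : ℂ) : Matrix (Fin N) (Fin N) ℂ :=
  Matrix.of fun s i => iteratedDeriv s (v i) z

/-- The Wronskian. -/
noncomputable def wron {N : ℕ} (v : Fin N → ℂ → ℂ) (z : ℂ) : ℂ := (wrow v z).det

theorem leibniz_fin {N s : ℕ} (hs : s < N) {g v : ℂ → ℂ} {z : ℂ} (hg : AnalyticAt ℂ g z)
    (hv : AnalyticAt ℂ v z) :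
    iteratedDeriv s (fun y => g y * v y) z =
      ∑ t : Fin N, (if (t : ℕ) ≤ s then (s.choose t : ℂ) * iteratedDeriv (s - t) g z else 0) *
        iteratedDeriv t v z := by
  have h1 : (fun y => g y * v y) = v * g := by
    funext y
    simp [mul_comm]
  rw [h1, iteratedDeriv_mul hv.contDiffAt hg.contDiffAt]
  rw [Fin.sum_univ_eq_sum_range (fun t => (if t ≤ s then (s.choose t : ℂ) *
    iteratedDeriv (s - t) g z else 0) * iteratedDeriv t v z) N]
  symm
  rw [← Finset.sum_subset (Finset.range_mono (Nat.succ_le_of_lt hs))]
  · refine Finset.sum_congr rfl fun t ht => ?_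
    rw [if_pos (Nat.lt_succ_iff.1 (Finset.mem_range.1 ht))]
    ring
  · intro t _ ht
    rw [if_neg, zero_mul]
    intro h
    exact ht (Finset.mem_range.2 (Nat.lt_succ_iff.2 h))

theorem wron_mul {N : ℕ} {g : ℂ → ℂ} {v : Fin N → ℂ → ℂ} {z : ℂ} (hg : AnalyticAt ℂ g z)
    (hv : ∀ i, AnalyticAt ℂ (v i) z) :
    wron (fun i y => g y * v i y) z = g z ^ N * wron v z := by
  classical
  set L : Matrix (Fin N) (Fin N) ℂ := Matrix.of fun s t =>
    if (t : ℕ) ≤ s then ((s : ℕ).choose t : ℂ) * iteratedDeriv (s - t) g z else 0 with hL
  have h1 : wrow (fun i y => g y * v i y) z = L * wrow v z := by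
    ext s i
    rw [Matrix.mul_apply]
    show iteratedDeriv s (fun y => g y * v i y) z = _
    rw [leibniz_fin s.2 hg (hv i)]
    rfl
  have h2 : L.det = g z ^ N := by
    rw [Matrix.det_of_isLowerTriangular L]
    · simp [hL]
    · intro i j hij
      have h3 : i < j := hij
      simp only [hL, Matrix.of_apply]
      rw [if_neg]
      exact not_le.2 h3
  unfold wron
  rw [h1, Matrix.det_mul, h2]

theorem wron_one {N : ℕ} {v : Fin (N + 1) → ℂ → ℂ} {z : ℂ} (h0 : v 0 = fun _ => 1) :
    wron v z = wron (fun i : Fin N => deriv (v i.succ)) z := by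
  unfold wron
  rw [Matrix.det_succ_column_zero, Finset.sum_eq_single 0]
  · have h1 : wrow v z 0 0 = 1 := by
      simp [wrow, h0]
    rw [h1]
    simp only [Fin.val_zero, pow_zero, one_mul]
    congr 1
    ext s i
    simp only [wrow, Matrix.submatrix_apply, Matrix.of_apply, Fin.zero_succAbove, Fin.val_succ]
    exact congrFun iteratedDeriv_succ' z
  · intro b _ hb
    have h1 : wrow v z b 0 = 0 := by
      simp only [wrow, h0, Matrix.of_apply]
      rw [iteratedDeriv_const]
      rw [if_neg]
      intro h
      exact hb (Fin.ext h)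
    rw [h1]
    ring
  · intro h
    exact absurd (Finset.mem_univ _) h

/-- If the Wronskian vanishes, the functions are linearly dependent. -/
theorem exists_relation_of_wron (N : ℕ) : ∀ {U : Set ℂ}, IsOpen U → IsConnected U →
    ∀ v : Fin N → ℂ → ℂ, (∀ i, AnalyticOnNhd ℂ (v i) U) → (∀ z ∈ U, wron v z = 0) →
    ∃ c : Fin N → ℂ, c ≠ 0 ∧ ∀ z ∈ U, ∑ i, c i * v i z = 0 := by
  induction N with
  | zero =>
    intro U _ hU v _ hW
    obtain ⟨z, hz⟩ := hU.nonempty
    have := hW z hz
    simp [wron] at this
  | succ N ih =>
    intro U hUo hUc v hv hW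
    by_cases h0 : ∀ z ∈ U, v 0 z = 0
    · refine ⟨Pi.single 0 1, ?_, ?_⟩
      · intro h
        have := congrFun h 0
        simp at this
      · intro z hz
        rw [Finset.sum_eq_single 0]
        · simp [h0 z hz]
        · intro b _ hb
          simp [hb]
        · simp
    · push Not at h0
      obtain ⟨z₀, hz₀, hne⟩ := h0
      have h1 : ∀ᶠ z in 𝓝 z₀, v 0 z ≠ 0 ∧ z ∈ U :=
        ((hv 0 z₀ hz₀).continuousAt.eventually_ne hne).and (hUo.mem_nhds hz₀)
      obtain ⟨ε, hε, hball⟩ := Metric.eventually_nhds_iff_ball.1 h1
      have hBc : IsConnected (ball z₀ ε) :=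
        ⟨⟨z₀, mem_ball_self hε⟩, (convex_ball z₀ ε).isPreconnected⟩
      set h : Fin N → ℂ → ℂ := fun i z => v i.succ z / v 0 z with hh
      have hhan : ∀ i, AnalyticOnNhd ℂ (h i) (ball z₀ ε) := fun i z hz =>
        (hv i.succ z (hball z hz).2).div (hv 0 z (hball z hz).2) (hball z hz).1
      obtain ⟨c, hc, hrel⟩ := ih isOpen_ball hBc (fun i => deriv (h i))
        (fun i z hz => (hhan i z hz).deriv) (by
          intro z hz
          have h2 := hW z (hball z hz).2
          have h3 : wron v z = wron (fun i y => v 0 y * (Fin.cases (fun _ => 1) h i : ℂ → ℂ) y) z := by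
            unfold wron
            congr 1
            ext s i
            apply Filter.EventuallyEq.iteratedDeriv_eq
            have h4 : ∀ᶠ y in 𝓝 z, y ∈ ball z₀ ε := isOpen_ball.mem_nhds hz
            filter_upwards [h4] with y hy
            refine Fin.cases ?_ (fun i => ?_) i
            · simp
            · simp only [Fin.cases_succ, hh]
              field_simp [(hball y hy).1]
          rw [h3, wron_mul (hv 0 z (hball z hz).2), wron_one] at h2
          · rcases mul_eq_zero.1 h2 with h5 | h5
            · exact absurd h5 (pow_ne_zero _ (hball z hz).1)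
            · simpa using h5
          · simp
          · intro i
            refine Fin.cases ?_ (fun i => ?_) i
            · simpa using analyticAt_const
            · simpa using hhan i z hz)
      -- the combination of the quotients is constant
      have hconst : ∀ z ∈ ball z₀ ε, ∑ i, c i * h i z = ∑ i, c i * h i z₀ := by
        intro z hz
        have hd : DifferentiableOn ℂ (fun z => ∑ i, c i * h i z) (ball z₀ ε) := by
          apply DifferentiableOn.fun_sum
          intro i _
          exact (hhan i).differentiableOn.const_mul _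
        refine isOpen_ball.is_const_of_deriv_eq_zero (convex_ball z₀ ε).isPreconnected hd ?_ hz
          (mem_ball_self hε)
        intro y hy
        have h5 : deriv (fun z => ∑ i, c i * h i z) y = ∑ i, c i * deriv (h i) y := by
          rw [deriv_fun_sum]
          · refine Finset.sum_congr rfl fun i _ => ?_
            exact deriv_const_mul _ (hhan i y hy).differentiableAt
          · intro i _
            exact (hhan i y hy).differentiableAt.const_mul _
        rw [h5]
        exact hrel y hy
      refine ⟨Fin.cases (-(∑ i, c i * h i z₀)) c, ?_, ?_⟩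
      · intro h6
        apply hc
        funext i
        have := congrFun h6 i.succ
        simpa using this
      · have han : AnalyticOnNhd ℂ (fun z => ∑ i, (Fin.cases (-(∑ i, c i * h i z₀)) c i : ℂ) *
            v i z) U := by
          intro z hz
          apply Finset.analyticAt_fun_sum
          intro i _
          exact analyticAt_const.mul (hv i z hz)
        have hev : (fun z => ∑ i, (Fin.cases (-(∑ i, c i * h i z₀)) c i : ℂ) * v i z)
            =ᶠ[𝓝 z₀] 0 := by
          filter_upwards [isOpen_ball.mem_nhds (mem_ball_self hε)] with z hz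
          rw [Fin.sum_univ_succ]
          simp only [Fin.cases_zero, Fin.cases_succ, Pi.zero_apply]
          have h7 := hconst z hz
          have h8 : ∑ i, c i * v i.succ z = (∑ i, c i * h i z) * v 0 z := by
            rw [Finset.sum_mul]
            refine Finset.sum_congr rfl fun i _ => ?_
            simp only [hh]
            have := (hball z hz).1
            field_simp
          rw [h8, h7]
          ring
        intro z hz
        have := han.eqOn_zero_of_preconnected_of_eventuallyEq_zero hUc.isPreconnected hz₀ hev hz
        simpa using this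

end Pool.Agent.Work.MP_f82ddf_nt
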